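import Mathlib
import Pool.Agent.Lib_helper71.LegLevel.Final

set_option autoImplicit false

/-!
# Level sets of the Legendre walk: a power of log p (MP_de1e57_nt)

Definitions and statements of the modules.  See `PAPER.md` in this folder.
-/

namespace Pool.Agent.LGP

open Finset Pool.Agent.Lib_helper96.Legendre Pool.Agent.Lib_helper71.LegLevel

noncomputable section

/-! ### Definitions -/

/-- `L(s, χ)` has a zero in the closed disc of radius `1.2 / T` around `1 + 1 / T` -/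
def Bad {N : ℕ} [NeZero N] (T : ℝ) (χ : DirichletCharacter ℂ N) : Prop :=
  ∃ w : ℂ, ‖w - ((1 + 1 / T : ℝ) : ℂ)‖ ≤ 6 / 5 / T ∧ χ.LFunction w = 0

/-- the weight `Λ(n) (log n)^k n^(-σ)` -/
def wt (k : ℕ) (σ : ℝ) (n : ℕ) : ℝ :=
  ArithmeticFunction.vonMangoldt n * Real.log n ^ k * (n : ℝ) ^ (-σ)

/-- the logarithmic derivative of `L(s, χ)` -/
def ld {N : ℕ} [NeZero N] (χ : DirichletCharacter ℂ N) (s : ℂ) : ℂ :=
  deriv χ.LFunction s / χ.LFunction s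

instance fact5 : Fact (Nat.Prime 5) := ⟨by norm_num⟩

/-- the completely multiplicative function equal to the Legendre symbol modulo `5` at integers
prime to `5` and to `1` at `5` (even) -/
def f5 (z : ℤ) : ℤ := quadraticChar (ZMod 5) ((z / 5 ^ padicValInt 5 z : ℤ) : ZMod 5)

/-- the step walk at level `k`: jumps `(j/5)` at the times `⌊p j / 5^(k+1)⌋` -/
def W5 (p k m : ℕ) : ℂ :=
  walk (5 ^ (k + 1)) (fun j => p * j / 5 ^ (k + 1)) (fun j => lg 5 j) m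

/-- the difference of the Legendre walk modulo `p` and the `5`-adic tower of step walks -/
def H5 (p y m : ℕ) [Fact p.Prime] : ℂ :=
  ((Psi p 0 m : ℤ) : ℂ) - tau p / tau 5 * ∑ k ∈ range y, (1 / 5 : ℂ) ^ k * W5 p k m

/-! ### Statements: L-functions near `1` -/

/-- LGP_LAN: the lemma of Landau -/
def S_LAN : Prop :=
  ∀ (f : ℂ → ℂ) (c : ℂ) (R M : ℝ), 0 < R → 0 < M →
    AnalyticOnNhd ℂ f (Metric.closedBall c R) → f c ≠ 0 →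
    (∀ z ∈ Metric.closedBall c R, ‖f z‖ ≤ Real.exp M * ‖f c‖) →
    (∀ z ∈ Metric.closedBall c (R / 2), f z = 0 → z.re < c.re) →
    -(8 * M / R) ≤ (deriv f c / f c).re ∧
      ∀ w ∈ Metric.closedBall c (R / 2), f w = 0 →
        (1 / (c - w)).re - 8 * M / R ≤ (deriv f c / f c).re

/-- LGP_LOW: the lower bound to the right of `1` -/
def S_LOW : Prop :=
  ∀ (N : ℕ) [NeZero N] (χ : DirichletCharacter ℂ N) (σ : ℝ), 1 < σ → σ ≤ 2 →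
    (σ - 1) / 2 ≤ ‖χ.LFunction (σ : ℂ)‖

/-- LGP_ZET: the logarithmic derivative of zeta -/
def S_ZET : Prop :=
  ∃ C : ℝ, 1 ≤ C ∧ ∀ σ : ℝ, 1 < σ → σ ≤ 2 →
    ‖deriv riemannZeta (σ : ℂ) / riemannZeta (σ : ℂ) + 1 / ((σ : ℂ) - 1)‖ ≤ C

/-- LGP_SER: weighted sums are derivatives of the logarithmic derivative -/
def S_SER : Prop :=
  ∀ (N : ℕ) [NeZero N] (χ : DirichletCharacter ℂ N) (k : ℕ) (σ : ℝ), 1 < σ →
    Summable (wt k σ) ∧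
    ‖∑' n : ℕ, χ (n : ZMod N) * (wt k σ n : ℂ)‖ = ‖iteratedDeriv k (ld χ) (σ : ℂ)‖

/-- LGP_MAIN: the main term -/
def S_MAIN : Prop :=
  ∃ C : ℝ, 1 ≤ C ∧ ∀ (N : ℕ), 1 ≤ N → ∀ T : ℝ, C * (1 + Real.log N) ≤ T → ∀ k : ℕ,
    (k.factorial : ℝ) * T ^ (k + 1) / 2 ≤
      ∑' n : ℕ, Set.indicator {n : ℕ | n.Coprime N} (wt k (1 + 1 / T)) n

/-- LGP_PAIR: two real characters do not both have a zero near `1` -/
def S_PAIR : Prop :=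
  ∃ A : ℝ, 1 ≤ A ∧ ∀ (N : ℕ) [NeZero N] (T : ℝ), A * (1 + Real.log N) ≤ T →
    ∀ χ₁ χ₂ : DirichletCharacter ℂ N, χ₁ ^ 2 = 1 → χ₂ ^ 2 = 1 → χ₁ ≠ 1 → χ₂ ≠ 1 → χ₁ ≠ χ₂ →
      Bad T χ₁ → Bad T χ₂ → False

/-- LGP_DER: derivatives of the logarithmic derivative without a zero nearby -/
def S_DER : Prop :=
  ∃ A : ℝ, 1 ≤ A ∧ ∀ (N : ℕ) [NeZero N] (T : ℝ), A * (1 + Real.log N) ≤ T →
    ∀ χ : DirichletCharacter ℂ N, χ ≠ 1 → ¬ Bad T χ → ∀ k : ℕ,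
      ‖iteratedDeriv k (ld χ) ((1 + 1 / T : ℝ) : ℂ)‖ ≤
        25 * ((k + 1).factorial : ℝ) * T * (T / (11 / 10)) ^ (k + 1)

/-- LGP_CUT: a large weighted sum comes from a prime of moderate size -/
def S_CUT : Prop :=
  ∃ C : ℝ, 1 ≤ C ∧ ∀ T : ℝ, C ≤ T → ∀ k : ℕ, 2 ≤ k → ∀ P : Set ℕ,
    3 * (k.factorial : ℝ) * (T / 8) ^ (k + 1) <
      (∑' n : ℕ, Set.indicator P (wt k (1 + 1 / T)) n) →
    ∃ p : ℕ, p.Prime ∧ p ∈ P ∧ T / 64 ≤ Real.log p ∧ Real.log p ≤ C * (k + 1) * T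

/-- LGP_EXI: primes with prescribed values of all real characters, for a modulus without a
real character that has a zero near `1` -/
def S_EXI : Prop :=
  ∃ C : ℝ, 1 ≤ C ∧ ∀ (N : ℕ) [NeZero N] (T : ℝ), C * (1 + Real.log N) ≤ T →
    (∀ χ : DirichletCharacter ℂ N, χ ^ 2 = 1 → χ ≠ 1 → ¬ Bad T χ) →
    ∀ b : ℕ, b.Coprime N →
      ∃ p : ℕ, p.Prime ∧
        (∀ χ : DirichletCharacter ℂ N, χ ^ 2 = 1 → χ (p : ZMod N) = χ (b : ZMod N)) ∧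
        T / 64 ≤ Real.log p ∧ Real.log p ≤ C * T ^ 2

/-! ### Statements: the moduli -/

/-- LGP_TOW: infinitely many good moduli -/
def S_TOW : Prop :=
  ∃ A₀ : ℝ, 1 ≤ A₀ ∧ ∀ A : ℝ, A₀ ≤ A → ∀ j₀ : ℕ, ∃ j : ℕ, j₀ ≤ j ∧
    ∃ (N : ℕ) (_ : NeZero N) (r : ℕ), N * r = 4 * primorial (2 ^ j) ∧
      (r = 1 ∨ (r.Prime ∧ 2 ^ j < 2 * r ∧ r ≤ 2 ^ j)) ∧
      ∀ χ : DirichletCharacter ℂ N, χ ^ 2 = 1 → χ ≠ 1 →
        ¬ Bad (A * (1 + Real.log ((4 * primorial (2 ^ j) : ℕ) : ℝ))) χ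

/-- LGP_IMI: the residue class which makes `χ_p` imitate `f5` -/
def S_IMI : Prop :=
  ∀ (y N r : ℕ) [NeZero N], 10 ≤ y → N * r = 4 * primorial y →
    (r = 1 ∨ (r.Prime ∧ y < 2 * r ∧ r ≤ y)) →
    ∃ b : ℕ, b.Coprime N ∧ ∀ (p : ℕ) [Fact p.Prime], y < p →
      (∀ χ : DirichletCharacter ℂ N, χ ^ 2 = 1 → χ (p : ZMod N) = χ (b : ZMod N)) →
      ∀ z : ℤ, z ≠ 0 → z.natAbs ≤ y → (r = 1 ∨ ¬ (r : ℤ) ∣ z) →
        quadraticChar (ZMod p) (z : ZMod p) = f5 z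

/-! ### Statements: the walks -/

/-- LGP_MSQ: the Legendre walk is close to the tower in mean square -/
def S_MSQ : Prop :=
  ∃ C : ℝ, 1 ≤ C ∧ ∀ (p : ℕ) [Fact p.Prime] (y r : ℕ), 10 ≤ y → y ^ 4 ≤ p →
    (r = 1 ∨ y < 2 * r) →
    (∀ z : ℤ, z ≠ 0 → z.natAbs ≤ y → (r = 1 ∨ ¬ (r : ℤ) ∣ z) →
      quadraticChar (ZMod p) (z : ZMod p) = f5 z) →
    ∃ μ : ℂ, ∑ m ∈ range p, ‖H5 p y m - μ‖ ^ 2 ≤ C * (p : ℝ) ^ 2 / y

/-- LGP_LEV: a large level -/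
def S_LEV : Prop :=
  ∀ (C : ℝ) (p : ℕ) [Fact p.Prime] (y K : ℕ), 1 ≤ C → 10 ≤ y → y ^ 4 ≤ p →
    4 * C * (125 / 3 : ℝ) ^ K ≤ y →
    (∃ μ : ℂ, ∑ m ∈ range p, ‖H5 p y m - μ‖ ^ 2 ≤ C * (p : ℝ) ^ 2 / y) →
    Real.sqrt p * 3 ^ K / 20 ≤ M p

/-- LGP_ASM: the final theorem -/
def S_ASM : Prop :=
  ∀ (B : ℝ) (N : ℕ), ∃ (p : ℕ) (_ : Fact p.Prime), N < p ∧ p ≠ 2 ∧
    B * (Real.sqrt p * Real.log p ^ (1 / 7 : ℝ)) < M p ∧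
    ∃ a : ZMod p, B * (Real.sqrt p * Real.log p ^ (1 / 7 : ℝ)) < Z p a

end

end Pool.Agent.LGP
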