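import Mathlib
import Pool.Agent.LGP.Stmts

set_option autoImplicit false

/-!
# LGP_ASM: choice of parameters
-/

namespace Pool.Agent.LGP

open Finset Pool.Agent.Lib_helper96.Legendre Pool.Agent.Lib_helper71.LegLevel

noncomputable section

namespace ASM

/-- a prime is at most the primorial -/
theorem le_primorial {q n : ℕ} (hq : q.Prime) (h : q ≤ n) : q ≤ primorial n := by
  apply Nat.le_of_dvd (primorial_pos n)
  unfold primorial
  exact Finset.dvd_prod_of_mem _ (Finset.mem_filter.2 ⟨Finset.mem_range.2 (by omega), hq⟩)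

theorem two_pow_le (j : ℕ) (hj : 1 ≤ j) : 2 ^ j ≤ 4 * primorial (2 ^ j) := by
  obtain ⟨i, rfl⟩ : ∃ i, j = i + 1 := ⟨j - 1, by omega⟩
  obtain ⟨q, hq, h1, h2⟩ := Nat.exists_prime_lt_and_le_two_mul (2 ^ i) (by positivity)
  have h3 := le_primorial hq (show q ≤ 2 ^ (i + 1) by rw [pow_succ]; omega)
  rw [pow_succ] at h3 ⊢
  omega

theorem log_le (y : ℕ) : Real.log ((4 * primorial y : ℕ) : ℝ) ≤ 2 * (y + 1) := by
  have h1 : ((4 * primorial y : ℕ) : ℝ) ≤ 4 ^ (y + 1) := by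
    have h2 := primorial_le_four_pow y
    have h3 : 4 * primorial y ≤ 4 ^ (y + 1) := by
      rw [pow_succ]
      omega
    exact_mod_cast h3
  have h2 : (0 : ℝ) < ((4 * primorial y : ℕ) : ℝ) := by
    have := primorial_pos y
    exact_mod_cast (by omega : 0 < 4 * primorial y)
  have h3 : Real.log 4 ≤ 2 := by
    have h4 : Real.log 4 = 2 * Real.log 2 := by
      rw [show (4 : ℝ) = 2 ^ 2 by norm_num, Real.log_pow]
      norm_num
    rw [h4]
    have := Real.log_two_lt_d9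
    linarith
  calc Real.log ((4 * primorial y : ℕ) : ℝ) ≤ Real.log (4 ^ (y + 1)) := Real.log_le_log h2 h1
    _ = (y + 1) * Real.log 4 := by
        rw [Real.log_pow]
        push_cast
        ring
    _ ≤ 2 * (y + 1) := by nlinarith [Nat.cast_nonneg (α := ℝ) y]

end ASM

open ASM in
/-- LGP_ASM: choice of parameters -/
theorem ASM_thm (h1 : S_EXI) (h2 : S_TOW) (h3 : S_IMI) (h4 : S_MSQ) (h5 : S_LEV) : S_ASM := by
  obtain ⟨C₁, hC₁, hE⟩ := h1
  obtain ⟨A₀, hA₀, hT⟩ := h2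
  obtain ⟨C₄, hC₄, hQ⟩ := h4
  intro B N
  obtain ⟨A, hA⟩ : ∃ A : ℝ, A = max (max A₀ C₁) 256 := ⟨_, rfl⟩
  have hAA : A₀ ≤ A := by rw [hA]; exact (le_max_left _ _).trans (le_max_left _ _)
  have hAC : C₁ ≤ A := by rw [hA]; exact (le_max_right _ _).trans (le_max_left _ _)
  have hA2 : 256 ≤ A := by rw [hA]; exact le_max_right _ _
  obtain ⟨B', hB'⟩ : ∃ B' : ℝ, B' = max B 1 := ⟨_, rfl⟩
  have hBB : B ≤ B' := by rw [hB']; exact le_max_left _ _
  have hB1 : 1 ≤ B' := by rw [hB']; exact le_max_right _ _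
  obtain ⟨K₀, hK₀⟩ := pow_unbounded_of_one_lt
    ((20 * B') ^ 7 * (9 * C₁ * A ^ 2) * (500 * C₄ / 3) ^ 2)
    (show (1 : ℝ) < 2187 / (125 / 3) ^ 2 by norm_num)
  obtain ⟨j₀, hj₀⟩ := pow_unbounded_of_one_lt
    (max (10 + N : ℝ) (4 * C₄ * (125 / 3) ^ K₀)) (show (1 : ℝ) < 2 by norm_num)
  obtain ⟨j, hj, N', hN', r, hNr, hr, hbad⟩ := hT A hAA (j₀ + 1)
  obtain ⟨y, hy⟩ : ∃ y : ℕ, y = 2 ^ j := ⟨_, rfl⟩
  rw [← hy] at hNr hr hbad
  have hyj : max (10 + N : ℝ) (4 * C₄ * (125 / 3) ^ K₀) < y := by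
    refine hj₀.trans_le ?_
    rw [hy]
    push_cast
    exact pow_le_pow_right₀ (by norm_num) (by omega)
  have hy1 : (10 + N : ℝ) < y := (le_max_left _ _).trans_lt hyj
  have hy2 : 4 * C₄ * (125 / 3) ^ K₀ < (y : ℝ) := (le_max_right _ _).trans_lt hyj
  have hy10 : 10 + N < y := by exact_mod_cast hy1
  have hy10' : 10 ≤ y := by omega
  have hyR : (10 : ℝ) ≤ y := by exact_mod_cast hy10'
  -- the number `Q = 4 * primorial y`
  obtain ⟨Q, hQd⟩ : ∃ Q : ℕ, Q = 4 * primorial y := ⟨_, rfl⟩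
  have hQ0 : 0 < Q := by
    rw [hQd]
    have := primorial_pos y
    omega
  have hyQ : y ≤ Q := by
    rw [hQd, hy]
    exact two_pow_le j (by omega)
  have hQR : (0 : ℝ) < Q := by exact_mod_cast hQ0
  have hlogy : 0 < Real.log y := Real.log_pos (by linarith)
  have hlogyQ : Real.log y ≤ Real.log Q :=
    Real.log_le_log (by linarith) (by exact_mod_cast hyQ)
  have hlogQ : Real.log Q ≤ 2 * (y + 1) := by
    rw [hQd]
    exact log_le y
  obtain ⟨T, hTd⟩ : ∃ T : ℝ, T = A * (1 + Real.log Q) := ⟨_, rfl⟩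
  have hbad' : ∀ χ : DirichletCharacter ℂ N', χ ^ 2 = 1 → χ ≠ 1 → ¬ Bad T χ := by
    intro χ hχ hχ1
    rw [hTd, hQd]
    exact hbad χ hχ hχ1
  have hr0 : r ≠ 0 := by
    rintro rfl
    rw [mul_zero] at hNr
    omega
  have hN'Q : N' ≤ Q := by
    rw [hQd, ← hNr]
    exact Nat.le_mul_of_pos_right _ (Nat.pos_of_ne_zero hr0)
  have hN'0 : (0 : ℝ) < N' := by exact_mod_cast Nat.pos_of_ne_zero hN'.out
  have hCT : C₁ * (1 + Real.log N') ≤ T := by
    rw [hTd]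
    have h6 : Real.log N' ≤ Real.log Q := Real.log_le_log hN'0 (by exact_mod_cast hN'Q)
    have h7 : 0 ≤ Real.log N' := Real.log_natCast_nonneg N'
    nlinarith
  obtain ⟨b, hb, himi⟩ := h3 y N' r hy10' hNr (hr.imp id fun h => h)
  obtain ⟨p, hp, hpχ, hpT, hpC⟩ := hE N' T hCT hbad' b hb
  have hpF : Fact p.Prime := ⟨hp⟩
  have hp0 : (0 : ℝ) < p := by exact_mod_cast hp.pos
  -- `y ^ 4 ≤ p`
  have hyp : y ^ 4 ≤ p := by
    have h6 : 4 * Real.log y ≤ Real.log p := by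
      refine le_trans ?_ hpT
      rw [hTd]
      nlinarith
    have h7 : Real.log ((y : ℝ) ^ 4) ≤ Real.log p := by
      rw [Real.log_pow]
      push_cast
      exact h6
    have h8 := (Real.log_le_log_iff (by positivity) hp0).1 h7
    exact_mod_cast h8
  have hyp1 : y < p := by
    refine lt_of_lt_of_le ?_ hyp
    calc y = y ^ 1 := (pow_one y).symm
      _ < y ^ 4 := pow_lt_pow_right₀ (by omega) (by norm_num)
  have hz := himi p hyp1 hpχ
  have hr' : r = 1 ∨ y < 2 * r := hr.imp id fun h => h.2.1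
  have hμ := hQ p y r hy10' hyp hr' hz
  -- the level
  have hC4 : (0 : ℝ) < 4 * C₄ := by linarith
  obtain ⟨K, hK1, hK2⟩ := exists_nat_pow_near
    (show (1 : ℝ) ≤ y / (4 * C₄) by
      rw [le_div_iff₀ hC4, one_mul]
      have h6 : (1 : ℝ) ≤ (125 / 3) ^ K₀ := one_le_pow₀ (by norm_num)
      nlinarith)
    (show (1 : ℝ) < 125 / 3 by norm_num)
  rw [le_div_iff₀ hC4] at hK1
  rw [div_lt_iff₀ hC4] at hK2
  have hKK : K₀ ≤ K := by
    have h6 : (125 / 3 : ℝ) ^ K₀ < (125 / 3) ^ (K + 1) := by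
      have h7 : 4 * C₄ * (125 / 3) ^ K₀ < 4 * C₄ * (125 / 3) ^ (K + 1) := by linarith
      exact lt_of_mul_lt_mul_left h7 hC4.le
    have h8 := (pow_lt_pow_iff_right₀ (show (1 : ℝ) < 125 / 3 by norm_num)).1 h6
    omega
  have hL := h5 C₄ p y K hC₄ hy10' hyp (by linarith) hμ
  -- the bound for `log p`
  have hlogp0 : 0 ≤ Real.log p := Real.log_natCast_nonneg p
  have hT3 : T ≤ 3 * A * y := by
    rw [hTd]
    nlinarith
  have hT0 : 0 ≤ T := by
    rw [hTd]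
    have : 0 ≤ Real.log Q := by linarith
    positivity
  have hlogp : Real.log p ≤ 9 * C₁ * A ^ 2 * y ^ 2 := by
    refine hpC.trans ?_
    have h6 : T ^ 2 ≤ (3 * A * y) ^ 2 := pow_le_pow_left₀ hT0 hT3 2
    nlinarith
  -- comparison
  have h3K : (20 * B') ^ 7 * (9 * C₁ * A ^ 2 * y ^ 2) < ((3 : ℝ) ^ K) ^ 7 := by
    have e1 : ((3 : ℝ) ^ K) ^ 7 = (2187 / (125 / 3) ^ 2) ^ K * ((125 / 3) ^ K) ^ 2 := by
      rw [← pow_mul, mul_comm K 7, pow_mul, ← pow_mul (125 / 3 : ℝ) K 2, mul_comm K 2, pow_mul,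
        ← mul_pow]
      norm_num
    rw [e1]
    have e2 : (2187 / (125 / 3 : ℝ) ^ 2) ^ K₀ ≤ (2187 / (125 / 3) ^ 2) ^ K :=
      pow_le_pow_right₀ (by norm_num) hKK
    have e3 : (20 * B') ^ 7 * (9 * C₁ * A ^ 2) * (500 * C₄ / 3) ^ 2 <
        (2187 / (125 / 3 : ℝ) ^ 2) ^ K := hK₀.trans_le e2
    have e4 : (y : ℝ) < 500 * C₄ / 3 * (125 / 3) ^ K := by
      rw [pow_succ] at hK2
      linarith
    have e5 : (y : ℝ) ^ 2 ≤ (500 * C₄ / 3 * (125 / 3) ^ K) ^ 2 :=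
      pow_le_pow_left₀ (by positivity) e4.le 2
    have e6 : 0 < (((125 : ℝ) / 3) ^ K) ^ 2 := by positivity
    have e7 : 0 ≤ (20 * B') ^ 7 * (9 * C₁ * A ^ 2) := by positivity
    calc (20 * B') ^ 7 * (9 * C₁ * A ^ 2 * y ^ 2)
        = (20 * B') ^ 7 * (9 * C₁ * A ^ 2) * y ^ 2 := by ring
      _ ≤ (20 * B') ^ 7 * (9 * C₁ * A ^ 2) * (500 * C₄ / 3 * (125 / 3) ^ K) ^ 2 :=
          mul_le_mul_of_nonneg_left e5 e7
      _ = ((20 * B') ^ 7 * (9 * C₁ * A ^ 2) * (500 * C₄ / 3) ^ 2) * ((125 / 3) ^ K) ^ 2 := by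
          ring
      _ < (2187 / (125 / 3 : ℝ) ^ 2) ^ K * ((125 / 3) ^ K) ^ 2 :=
          mul_lt_mul_of_pos_right e3 e6
  have hB20 : (0 : ℝ) < 20 * B' := by linarith
  have hroot : Real.log p ^ (1 / 7 : ℝ) < 3 ^ K / (20 * B') := by
    have f1 : Real.log p < (3 ^ K / (20 * B')) ^ 7 := by
      rw [div_pow, lt_div_iff₀ (by positivity), mul_comm]
      exact (mul_le_mul_of_nonneg_left hlogp (by positivity)).trans_lt h3K
    have f2 := Real.rpow_lt_rpow hlogp0 f1 (show (0 : ℝ) < 1 / 7 by norm_num)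
    have f3 : (((3 : ℝ) ^ K / (20 * B')) ^ 7) ^ (1 / 7 : ℝ) = 3 ^ K / (20 * B') := by
      have := Real.pow_rpow_inv_natCast (show (0 : ℝ) ≤ 3 ^ K / (20 * B') by positivity)
        (show (7 : ℕ) ≠ 0 by norm_num)
      rw [show (1 / 7 : ℝ) = ((7 : ℕ) : ℝ)⁻¹ by norm_num]
      exact this
    rw [f3] at f2
    exact f2
  have hfin : B * (Real.sqrt p * Real.log p ^ (1 / 7 : ℝ)) < M p := by
    refine lt_of_lt_of_le ?_ hL
    have g0 : 0 ≤ Real.log p ^ (1 / 7 : ℝ) := Real.rpow_nonneg hlogp0 _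
    have g1 : 0 < Real.sqrt p := Real.sqrt_pos.2 hp0
    rw [lt_div_iff₀ hB20] at hroot
    have g2 : B * (Real.sqrt p * Real.log p ^ (1 / 7 : ℝ)) ≤
        B' * (Real.sqrt p * Real.log p ^ (1 / 7 : ℝ)) :=
      mul_le_mul_of_nonneg_right hBB (by positivity)
    have g3 : Real.sqrt p * (Real.log p ^ (1 / 7 : ℝ) * (20 * B')) < Real.sqrt p * 3 ^ K :=
      mul_lt_mul_of_pos_left hroot g1
    linarith
  have hp2 : p ≠ 2 := by omega
  obtain ⟨a, ha⟩ := exists_Z p hp2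
  have hNp : N < p := by omega
  exact ⟨p, hpF, hNp, hp2, hfin, a, by rw [ha]; exact hfin⟩

end

end Pool.Agent.LGP
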