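import Mathlib
import Pool.Agent.LGP.Stmts

set_option autoImplicit false

/-!
# LGP_CUT: a large weighted sum comes from a prime of moderate size
-/

namespace Pool.Agent.LGP

open Finset

namespace CUT

open ArithmeticFunction Nat.Primes

/-- the weights of the proper prime powers -/
noncomputable def F0 (n : ℕ) : ℝ :=
  (if n.Prime then 0 else vonMangoldt n) * (n : ℝ) ^ (-(3 / 4) : ℝ)

theorem F0_nonneg (n : ℕ) : 0 ≤ F0 n := by
  unfold F0
  split_ifs
  · simp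
  · exact mul_nonneg vonMangoldt_nonneg (by positivity)

noncomputable def F1 (pk : Nat.Primes × ℕ) : ℝ := F0 ((pk.1 : ℕ) ^ (pk.2 + 1))

noncomputable def F2 (pk : Nat.Primes × ℕ) : ℝ := F0 ((pk.1 : ℕ) ^ (pk.2 + 2))

theorem F2_le (pk : Nat.Primes × ℕ) :
    F2 pk ≤ 8 * (((pk.1 : ℕ) : ℝ) ^ (-(11 / 8) : ℝ) * ((2 : ℝ) ^ (-(3 / 4) : ℝ)) ^ pk.2) := by
  obtain ⟨p, k⟩ := pk
  have hp2 : (2 : ℝ) ≤ ((p : ℕ) : ℝ) := by exact_mod_cast p.prop.two_le
  have hp0 : (0 : ℝ) < ((p : ℕ) : ℝ) := by linarith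
  have h1 : F2 (p, k) = Real.log (p : ℕ) * (((p : ℕ) : ℝ) ^ (k + 2)) ^ (-(3 / 4) : ℝ) := by
    unfold F2 F0
    have hnp : ¬ ((p : ℕ) ^ (k + 2)).Prime := Nat.Prime.not_prime_pow (by omega)
    rw [if_neg hnp, vonMangoldt_apply_pow (by omega), vonMangoldt_apply_prime p.prop]
    push_cast
    rfl
  have h2 : Real.log (p : ℕ) ≤ 8 * ((p : ℕ) : ℝ) ^ ((1 / 8 : ℝ)) := by
    have h := Real.log_le_rpow_div hp0.le (by norm_num : (0 : ℝ) < 1 / 8)
    linarith
  have h3 : (((p : ℕ) : ℝ) ^ (k + 2)) ^ (-(3 / 4) : ℝ) =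
      (((p : ℕ) : ℝ) ^ (-(3 / 4) : ℝ)) ^ k * ((p : ℕ) : ℝ) ^ (-(3 / 2) : ℝ) := by
    rw [← Real.rpow_natCast, ← Real.rpow_mul hp0.le, ← Real.rpow_natCast (_ ^ _) k,
      ← Real.rpow_mul hp0.le, ← Real.rpow_add hp0]
    congr 1
    push_cast
    ring
  have h4 : ((p : ℕ) : ℝ) ^ (-(3 / 4) : ℝ) ≤ (2 : ℝ) ^ (-(3 / 4) : ℝ) :=
    Real.rpow_le_rpow_of_nonpos (by norm_num) hp2 (by norm_num)
  have h5 : (0 : ℝ) ≤ ((p : ℕ) : ℝ) ^ (-(3 / 4) : ℝ) := by positivity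
  rw [h1, h3]
  calc Real.log (p : ℕ) * ((((p : ℕ) : ℝ) ^ (-(3 / 4) : ℝ)) ^ k *
        ((p : ℕ) : ℝ) ^ (-(3 / 2) : ℝ))
      ≤ (8 * ((p : ℕ) : ℝ) ^ ((1 / 8 : ℝ))) * (((2 : ℝ) ^ (-(3 / 4) : ℝ)) ^ k *
        ((p : ℕ) : ℝ) ^ (-(3 / 2) : ℝ)) := by
        gcongr
    _ = 8 * ((((p : ℕ) : ℝ) ^ ((1 / 8 : ℝ)) * ((p : ℕ) : ℝ) ^ (-(3 / 2) : ℝ)) *
        ((2 : ℝ) ^ (-(3 / 4) : ℝ)) ^ k) := by ring
    _ = _ := by
        rw [← Real.rpow_add hp0]
        norm_num

theorem summable_F2 : Summable F2 := by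
  have h1 : Summable fun p : Nat.Primes => ((p : ℕ) : ℝ) ^ (-(11 / 8) : ℝ) :=
    Nat.Primes.summable_rpow.mpr (by norm_num)
  have hr0 : (0 : ℝ) ≤ (2 : ℝ) ^ (-(3 / 4) : ℝ) := by positivity
  have hr1 : (2 : ℝ) ^ (-(3 / 4) : ℝ) < 1 :=
    Real.rpow_lt_one_of_one_lt_of_neg (by norm_num) (by norm_num)
  have h2 : Summable fun k : ℕ => ((2 : ℝ) ^ (-(3 / 4) : ℝ)) ^ k :=
    summable_geometric_of_lt_one hr0 hr1
  have h3 := (h1.mul_of_nonneg h2 (fun p => by positivity) (fun k => by positivity)).mul_left 8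
  exact h3.of_nonneg_of_le (fun pk => F0_nonneg _) F2_le

theorem summable_F1 : Summable F1 := by
  have hF'₀ (p : Nat.Primes) : F1 (p, 0) = 0 := by
    unfold F1 F0
    simp [p.prop]
  have hF : F2 = F1 ∘ (Prod.map _root_.id (· + 1)) := by
    ext1 pk
    simp only [Function.comp_apply, Prod.map_fst, id_eq, Prod.map_snd, F2, F1]
  refine (Function.Injective.summable_iff ?_ fun u hu ↦ ?_).mp <| hF ▸ summable_F2
  · exact Function.Injective.prodMap (fun a₁ a₂ a ↦ a) <| add_left_injective 1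
  · simp only [Set.range_prodMap, Set.range_id, Set.mem_prod, Set.mem_univ, Set.mem_range,
      Nat.exists_add_one_eq, true_and, not_lt, nonpos_iff_eq_zero] at hu
    rw [← hF'₀ u.1, ← hu]

theorem summable_F0 : Summable F0 := by
  refine (summable_subtype_iff_indicator (s := {n | IsPrimePow n}).mp ?_).congr
      fun n ↦ Set.indicator_apply_eq_self.mpr fun (hn : ¬ IsPrimePow n) ↦ ?_
  swap
  · unfold F0
    rw [vonMangoldt_eq_zero_iff.mpr hn]
    simp
  have hFF' :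
      F0 ∘ Subtype.val (p := fun n ↦ n ∈ {n | IsPrimePow n}) = F1 ∘ ⇑prodNatEquiv.symm := by
    refine (Equiv.eq_comp_symm prodNatEquiv (F0 ∘ Subtype.val) F1).mpr ?_
    ext1 n
    simp only [Function.comp_apply, F1]
    congr
  rw [hFF']
  exact (Nat.Primes.prodNatEquiv.symm.summable_iff (f := F1)).mpr summable_F1

theorem wt_nonneg (k : ℕ) (σ : ℝ) (n : ℕ) : 0 ≤ wt k σ n := by
  unfold wt
  have h : 0 ≤ Real.log (n : ℝ) := Real.log_natCast_nonneg n
  exact mul_nonneg (mul_nonneg vonMangoldt_nonneg (pow_nonneg h k)) (by positivity)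

/-- the sum of the von Mangoldt function against `n^(-σ)` -/
theorem tsum_wt (h1 : S_ZET) (h2 : S_SER) :
    ∃ C : ℝ, 1 ≤ C ∧ ∀ σ : ℝ, 1 < σ → σ ≤ 2 → (∑' n : ℕ, wt 0 σ n) ≤ 1 / (σ - 1) + C := by
  obtain ⟨C, hC, hz⟩ := h1
  refine ⟨C, hC, fun σ hσ hσ2 => ?_⟩
  obtain ⟨-, hs⟩ := h2 1 (1 : DirichletCharacter ℂ 1) 0 σ hσ
  have e1 : ∀ n : ℕ, (1 : DirichletCharacter ℂ 1) (n : ZMod 1) * (wt 0 σ n : ℂ) =
      ((wt 0 σ n : ℝ) : ℂ) := by
    intro n
    have : (1 : DirichletCharacter ℂ 1) (n : ZMod 1) = 1 := by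
      rw [Subsingleton.elim (n : ZMod 1) 1, map_one]
    rw [this, one_mul]
  rw [tsum_congr e1, ← Complex.ofReal_tsum, Complex.norm_real, Real.norm_eq_abs,
    abs_of_nonneg (tsum_nonneg fun n => wt_nonneg 0 σ n), iteratedDeriv_zero] at hs
  rw [hs]
  have e2 : ld (1 : DirichletCharacter ℂ 1) (σ : ℂ) =
      deriv riemannZeta (σ : ℂ) / riemannZeta (σ : ℂ) := by
    unfold ld
    rw [DirichletCharacter.LFunction_modOne_eq]
  rw [e2]
  have h3 := hz σ hσ hσ2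
  have h4 : ‖(1 : ℂ) / ((σ : ℂ) - 1)‖ = 1 / (σ - 1) := by
    have : ((σ : ℂ) - 1) = ((σ - 1 : ℝ) : ℂ) := by push_cast; ring
    rw [this, norm_div, norm_one, Complex.norm_real, Real.norm_eq_abs, abs_of_pos (by linarith)]
  calc ‖deriv riemannZeta (σ : ℂ) / riemannZeta (σ : ℂ)‖
      = ‖(deriv riemannZeta (σ : ℂ) / riemannZeta (σ : ℂ) + 1 / ((σ : ℂ) - 1)) -
          1 / ((σ : ℂ) - 1)‖ := by rw [add_sub_cancel_right]
    _ ≤ ‖deriv riemannZeta (σ : ℂ) / riemannZeta (σ : ℂ) + 1 / ((σ : ℂ) - 1)‖ +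
          ‖1 / ((σ : ℂ) - 1)‖ := norm_sub_le _ _
    _ ≤ C + 1 / (σ - 1) := by rw [h4]; linarith
    _ = _ := by ring

/-- `(log n)^k ≤ k! a^k n^(1/a)` -/
theorem log_pow_le {a x : ℝ} (ha : 0 < a) (hx : 0 ≤ x) (k : ℕ) :
    x ^ k ≤ (k.factorial : ℝ) * a ^ k * Real.exp (x / a) := by
  have h := Real.pow_div_factorial_le_exp (x / a) (by positivity) k
  have hk : (0 : ℝ) < k.factorial := by exact_mod_cast k.factorial_pos
  rw [div_le_iff₀ hk, div_pow, div_le_iff₀ (by positivity)] at h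
  calc x ^ k ≤ _ := h
    _ = _ := by ring

theorem rpow_eq_exp {n : ℕ} (hn : 1 ≤ n) (s : ℝ) :
    (n : ℝ) ^ s = Real.exp (Real.log n * s) :=
  Real.rpow_def_of_pos (by exact_mod_cast hn) s

/-- proper prime powers -/
theorem bound_a {T : ℝ} (hT : 1 ≤ T) (k n : ℕ) (hn : ¬ n.Prime) :
    wt k (1 + 1 / T) n ≤ ((k.factorial : ℝ) * 4 ^ k) * F0 n := by
  unfold wt F0
  rw [if_neg hn]
  rcases Nat.eq_zero_or_pos n with rfl | h0
  · simp
  have hl : 0 ≤ Real.log (n : ℝ) := Real.log_natCast_nonneg n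
  rw [rpow_eq_exp h0, rpow_eq_exp h0]
  have h1 := log_pow_le (a := 4) (by norm_num) hl k
  have h2 : Real.exp (Real.log n / 4) * Real.exp (Real.log n * -(1 + 1 / T)) ≤
      Real.exp (Real.log n * -(3 / 4)) := by
    rw [← Real.exp_add]
    apply Real.exp_le_exp.mpr
    have : 0 ≤ Real.log n * (1 / T) := by positivity
    nlinarith
  have hv : 0 ≤ vonMangoldt n := vonMangoldt_nonneg
  calc vonMangoldt n * Real.log n ^ k * Real.exp (Real.log n * -(1 + 1 / T))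
      ≤ vonMangoldt n * ((k.factorial : ℝ) * 4 ^ k * Real.exp (Real.log n / 4)) *
          Real.exp (Real.log n * -(1 + 1 / T)) := by gcongr
    _ = ((k.factorial : ℝ) * 4 ^ k) * (vonMangoldt n * (Real.exp (Real.log n / 4) *
          Real.exp (Real.log n * -(1 + 1 / T)))) := by ring
    _ ≤ _ := by gcongr

/-- large primes -/
theorem bound_b {T C : ℝ} (hT : 1 ≤ T) (k n : ℕ) (hn : C * (k + 1) * T ≤ Real.log n) :
    wt k (1 + 1 / T) n ≤ ((k.factorial : ℝ) * (4 * T) ^ k * Real.exp (-(C * (k + 1) / 2))) *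
      wt 0 (1 + 1 / (4 * T)) n := by
  unfold wt
  rcases Nat.eq_zero_or_pos n with rfl | h0
  · simp
  have hT0 : 0 < T := by linarith
  have hl : 0 ≤ Real.log (n : ℝ) := Real.log_natCast_nonneg n
  rw [rpow_eq_exp h0, rpow_eq_exp h0]
  have h1 := log_pow_le (a := 4 * T) (by positivity) hl k
  have h2 : Real.exp (Real.log n / (4 * T)) * Real.exp (Real.log n * -(1 + 1 / T)) ≤
      Real.exp (-(C * (k + 1) / 2)) * Real.exp (Real.log n * -(1 + 1 / (4 * T))) := by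
    rw [← Real.exp_add, ← Real.exp_add]
    apply Real.exp_le_exp.mpr
    have h3 : C * (k + 1) ≤ Real.log n / T := by
      rw [le_div_iff₀ hT0]
      linarith
    have h4 : Real.log n / (4 * T) = Real.log n / T / 4 := by
      field_simp
    have h5 : Real.log n * -(1 + 1 / T) = -Real.log n - Real.log n / T := by
      field_simp
      ring
    have h6 : Real.log n * -(1 + 1 / (4 * T)) = -Real.log n - Real.log n / T / 4 := by
      field_simp
      ring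
    rw [h4, h5, h6]
    linarith
  have hv : 0 ≤ vonMangoldt n := vonMangoldt_nonneg
  calc vonMangoldt n * Real.log n ^ k * Real.exp (Real.log n * -(1 + 1 / T))
      ≤ vonMangoldt n * ((k.factorial : ℝ) * (4 * T) ^ k * Real.exp (Real.log n / (4 * T))) *
          Real.exp (Real.log n * -(1 + 1 / T)) := by gcongr
    _ = ((k.factorial : ℝ) * (4 * T) ^ k) * (vonMangoldt n *
          (Real.exp (Real.log n / (4 * T)) * Real.exp (Real.log n * -(1 + 1 / T)))) := by ring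
    _ ≤ ((k.factorial : ℝ) * (4 * T) ^ k) * (vonMangoldt n *
          (Real.exp (-(C * (k + 1) / 2)) * Real.exp (Real.log n * -(1 + 1 / (4 * T))))) := by
        gcongr
    _ = _ := by ring

/-- small primes -/
theorem bound_c {T : ℝ} (k n : ℕ) (hn : Real.log n < T / 64) :
    wt k (1 + 1 / T) n ≤ (T / 64) ^ k * wt 0 (1 + 1 / T) n := by
  unfold wt
  have hl : 0 ≤ Real.log (n : ℝ) := Real.log_natCast_nonneg n
  have hv : 0 ≤ vonMangoldt n := vonMangoldt_nonneg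
  have h1 : Real.log (n : ℝ) ^ k ≤ (T / 64) ^ k := pow_le_pow_left₀ hl hn.le k
  have h2 : (0 : ℝ) ≤ (n : ℝ) ^ (-(1 + 1 / T)) := by positivity
  calc vonMangoldt n * Real.log n ^ k * (n : ℝ) ^ (-(1 + 1 / T))
      ≤ vonMangoldt n * (T / 64) ^ k * (n : ℝ) ^ (-(1 + 1 / T)) := by gcongr
    _ = _ := by ring

theorem exp_bound (k : ℕ) :
    8 * 4 ^ k * 8 ^ (k + 1) * Real.exp (-(12 * ((k : ℝ) + 1) / 2)) ≤ 1 := by
  have h1 : Real.exp (-(12 * ((k : ℝ) + 1) / 2)) = (Real.exp (-6)) ^ (k + 1) := by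
    rw [← Real.exp_nat_mul]
    congr 1
    push_cast
    ring
  have h2 : Real.exp (-6) ≤ 1 / 256 := by
    have h3 : (2.7 : ℝ) ≤ Real.exp 1 := by
      have := Real.exp_one_gt_d9
      linarith
    have h4 : Real.exp 6 = Real.exp 1 ^ 6 := by
      rw [← Real.exp_nat_mul]
      norm_num
    have h5 : (256 : ℝ) ≤ Real.exp 6 := by
      rw [h4]
      calc (256 : ℝ) ≤ 2.7 ^ 6 := by norm_num
        _ ≤ _ := by gcongr
    rw [Real.exp_neg, ← one_div]
    exact one_div_le_one_div_of_le (by norm_num) h5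
  rw [h1]
  have h6 : (8 : ℝ) * 4 ^ k * 8 ^ (k + 1) ≤ 256 ^ (k + 1) := by
    calc (8 : ℝ) * 4 ^ k * 8 ^ (k + 1) = 2 * (4 ^ (k + 1) * 8 ^ (k + 1)) := by ring
      _ = 2 * 32 ^ (k + 1) := by rw [← mul_pow]; norm_num
      _ ≤ 8 ^ (k + 1) * 32 ^ (k + 1) := by
          have : (2 : ℝ) ≤ 8 ^ (k + 1) := by
            calc (2 : ℝ) ≤ 8 ^ 1 := by norm_num
              _ ≤ 8 ^ (k + 1) := pow_le_pow_right₀ (by norm_num) (by omega)
          gcongr
      _ = 256 ^ (k + 1) := by rw [← mul_pow]; norm_num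
  calc (8 : ℝ) * 4 ^ k * 8 ^ (k + 1) * Real.exp (-6) ^ (k + 1)
      ≤ 256 ^ (k + 1) * (1 / 256) ^ (k + 1) := by
        gcongr
    _ = 1 := by rw [← mul_pow]; norm_num

end CUT

open CUT in
theorem CUT_thm (h1 : S_ZET) (h2 : S_SER) : S_CUT := by
  obtain ⟨C0, hC0, hs⟩ := tsum_wt h1 h2
  refine ⟨C0 + 32 + 8 * (∑' n : ℕ, F0 n), ?_, ?_⟩
  · have : 0 ≤ ∑' n : ℕ, F0 n := tsum_nonneg F0_nonneg
    linarith
  intro T hT k hk P hP
  set C1 := ∑' n : ℕ, F0 n with hC1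
  have hC1p : 0 ≤ C1 := tsum_nonneg F0_nonneg
  set C := C0 + 32 + 8 * C1 with hC
  have hT1 : 1 ≤ T := by linarith
  have hT0 : 0 < T := by linarith
  have hT32 : 32 ≤ T := by linarith
  have hTC0 : C0 ≤ T := by linarith
  have hC12 : 12 ≤ C := by linarith
  by_contra hne
  push Not at hne
  have hsum0 : ∀ (k : ℕ) (σ : ℝ), 1 < σ → Summable (wt k σ) := fun k σ hσ =>
    (h2 1 1 k σ hσ).1
  have hσ1 : 1 < 1 + 1 / T := by
    have : 0 < 1 / T := by positivity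
    linarith
  have hσ1' : 1 + 1 / T ≤ 2 := by
    have : 1 / T ≤ 1 := by
      rw [div_le_one hT0]
      exact hT1
    linarith
  have hσ2 : 1 < 1 + 1 / (4 * T) := by
    have : 0 < 1 / (4 * T) := by positivity
    linarith
  have hσ2' : 1 + 1 / (4 * T) ≤ 2 := by
    have : 1 / (4 * T) ≤ 1 := by
      rw [div_le_one (by positivity)]
      linarith
    linarith
  set cA : ℝ := (k.factorial : ℝ) * 4 ^ k with hcA
  set cB : ℝ := (k.factorial : ℝ) * (4 * T) ^ k * Real.exp (-(12 * (k + 1) / 2)) with hcB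
  set cC : ℝ := (T / 64) ^ k with hcC
  have hcA0 : 0 ≤ cA := by positivity
  have hcB0 : 0 ≤ cB := by positivity
  have hcC0 : 0 ≤ cC := by positivity
  have hle : ∀ n : ℕ, Set.indicator P (wt k (1 + 1 / T)) n ≤
      cA * F0 n + cB * wt 0 (1 + 1 / (4 * T)) n + cC * wt 0 (1 + 1 / T) n := by
    intro n
    have hA := mul_nonneg hcA0 (F0_nonneg n)
    have hB := mul_nonneg hcB0 (wt_nonneg 0 (1 + 1 / (4 * T)) n)
    have hCC := mul_nonneg hcC0 (wt_nonneg 0 (1 + 1 / T) n)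
    by_cases hnP : n ∈ P
    · rw [Set.indicator_of_mem hnP]
      by_cases hp : n.Prime
      · by_cases hlo : T / 64 ≤ Real.log n
        · have hhi := hne n hp hnP hlo
          have : 12 * ((k : ℝ) + 1) * T ≤ Real.log n := by
            have : 12 * ((k : ℝ) + 1) * T ≤ C * ((k : ℝ) + 1) * T := by gcongr
            linarith
          have := bound_b (C := 12) hT1 k n this
          linarith
        · have := bound_c k n (not_le.mp hlo)
          linarith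
      · have := bound_a hT1 k n hp
        linarith
    · rw [Set.indicator_of_notMem hnP]
      linarith
  have hsA : Summable fun n => cA * F0 n := summable_F0.mul_left _
  have hsB : Summable fun n => cB * wt 0 (1 + 1 / (4 * T)) n := (hsum0 0 _ hσ2).mul_left _
  have hsC : Summable fun n => cC * wt 0 (1 + 1 / T) n := (hsum0 0 _ hσ1).mul_left _
  have hsP : Summable (Set.indicator P (wt k (1 + 1 / T))) := (hsum0 k _ hσ1).indicator P
  have htot := hsP.tsum_le_tsum hle ((hsA.add hsB).add hsC)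
  rw [(hsA.add hsB).tsum_add hsC, hsA.tsum_add hsB, tsum_mul_left, tsum_mul_left,
    tsum_mul_left] at htot
  have hSB := hs _ hσ2 hσ2'
  have hSC := hs _ hσ1 hσ1'
  have e1 : 1 / (1 + 1 / (4 * T) - 1) = 4 * T := by
    rw [add_sub_cancel_left, one_div_one_div]
  have e2 : 1 / (1 + 1 / T - 1) = T := by
    rw [add_sub_cancel_left, one_div_one_div]
  rw [e1] at hSB
  rw [e2] at hSC
  have hk0 : (0 : ℝ) < k.factorial := by exact_mod_cast k.factorial_pos
  have hk1 : (1 : ℝ) ≤ k.factorial := by exact_mod_cast k.factorial_pos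
  have hTT : 0 < (T / 8) ^ (k + 1) := by positivity
  have hPA : cA * C1 ≤ (k.factorial : ℝ) * (T / 8) ^ (k + 1) := by
    have h3 : (4 : ℝ) ^ k ≤ (T / 8) ^ k := pow_le_pow_left₀ (by norm_num) (by linarith) k
    have h4 : C1 ≤ T / 8 := by linarith
    calc cA * C1 = (k.factorial : ℝ) * (4 ^ k * C1) := by rw [hcA]; ring
      _ ≤ (k.factorial : ℝ) * ((T / 8) ^ k * (T / 8)) := by gcongr
      _ = _ := by ring
  have hPB : cB * (∑' n : ℕ, wt 0 (1 + 1 / (4 * T)) n) ≤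
      (k.factorial : ℝ) * (T / 8) ^ (k + 1) := by
    have h3 : (∑' n : ℕ, wt 0 (1 + 1 / (4 * T)) n) ≤ 8 * T := by linarith
    have h4 := exp_bound k
    calc cB * (∑' n : ℕ, wt 0 (1 + 1 / (4 * T)) n) ≤ cB * (8 * T) := by gcongr
      _ = ((k.factorial : ℝ) * (T / 8) ^ (k + 1)) *
          (8 * 4 ^ k * 8 ^ (k + 1) * Real.exp (-(12 * ((k : ℝ) + 1) / 2))) := by
          rw [hcB, div_pow, mul_pow]
          field_simp
          ring
      _ ≤ ((k.factorial : ℝ) * (T / 8) ^ (k + 1)) * 1 := by gcongr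
      _ = _ := by ring
  have hPC : cC * (∑' n : ℕ, wt 0 (1 + 1 / T) n) ≤
      (k.factorial : ℝ) * (T / 8) ^ (k + 1) := by
    have h3 : (∑' n : ℕ, wt 0 (1 + 1 / T) n) ≤ 2 * T := by linarith
    have h4 : (16 : ℝ) ≤ 8 ^ k := by
      calc (16 : ℝ) ≤ 8 ^ 2 := by norm_num
        _ ≤ 8 ^ k := pow_le_pow_right₀ (by norm_num) hk
    have h5 : (T / 8) ^ (k + 1) = (T / 64) ^ k * (8 ^ k * T / 8) := by
      rw [pow_succ, div_pow, div_pow]
      have : (64 : ℝ) ^ k = 8 ^ k * 8 ^ k := by rw [← mul_pow]; norm_num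
      rw [this]
      field_simp
    calc cC * (∑' n : ℕ, wt 0 (1 + 1 / T) n) ≤ cC * (2 * T) := by gcongr
      _ ≤ cC * (8 ^ k * T / 8) := by
          apply mul_le_mul_of_nonneg_left _ hcC0
          nlinarith
      _ = (T / 8) ^ (k + 1) := by rw [h5]
      _ ≤ (k.factorial : ℝ) * (T / 8) ^ (k + 1) := by nlinarith
  linarith

end Pool.Agent.LGP
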