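import Pool.Agent.LGP.Stmts
import Pool.Agent.Mld.Lbd

set_option autoImplicit false

/-!
# LGP_DER: derivatives of the logarithmic derivative without a zero nearby (helper12)
-/

namespace Pool.Agent.LGP

open Finset Filter Topology

namespace DER

/-- the derivatives of the logarithmic derivative of a function without zeros in a disc -/
theorem gen {f : ℂ → ℂ} {c : ℂ} {R r M : ℝ} (hr : 0 < r) (hrR : r < R) (hM : 0 < M)
    (hf : DifferentiableOn ℂ f (Metric.ball c R)) (h0 : ∀ z ∈ Metric.ball c R, f z ≠ 0)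
    (hb : ∀ z ∈ Metric.ball c R, ‖f z‖ ≤ Real.exp M * ‖f c‖) (k : ℕ) :
    ‖iteratedDeriv k (fun s => deriv f s / f s) c‖ ≤
      ((k + 1).factorial : ℝ) * (2 * M * r / (R - r)) / r ^ (k + 1) := by
  have hR : 0 < R := hr.trans hrR
  have hc : c ∈ Metric.ball c R := Metric.mem_ball_self hR
  have hg : DifferentiableOn ℂ (fun s => deriv f s / f s) (Metric.ball c R) :=
    (hf.deriv Metric.isOpen_ball).div hf h0
  obtain ⟨F, hF⟩ := hg.isExactOn_ball
  have hfd : ∀ z ∈ Metric.ball c R, HasDerivAt f (deriv f z) z := fun z hz =>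
    (hf.differentiableAt (Metric.isOpen_ball.mem_nhds hz)).hasDerivAt
  -- the exponential formula
  have hE : ∀ z ∈ Metric.ball c R, HasDerivAt (fun s => f s * Complex.exp (-(F s - F c))) 0 z := by
    intro z hz
    have h1 : HasDerivAt (fun s => f s * Complex.exp (-(F s - F c)))
        (deriv f z * Complex.exp (-(F z - F c)) +
        f z * (Complex.exp (-(F z - F c)) * -(deriv f z / f z))) z :=
      (hfd z hz).mul (((hF z hz).sub_const (F c)).neg.cexp)
    have h2 : deriv f z * Complex.exp (-(F z - F c)) +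
        f z * (Complex.exp (-(F z - F c)) * -(deriv f z / f z)) = 0 := by
      have := h0 z hz
      field_simp
      ring
    rw [h2] at h1
    exact h1
  have hconst : ∀ z ∈ Metric.ball c R, f z * Complex.exp (-(F z - F c)) = f c := by
    intro z hz
    have h1 := Metric.isOpen_ball.is_const_of_deriv_eq_zero
      (convex_ball c R).isPreconnected
      (fun w hw => (hE w hw).differentiableAt.differentiableWithinAt)
      (fun w hw => (hE w hw).deriv) hz hc
    simpa using h1
  have hexp : ∀ z ∈ Metric.ball c R, f z = f c * Complex.exp (F z - F c) := by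
    intro z hz
    rw [← hconst z hz, mul_assoc, ← Complex.exp_add]
    simp
  have hre : ∀ z ∈ Metric.ball c R, (F z - F c).re ≤ M := by
    intro z hz
    have h1 := hb z hz
    rw [hexp z hz, norm_mul, Complex.norm_exp, mul_comm] at h1
    have h2 : 0 < ‖f c‖ := norm_pos_iff.2 (h0 c hc)
    exact Real.exp_le_exp.1 (le_of_mul_le_mul_right h1 h2)
  -- the theorem of Borel and Caratheodory
  have hbc : ∀ z ∈ Metric.sphere c r, ‖F z - F c‖ ≤ 2 * M * r / (R - r) := by
    intro z hz
    have hz' : ‖z - c‖ = r := mem_sphere_iff_norm.1 hz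
    have hm : ∀ w ∈ Metric.ball (0 : ℂ) R, c + w ∈ Metric.ball c R := by
      intro w hw
      rw [mem_ball_iff_norm, add_sub_cancel_left]
      exact mem_ball_zero_iff.1 hw
    have h1 := Complex.borelCaratheodory_zero (f := fun w => F (c + w) - F c) (R := R) (M := M)
      (z := z - c) hM ?_ ?_ hR ?_ ?_
    · rw [hz'] at h1
      simpa using h1
    · intro w hw
      have h2 := (hF (c + w) (hm w hw)).differentiableAt
      have h3 : DifferentiableAt ℂ (fun w : ℂ => c + w) w := by fun_prop
      exact ((h2.comp w h3).sub_const (F c)).differentiableWithinAt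
    · intro w hw
      exact hre (c + w) (hm w hw)
    · rw [mem_ball_zero_iff, hz']
      exact hrR
    · simp
  -- Cauchy
  have hsub : Metric.closedBall c r ⊆ Metric.ball c R := Metric.closedBall_subset_ball hrR
  have hd : DiffContOnCl ℂ (fun s => F s - F c) (Metric.ball c r) := by
    apply DifferentiableOn.diffContOnCl
    rw [closure_ball c hr.ne']
    intro w hw
    exact ((hF w (hsub hw)).differentiableAt.sub_const (F c)).differentiableWithinAt
  have h5 := Complex.norm_iteratedDeriv_le_of_forall_mem_sphere_norm_le (k + 1) hr hd hbc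
  rw [iteratedDeriv_succ'] at h5
  have h6 : deriv (fun s => F s - F c) =ᶠ[𝓝 c] fun s => deriv f s / f s := by
    filter_upwards [Metric.isOpen_ball.mem_nhds hc] with w hw
    exact ((hF w hw).sub_const (F c)).deriv
  rw [h6.iteratedDeriv_eq] at h5
  exact h5

theorem log_le_half {T : ℝ} (hT : 0 < T) : Real.log T ≤ T / 2 := by
  have h1 := Real.log_le_sub_one_of_pos (show 0 < T / 2 by positivity)
  rw [Real.log_div hT.ne' (by norm_num)] at h1
  have h2 := Real.log_two_lt_d9
  linarith

end DER

open DER in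
theorem DER_thm (h : S_LOW) : S_DER := by
  obtain ⟨C0, hC0, hL⟩ := Pool.Agent.Mld.lbd
  obtain ⟨C, hC1, hCC⟩ : ∃ C : ℝ, 1 ≤ C ∧ C0 ≤ C := ⟨max 1 C0, le_max_left _ _, le_max_right _ _⟩
  have hlC : 0 ≤ Real.log (2 * C) := Real.log_nonneg (by linarith)
  refine ⟨4 * (1 + Real.log (2 * C)), by linarith, ?_⟩
  intro N _ T hT χ hχ hbad k
  have hN1 : (1 : ℝ) ≤ N := by exact_mod_cast NeZero.one_le
  have hlN : 0 ≤ Real.log N := Real.log_nonneg hN1
  have hT4 : 4 * (1 + Real.log (2 * C)) ≤ T := by
    refine le_trans ?_ hT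
    exact le_mul_of_one_le_right (by linarith) (by linarith)
  have hT5 : 4 * (1 + Real.log N) ≤ T := by
    refine le_trans ?_ hT
    exact mul_le_mul_of_nonneg_right (by linarith) (by linarith)
  have hT0 : 4 ≤ T := by linarith
  have hTp : 0 < T := by linarith
  have hnz : ∀ w : ℂ, ‖w - ((1 + 1 / T : ℝ) : ℂ)‖ ≤ 6 / 5 / T → χ.LFunction w ≠ 0 := by
    intro w hw h0
    exact hbad ⟨w, hw, h0⟩
  set c : ℂ := ((1 + 1 / T : ℝ) : ℂ) with hc
  have hT1 : 1 / T ≤ 1 := by
    rw [div_le_one hTp]
    linarith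
  have hTi : 0 < 1 / T := by positivity
  have hc2 : ‖c - 2‖ = 1 - 1 / T := by
    rw [hc, show (((1 + 1 / T : ℝ) : ℂ) - 2) = ((1 / T - 1 : ℝ) : ℂ) by push_cast; ring,
      Complex.norm_real, Real.norm_eq_abs, abs_of_nonpos (by linarith)]
    ring
  have hlow : 1 / T / 2 ≤ ‖χ.LFunction c‖ := by
    have := h N χ (1 + 1 / T) (by linarith) (by linarith)
    rwa [add_sub_cancel_left] at this
  have hub : ∀ z ∈ Metric.ball c (6 / 5 / T), ‖χ.LFunction z‖ ≤ C * N := by
    intro z hz
    have h1 : ‖z - c‖ < 6 / 5 / T := mem_ball_iff_norm.1 hz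
    refine (hL N χ hχ z ?_).trans (mul_le_mul_of_nonneg_right hCC (by linarith))
    have h2 : ‖z - 2‖ ≤ ‖z - c‖ + ‖c - 2‖ := by
      rw [show z - 2 = (z - c) + (c - 2) by ring]
      exact norm_add_le _ _
    have h3 : 6 / 5 / T = 6 / 5 * (1 / T) := by ring
    rw [h3] at h1
    have h4 : 1 / T ≤ 1 / 4 := one_div_le_one_div_of_le (by norm_num) hT0
    linarith
  have hpos : (1 : ℝ) < 2 * C * N * T := by
    have h1 : (1 : ℝ) ≤ C * N := one_le_mul_of_one_le_of_one_le hC1 hN1
    nlinarith
  have hMp : 0 < Real.log (2 * C * N * T) := Real.log_pos hpos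
  have hgen := gen (f := χ.LFunction) (c := c) (R := 6 / 5 / T) (r := 11 / 10 / T)
    (M := Real.log (2 * C * N * T)) (by positivity)
    (div_lt_div_of_pos_right (by norm_num) hTp) hMp
    ((DirichletCharacter.differentiable_LFunction hχ).differentiableOn)
    (fun z hz => hnz z (mem_ball_iff_norm.1 hz).le) ?_ k
  · have h1 : 2 * Real.log (2 * C * N * T) * (11 / 10 / T) / (6 / 5 / T - 11 / 10 / T) =
        22 * Real.log (2 * C * N * T) := by
      field_simp
      ring
    rw [h1] at hgen
    have h2 : (11 / 10 / T) ^ (k + 1) = ((T / (11 / 10)) ^ (k + 1))⁻¹ := by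
      rw [← inv_pow]
      congr 1
      field_simp
    rw [h2, div_inv_eq_mul] at hgen
    have h3 : Real.log (2 * C * N * T) = Real.log (2 * C) + Real.log N + Real.log T := by
      rw [Real.log_mul (by positivity) hTp.ne', Real.log_mul (by positivity) (by positivity)]
    have h4 := log_le_half hTp
    have h5 : 22 * Real.log (2 * C * N * T) ≤ 25 * T := by
      rw [h3]
      linarith
    refine hgen.trans ?_
    have h6 : 0 ≤ ((k + 1).factorial : ℝ) := by positivity
    have h7 : 0 ≤ (T / (11 / 10)) ^ (k + 1) := by positivity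
    calc ((k + 1).factorial : ℝ) * (22 * Real.log (2 * C * N * T)) * (T / (11 / 10)) ^ (k + 1)
        ≤ ((k + 1).factorial : ℝ) * (25 * T) * (T / (11 / 10)) ^ (k + 1) :=
          mul_le_mul_of_nonneg_right (mul_le_mul_of_nonneg_left h5 h6) h7
      _ = 25 * ((k + 1).factorial : ℝ) * T * (T / (11 / 10)) ^ (k + 1) := by ring
  · intro z hz
    rw [Real.exp_log (by linarith)]
    refine (hub z hz).trans ?_
    have h1 : C * N = 2 * C * N * T * (1 / T / 2) := by
      field_simp
    rw [h1]
    exact mul_le_mul_of_nonneg_left hlow (by linarith)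

end Pool.Agent.LGP
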