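import Pool.Agent.LGP.Stmts

set_option autoImplicit false

/-!
# LGP_EXI: primes with prescribed values of all real characters
-/

namespace Pool.Agent.LGP

open Finset

namespace EXI

variable {N : ℕ}

theorem sq_one {χ : DirichletCharacter ℂ N} (h : χ ^ 2 = 1) {a : ZMod N} (ha : IsUnit a) :
    χ a * χ a = 1 := by
  have h1 : (χ ^ 2) a = χ a ^ 2 := MulChar.pow_apply' χ (by norm_num) a
  rw [h, MulChar.one_apply ha] at h1
  rw [← sq]; exact h1.symm

theorem pm_one {χ : DirichletCharacter ℂ N} (h : χ ^ 2 = 1) {a : ZMod N} (ha : IsUnit a) :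
    χ a = 1 ∨ χ a = -1 := mul_self_eq_one_iff.1 (sq_one h ha)

theorem orth (X : Finset (DirichletCharacter ℂ N)) (hX : ∀ χ, χ ∈ X ↔ χ ^ 2 = 1) (b n : ℕ)
    (hb : b.Coprime N) [Decidable (∀ χ ∈ X, χ (n : ZMod N) = χ (b : ZMod N))] :
    ∑ χ ∈ X, χ (b : ZMod N) * χ (n : ZMod N) =
      if (∀ χ ∈ X, χ (n : ZMod N) = χ (b : ZMod N)) then (X.card : ℂ) else 0 := by
  have ub : IsUnit (b : ZMod N) := (ZMod.isUnit_iff_coprime b N).2 hb
  split_ifs with h
  · rw [Finset.sum_congr rfl (g := fun _ => (1 : ℂ))]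
    · simp
    · intro χ hχ
      rw [h χ hχ]
      exact sq_one ((hX χ).1 hχ) ub
  · by_cases un : IsUnit (n : ZMod N)
    · push Not at h
      obtain ⟨ψ, hψ, hne⟩ := h
      have hψ2 := (hX ψ).1 hψ
      have hm : ψ (b : ZMod N) * ψ (n : ZMod N) = -1 := by
        rcases pm_one hψ2 ub with h1 | h1 <;> rcases pm_one hψ2 un with h2 | h2
        · exact absurd (h2.trans h1.symm) hne
        · rw [h1, h2]; norm_num
        · rw [h1, h2]; norm_num
        · exact absurd (h2.trans h1.symm) hne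
      have hS : ∑ χ ∈ X, χ (b : ZMod N) * χ (n : ZMod N) =
          ∑ χ ∈ X, (ψ * χ) (b : ZMod N) * (ψ * χ) (n : ZMod N) := by
        refine Finset.sum_bij (fun χ _ => ψ * χ) ?_ ?_ ?_ ?_
        · intro χ hχ
          rw [hX, mul_pow, hψ2, (hX χ).1 hχ, one_mul]
        · intro χ₁ _ χ₂ _ he
          exact mul_left_cancel he
        · intro χ hχ
          refine ⟨ψ * χ, ?_, ?_⟩
          · rw [hX, mul_pow, hψ2, (hX χ).1 hχ, one_mul]
          · rw [← mul_assoc, ← sq, hψ2, one_mul]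
        · intro χ hχ
          have e : ψ * (ψ * χ) = χ := by rw [← mul_assoc, ← sq, hψ2, one_mul]
          rw [e]
      have hS2 : ∑ χ ∈ X, (ψ * χ) (b : ZMod N) * (ψ * χ) (n : ZMod N) =
          -∑ χ ∈ X, χ (b : ZMod N) * χ (n : ZMod N) := by
        rw [← Finset.sum_neg_distrib]
        refine Finset.sum_congr rfl fun χ _ => ?_
        rw [MulChar.mul_apply, MulChar.mul_apply]
        calc ψ (b : ZMod N) * χ (b : ZMod N) * (ψ (n : ZMod N) * χ (n : ZMod N))
            = (ψ (b : ZMod N) * ψ (n : ZMod N)) * (χ (b : ZMod N) * χ (n : ZMod N)) := by ring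
          _ = _ := by rw [hm]; ring
      have h3 := hS.trans hS2
      have h4 : (2 : ℂ) * ∑ χ ∈ X, χ (b : ZMod N) * χ (n : ZMod N) = 0 := by
        rw [two_mul]; nth_rewrite 1 [h3]; exact neg_add_cancel _
      exact (mul_eq_zero.1 h4).resolve_left two_ne_zero
    · refine Finset.sum_eq_zero fun χ _ => ?_
      rw [MulChar.map_nonunit χ un, mul_zero]

/-- numerical inequality -/
theorem num1 (m N T C : ℝ) (hC : 2000000 ≤ C) (hm : C ≤ m) (hT : T ≤ m) (_hT0 : 0 ≤ T) (hN0 : 0 ≤ N)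
    (hN : N ≤ Real.exp (m / C)) (k : ℕ) (hk : m = (k : ℝ) + 1) :
    100 * m * T * N ≤ (11 / 10 : ℝ) ^ (k + 1) := by
  have hm0 : 0 < m := by linarith
  have h1 : Real.exp (m / C) ≤ Real.exp (m / 100) := by
    apply Real.exp_le_exp.2
    exact div_le_div_of_nonneg_left hm0.le (by norm_num) (by linarith)
  have h2 : (1 : ℝ) - (11 / 10)⁻¹ ≤ Real.log (11 / 10) :=
    Real.one_sub_inv_le_log_of_pos (by norm_num)
  have h3 : Real.exp (m * (9 / 100)) ≤ (11 / 10 : ℝ) ^ (k + 1) := by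
    have : (11 / 10 : ℝ) ^ (k + 1) = Real.exp (m * Real.log (11 / 10)) := by
      rw [hk, mul_comm, Real.exp_mul, Real.exp_log (by norm_num)]
      rw [← Nat.cast_succ, Real.rpow_natCast]
    rw [this]
    apply Real.exp_le_exp.2
    apply mul_le_mul_of_nonneg_left _ hm0.le
    norm_num at h2 ⊢
    linarith
  have h4 : (m * (8 / 100)) ^ 3 / 6 ≤ Real.exp (m * (8 / 100)) := by
    have := Real.pow_div_factorial_le_exp (m * (8 / 100)) (by positivity) 3
    have e : ((Nat.factorial 3 : ℕ) : ℝ) = 6 := by norm_num [Nat.factorial]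
    rwa [e] at this
  have h5 : 100 * m * m ≤ (m * (8 / 100)) ^ 3 / 6 := by
    have : (m * (8 / 100)) ^ 3 / 6 = m * m * (m * ((8 / 100) ^ 3 / 6)) := by ring
    rw [this]
    have h6 : (100 : ℝ) ≤ m * ((8 / 100) ^ 3 / 6) := by
      norm_num
      linarith
    nlinarith [mul_pos hm0 hm0]
  calc 100 * m * T * N ≤ 100 * m * m * Real.exp (m / 100) := by
        apply mul_le_mul _ (hN.trans h1) hN0 (by positivity)
        exact mul_le_mul_of_nonneg_left hT (by positivity)
    _ ≤ Real.exp (m * (8 / 100)) * Real.exp (m / 100) :=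
        mul_le_mul_of_nonneg_right (h5.trans h4) (Real.exp_pos _).le
    _ = Real.exp (m * (9 / 100)) := by rw [← Real.exp_add]; congr 1; ring
    _ ≤ _ := h3

theorem num2 (m N C : ℝ) (hC : 2000000 ≤ C) (hm : C ≤ m)
    (hN : N ≤ Real.exp (m / C)) (k : ℕ) (hk : m = (k : ℝ) + 1) :
    12 * N < (8 : ℝ) ^ (k + 1) := by
  have hm0 : 0 < m := by linarith
  have h1 : Real.exp (m / C) ≤ Real.exp (m / 2) := by
    apply Real.exp_le_exp.2
    exact div_le_div_of_nonneg_left hm0.le (by norm_num) (by linarith)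
  have h3 : Real.exp m ≤ (8 : ℝ) ^ (k + 1) := by
    have : Real.exp m = Real.exp 1 ^ (k + 1) := by
      rw [← Real.exp_nat_mul, hk]; push_cast; ring_nf
    rw [this]
    exact pow_le_pow_left₀ (Real.exp_pos _).le (by linarith [Real.exp_one_lt_d9]) _
  have h4 : (12 : ℝ) < Real.exp (m / 2) := by
    have := Real.add_one_le_exp (m / 2)
    linarith
  calc 12 * N ≤ 12 * Real.exp (m / 2) := by linarith [hN.trans h1]
    _ < Real.exp (m / 2) * Real.exp (m / 2) := mul_lt_mul_of_pos_right h4 (Real.exp_pos _)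
    _ = Real.exp m := by rw [← Real.exp_add]; congr 1; ring
    _ ≤ _ := h3

end EXI

theorem EXI_thm (h1 : S_SER) (h2 : S_MAIN) (h3 : S_DER) (h4 : S_CUT) : S_EXI := by
  classical
  obtain ⟨C1, hC1, H2⟩ := h2
  obtain ⟨A, hA, H3⟩ := h3
  obtain ⟨C2, hC2, H4⟩ := h4
  refine ⟨2000000 + C1 + A + 4 * C2, by linarith, ?_⟩
  intro N _ T hT hbad b hb
  set C : ℝ := 2000000 + C1 + A + 4 * C2 with hCdef
  have hN1 : 1 ≤ N := Nat.one_le_iff_ne_zero.2 (NeZero.ne N)
  have hNR : (1 : ℝ) ≤ (N : ℝ) := by exact_mod_cast hN1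
  have hlog : 0 ≤ Real.log N := Real.log_nonneg hNR
  have hC0 : 2000000 ≤ C := by rw [hCdef]; linarith
  have hCT : C ≤ T := le_trans (by nlinarith) hT
  have hT0 : 0 < T := by linarith
  -- the order of the derivative
  obtain ⟨k, hkT, hkT'⟩ : ∃ k : ℕ, T ≤ (k : ℝ) ∧ (k : ℝ) < T + 1 :=
    ⟨⌈T⌉₊, Nat.le_ceil T, Nat.ceil_lt_add_one hT0.le⟩
  have hk2 : 2 ≤ k := by
    have : (2 : ℝ) ≤ (k : ℝ) := by linarith
    exact_mod_cast this
  set σ : ℝ := 1 + 1 / T with hσ
  have hσ1 : 1 < σ := by rw [hσ]; linarith [one_div_pos.2 hT0]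
  -- the real characters
  have hfin : Finite (DirichletCharacter ℂ N) := inferInstance
  have hft : Fintype (DirichletCharacter ℂ N) := Fintype.ofFinite _
  set X : Finset (DirichletCharacter ℂ N) := Finset.univ.filter fun χ => χ ^ 2 = 1 with hXdef
  have hX : ∀ χ, χ ∈ X ↔ χ ^ 2 = 1 := fun χ => by simp [hXdef]
  have hX1 : (1 : DirichletCharacter ℂ N) ∈ X := (hX 1).2 (one_pow 2)
  have hXc : (X.card : ℝ) ≤ N := by
    have e1 : X.card ≤ Fintype.card (DirichletCharacter ℂ N) := Finset.card_le_univ X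
    have e2 : Nat.card (DirichletCharacter ℂ N) = N.totient :=
      DirichletCharacter.card_eq_totient_of_hasEnoughRootsOfUnity ℂ N
    rw [← Nat.card_eq_fintype_card, e2] at e1
    exact_mod_cast e1.trans (Nat.totient_le N)
  have hXpos : (0 : ℝ) < X.card := by
    exact_mod_cast Finset.card_pos.2 ⟨1, hX1⟩
  set P : Set ℕ := {n : ℕ | ∀ χ ∈ X, χ (n : ZMod N) = χ (b : ZMod N)} with hP
  set S : DirichletCharacter ℂ N → ℂ := fun χ => ∑' n : ℕ, χ (n : ZMod N) * (wt k σ n : ℂ) with hS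
  set SP : ℝ := ∑' n : ℕ, Set.indicator P (wt k σ) n with hSP
  have hsum : Summable (wt k σ) := (h1 N 1 k σ hσ1).1
  have hsumχ : ∀ χ : DirichletCharacter ℂ N,
      Summable fun n : ℕ => χ (n : ZMod N) * (wt k σ n : ℂ) := by
    intro χ
    refine Summable.of_norm_bounded (g := fun n => ‖wt k σ n‖) hsum.norm fun n => ?_
    rw [norm_mul, Complex.norm_real]
    exact mul_le_of_le_one_left (norm_nonneg _) (χ.norm_le_one _)
  -- orthogonality
  have horth : ((X.card : ℝ) : ℂ) * (SP : ℂ) = ∑ χ ∈ X, χ (b : ZMod N) * S χ := by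
    have e1 : ∑ χ ∈ X, χ (b : ZMod N) * S χ =
        ∑' n : ℕ, ∑ χ ∈ X, χ (b : ZMod N) * (χ (n : ZMod N) * (wt k σ n : ℂ)) := by
      rw [Summable.tsum_finsetSum fun χ _ => (hsumχ χ).mul_left _]
      refine Finset.sum_congr rfl fun χ _ => ?_
      rw [tsum_mul_left]
    rw [e1]
    have e2 : ∀ n : ℕ, ∑ χ ∈ X, χ (b : ZMod N) * (χ (n : ZMod N) * (wt k σ n : ℂ)) =
        ((X.card : ℝ) : ℂ) * ((Set.indicator P (wt k σ) n : ℝ) : ℂ) := by
      intro n
      have e3 : ∑ χ ∈ X, χ (b : ZMod N) * (χ (n : ZMod N) * (wt k σ n : ℂ)) =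
          (∑ χ ∈ X, χ (b : ZMod N) * χ (n : ZMod N)) * (wt k σ n : ℂ) := by
        rw [Finset.sum_mul]
        exact Finset.sum_congr rfl fun χ _ => by ring
      rw [e3, EXI.orth X hX b n hb]
      by_cases hn : ∀ χ ∈ X, χ (n : ZMod N) = χ (b : ZMod N)
      · have : n ∈ P := hn
        rw [if_pos hn, Set.indicator_of_mem this]
        push_cast
        rfl
      · have : n ∉ P := hn
        rw [if_neg hn, Set.indicator_of_notMem this]
        simp
    rw [tsum_congr e2, tsum_mul_left, hSP, Complex.ofReal_tsum]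
  -- the main term
  set M : ℝ := ∑' n : ℕ, Set.indicator {n : ℕ | n.Coprime N} (wt k σ) n with hM
  have hM1 : S 1 = (M : ℂ) := by
    rw [hM, Complex.ofReal_tsum]
    refine tsum_congr fun n => ?_
    by_cases hn : n.Coprime N
    · rw [Set.indicator_of_mem (show n ∈ {n : ℕ | n.Coprime N} from hn),
        MulChar.one_apply ((ZMod.isUnit_iff_coprime n N).2 hn), one_mul]
    · rw [Set.indicator_of_notMem (show n ∉ {n : ℕ | n.Coprime N} from hn),
        MulChar.map_nonunit _ (fun h => hn ((ZMod.isUnit_iff_coprime n N).1 h))]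
      simp
  have hMge : (k.factorial : ℝ) * T ^ (k + 1) / 2 ≤ M :=
    H2 N hN1 T (le_trans (mul_le_mul_of_nonneg_right (by linarith) (by linarith)) hT) k
  -- the other characters
  set B : ℝ := 25 * ((k + 1).factorial : ℝ) * T * (T / (11 / 10)) ^ (k + 1) with hB
  have hB0 : 0 ≤ B := by rw [hB]; positivity
  have hSχ : ∀ χ ∈ X.erase 1, ‖χ (b : ZMod N) * S χ‖ ≤ B := by
    intro χ hχ
    rw [Finset.mem_erase] at hχ
    rw [norm_mul]
    have e1 : ‖S χ‖ ≤ B := by
      rw [hS]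
      rw [(h1 N χ k σ hσ1).2]
      exact H3 N T (le_trans (mul_le_mul_of_nonneg_right (by linarith) (by linarith)) hT) χ hχ.1
        (hbad χ ((hX χ).1 hχ.2) hχ.1) k
    calc ‖χ (b : ZMod N)‖ * ‖S χ‖ ≤ 1 * ‖S χ‖ :=
          mul_le_mul_of_nonneg_right (χ.norm_le_one _) (norm_nonneg _)
      _ ≤ B := by rw [one_mul]; exact e1
  have hlow : M - N * B ≤ X.card * SP := by
    have e1 : ∑ χ ∈ X, χ (b : ZMod N) * S χ =
        (M : ℂ) + ∑ χ ∈ X.erase 1, χ (b : ZMod N) * S χ := by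
      rw [← Finset.add_sum_erase X (fun χ => χ (b : ZMod N) * S χ) hX1, hM1,
        MulChar.one_apply ((ZMod.isUnit_iff_coprime b N).2 hb), one_mul]
    have e2 : ‖∑ χ ∈ X.erase 1, χ (b : ZMod N) * S χ‖ ≤ N * B := by
      refine (norm_sum_le_of_le _ hSχ).trans ?_
      rw [Finset.sum_const, nsmul_eq_mul]
      refine mul_le_mul_of_nonneg_right ?_ hB0
      refine le_trans ?_ hXc
      exact_mod_cast Finset.card_le_card (Finset.erase_subset _ _)
    have e3 : (((X.card : ℝ) * SP - M : ℝ) : ℂ) = ∑ χ ∈ X.erase 1, χ (b : ZMod N) * S χ := by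
      rw [e1] at horth
      push_cast at horth ⊢
      rw [horth]; ring
    have e4 : |(X.card : ℝ) * SP - M| ≤ N * B := by
      rw [← e3, Complex.norm_real] at e2
      exact e2
    linarith [(abs_le.1 e4).1]
  -- numerics
  have hNexp : (N : ℝ) ≤ Real.exp (((k : ℝ) + 1) / C) := by
    have e1 : Real.log N ≤ ((k : ℝ) + 1) / C := by
      rw [le_div_iff₀ (by linarith)]
      nlinarith
    calc (N : ℝ) = Real.exp (Real.log N) := (Real.exp_log (by linarith)).symm
      _ ≤ _ := Real.exp_le_exp.2 e1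
  have n1 := EXI.num1 ((k : ℝ) + 1) N T C hC0 (by linarith) (by linarith) hT0.le (by linarith)
    hNexp k rfl
  have n2 := EXI.num2 ((k : ℝ) + 1) N C hC0 (by linarith) hNexp k rfl
  have hfac : (0 : ℝ) < (k.factorial : ℝ) := by exact_mod_cast Nat.factorial_pos k
  set F : ℝ := (k.factorial : ℝ) * T ^ (k + 1) with hF
  have hF0 : 0 < F := by rw [hF]; positivity
  have hNB : N * B ≤ F / 4 := by
    have e1 : (N : ℝ) * B = F * (25 * ((k : ℝ) + 1) * T * N) / (11 / 10) ^ (k + 1) := by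
      rw [hB, hF, Nat.factorial_succ, div_pow]
      push_cast
      field_simp
    rw [e1, div_le_iff₀ (by positivity)]
    calc F * (25 * ((k : ℝ) + 1) * T * N) = F / 4 * (100 * ((k : ℝ) + 1) * T * N) := by ring
      _ ≤ F / 4 * (11 / 10) ^ (k + 1) := mul_le_mul_of_nonneg_left n1 (by positivity)
  have hSPge : F / 4 ≤ X.card * SP := by
    have : F / 2 ≤ M := by rw [hF]; linarith
    linarith
  have hSPpos : 0 < SP := by
    by_contra hneg
    push Not at hneg
    have := mul_nonpos_of_nonneg_of_nonpos hXpos.le hneg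
    linarith
  have hfinal : 3 * (k.factorial : ℝ) * (T / 8) ^ (k + 1) < SP := by
    have e1 : F / 4 ≤ N * SP := hSPge.trans (mul_le_mul_of_nonneg_right hXc hSPpos.le)
    have e2 : 3 * (k.factorial : ℝ) * (T / 8) ^ (k + 1) = 3 * F / 8 ^ (k + 1) := by
      rw [hF, div_pow]; ring
    rw [e2, div_lt_iff₀ (by positivity)]
    have e3 : 12 * (N : ℝ) * SP < 8 ^ (k + 1) * SP := mul_lt_mul_of_pos_right n2 hSPpos
    nlinarith
  obtain ⟨p, hp, hpP, hp1, hp2⟩ := H4 T (by linarith) k hk2 P hfinal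
  refine ⟨p, hp, fun χ hχ => hpP χ ((hX χ).2 hχ), hp1, hp2.trans ?_⟩
  have e5 : ((k : ℝ) + 1) ≤ 2 * T := by linarith
  calc C2 * ((k : ℝ) + 1) * T ≤ C2 * (2 * T) * T := by
        apply mul_le_mul_of_nonneg_right _ hT0.le
        exact mul_le_mul_of_nonneg_left e5 (by linarith)
    _ = (2 * C2) * T ^ 2 := by ring
    _ ≤ C * T ^ 2 := by
        apply mul_le_mul_of_nonneg_right _ (by positivity)
        rw [hCdef]; linarith

end Pool.Agent.LGP
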