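import Mathlib
import Pool.Agent.LGP.Stmts

set_option autoImplicit false

/-!
# LGP_IMI: the residue class which makes `χ_p` imitate `f5` (MP_de1e57_nt)
-/

namespace Pool.Agent.LGP

open Finset

namespace IMI

/-- a real character modulo a divisor takes the same value at `p` and `b` -/
lemma real_eq {N d : ℕ} [NeZero N] [NeZero d] (hd : d ∣ N) (χ : MulChar (ZMod d) ℤ)
    (hχ : χ.IsQuadratic) {p b : ℕ} (hp : p.Coprime N) (hb : b.Coprime N)
    (h : ∀ χ : DirichletCharacter ℂ N, χ ^ 2 = 1 → χ (p : ZMod N) = χ (b : ZMod N)) :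
    χ (p : ZMod d) = χ (b : ZMod d) := by
  set ψ : DirichletCharacter ℂ d := χ.ringHomComp (Int.castRingHom ℂ) with hψ
  have hψ2 : ψ ^ 2 = 1 := (hχ.comp _).sq_eq_one
  have h2 : (DirichletCharacter.changeLevel hd ψ) ^ 2 = 1 := by
    rw [← map_pow, hψ2, map_one]
  have h3 := h _ h2
  have hpc : IsCoprime (p : ℤ) (N : ℤ) := Nat.isCoprime_iff_coprime.mpr hp
  have hbc : IsCoprime (b : ℤ) (N : ℤ) := Nat.isCoprime_iff_coprime.mpr hb
  have e1 := DirichletCharacter.changeLevel_eq_cast_of_dvd' (χ := ψ) hd hpc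
  have e2 := DirichletCharacter.changeLevel_eq_cast_of_dvd' (χ := ψ) hd hbc
  simp only [Int.cast_natCast] at e1 e2
  rw [e1, e2, hψ, MulChar.ringHomComp_apply, MulChar.ringHomComp_apply] at h3
  simpa using h3

lemma f5_ne {z : ℤ} (hz : ¬ (5 : ℤ) ∣ z) : f5 z = quadraticChar (ZMod 5) (z : ZMod 5) := by
  unfold f5
  rw [padicValInt.eq_zero_of_not_dvd hz, pow_zero, Int.ediv_one]

lemma f5_five : f5 5 = 1 := by
  unfold f5
  have : padicValInt 5 5 = 1 := by
    have := @padicValInt.self 5 (by norm_num)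
    exact_mod_cast this
  rw [this]
  norm_num

lemma f5_mul {z w : ℤ} (hz : z ≠ 0) (hw : w ≠ 0) : f5 (z * w) = f5 z * f5 w := by
  unfold f5
  rw [padicValInt.mul hz hw, pow_add]
  have h1 : (5 : ℤ) ^ padicValInt 5 z ∣ z := by
    have := @padicValInt_dvd 5 z
    exact_mod_cast this
  have h2 : (5 : ℤ) ^ padicValInt 5 w ∣ w := by
    have := @padicValInt_dvd 5 w
    exact_mod_cast this
  obtain ⟨a, ha⟩ := h1
  obtain ⟨c, hc⟩ := h2
  have hA : (5 : ℤ) ^ padicValInt 5 z ≠ 0 := by positivity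
  have hB : (5 : ℤ) ^ padicValInt 5 w ≠ 0 := by positivity
  have e1 : z / 5 ^ padicValInt 5 z = a := Int.ediv_eq_of_eq_mul_right hA ha
  have e2 : w / 5 ^ padicValInt 5 w = c := Int.ediv_eq_of_eq_mul_right hB hc
  have e3 : z * w / (5 ^ padicValInt 5 z * 5 ^ padicValInt 5 w) = a * c := by
    refine Int.ediv_eq_of_eq_mul_right (mul_ne_zero hA hB) ?_
    calc z * w = (5 ^ padicValInt 5 z * a) * (5 ^ padicValInt 5 w * c) := by
          rw [← ha, ← hc]
      _ = _ := by ring
  rw [e1, e2, e3, Int.cast_mul, map_mul]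

lemma f5_one : f5 1 = 1 := by
  rw [f5_ne (by norm_num)]
  simp

lemma f5_neg_one : f5 (-1) = 1 := by
  rw [f5_ne (by norm_num)]
  decide

lemma f5_two : f5 2 = -1 := by
  rw [f5_ne (by norm_num)]
  decide

/-- multiplicative comparison -/
lemma mul_cmp (p : ℕ) [Fact p.Prime] (n : ℕ) (hn : n ≠ 0)
    (h : ∀ q : ℕ, q.Prime → q ∣ n → quadraticChar (ZMod p) ((q : ℤ) : ZMod p) = f5 q) :
    quadraticChar (ZMod p) ((n : ℤ) : ZMod p) = f5 n := by
  induction n using Nat.recOnMul with
  | zero => exact absurd rfl hn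
  | one => simp [f5_one]
  | prime q hq => exact h q hq dvd_rfl
  | mul a b iha ihb =>
    have ha : a ≠ 0 := fun h0 => hn (by simp [h0])
    have hb : b ≠ 0 := fun h0 => hn (by simp [h0])
    have h1 := iha ha (fun q hq hd => h q hq (hd.mul_right b))
    have h2 := ihb hb (fun q hq hd => h q hq (hd.mul_left a))
    push_cast
    rw [f5_mul (by exact_mod_cast ha) (by exact_mod_cast hb), map_mul]
    rw [← h1, ← h2]
    push_cast
    rfl

end IMI

open IMI in
theorem IMI_thm : S_IMI := by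
  intro y N r hN0 hy hNr hr
  have hNpos : 0 < N := Nat.pos_of_ne_zero (NeZero.ne N)
  -- `r` is prime to `8` and to every prime `q ≤ y`, `q ≠ r`
  have hr' : r = 1 ∨ (r.Prime ∧ 7 ≤ r) := by
    rcases hr with h | ⟨h1, h2, h3⟩
    · exact Or.inl h
    · refine Or.inr ⟨h1, ?_⟩
      by_contra hlt
      have h6 : r = 6 := by omega
      rw [h6] at h1
      norm_num at h1
  have hcop : ∀ q : ℕ, q.Prime → q ≠ r → q.Coprime r := by
    intro q hq hne
    rcases hr' with h | ⟨h1, _⟩
    · rw [h]; exact Nat.coprime_one_right q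
    · exact (Nat.coprime_primes hq h1).mpr hne
  have hprim : ∀ q : ℕ, q.Prime → q ≤ y → q ∣ primorial y := by
    intro q hq hle
    exact (hq.dvd_primorial_iff).mpr hle
  have hdvd : ∀ q : ℕ, q.Prime → q ≤ y → q ≠ r → q ∣ N := by
    intro q hq hle hne
    have h1 : q ∣ N * r := by
      rw [hNr]; exact (hprim q hq hle).mul_left 4
    exact (hcop q hq hne).dvd_of_dvd_mul_right h1
  have h8 : 8 ∣ N := by
    have h2r : (2 : ℕ).Coprime r := hcop 2 Nat.prime_two (by rcases hr' with h | ⟨_, h⟩ <;> omega)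
    have h8r : (8 : ℕ).Coprime r := by
      have := Nat.Coprime.pow_left 3 h2r
      simpa using this
    have h1 : 8 ∣ N * r := by
      rw [hNr]
      have := Nat.mul_dvd_mul (dvd_refl 4) (hprim 2 Nat.prime_two (by omega))
      simpa using this
    exact h8r.dvd_of_dvd_mul_right h1
  have h5 : 5 ∣ N := hdvd 5 (by norm_num) (by omega) (by rcases hr' with h | ⟨_, h⟩ <;> omega)
  have h25 : ¬ 5 * 5 ∣ N := by
    intro h
    have h1 : 5 * 5 ∣ 4 * primorial y := by rw [← hNr]; exact h.mul_right r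
    have h2 : 5 * 5 ∣ primorial y := by
      have : Nat.Coprime (5 * 5) 4 := by norm_num
      exact this.dvd_of_dvd_mul_left h1
    have h3 : Squarefree (primorial y) := squarefree_primorial y
    have := h3 5 h2
    rw [Nat.isUnit_iff] at this
    omega
  obtain ⟨N5, hN5⟩ := h5
  have hco : N5.Coprime 5 := by
    rw [Nat.coprime_comm]
    rw [(by norm_num : Nat.Prime 5).coprime_iff_not_dvd]
    rintro ⟨k, hk⟩
    exact h25 ⟨k, by rw [hN5, hk]; ring⟩
  obtain ⟨b, hb1, hb2⟩ := Nat.chineseRemainder hco 5 1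
  have hbN : b.Coprime N := by
    rw [hN5]
    refine Nat.Coprime.mul_right ?_ ?_
    · have : Nat.gcd b 5 = Nat.gcd 1 5 := Nat.ModEq.gcd_eq hb2
      rw [Nat.coprime_iff_gcd_eq_one, this]
      norm_num
    · have : Nat.gcd b N5 = Nat.gcd 5 N5 := Nat.ModEq.gcd_eq hb1
      rw [Nat.coprime_iff_gcd_eq_one, this]
      exact hco.symm
  refine ⟨b, hbN, ?_⟩
  intro p hp hyp hχ z hz0 hzy hzr
  have hpp : p.Prime := hp.out
  have hpN : p.Coprime N := by
    rw [hpp.coprime_iff_not_dvd]
    intro hd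
    have h1 : p ∣ 4 * primorial y := by rw [← hNr]; exact hd.mul_right r
    rcases (hpp.dvd_mul).mp h1 with h2 | h2
    · have := Nat.le_of_dvd (by norm_num) h2
      omega
    · have := (hpp.dvd_primorial_iff).mp h2
      omega
  have key : ∀ (d : ℕ) [NeZero d], d ∣ N → ∀ χ : MulChar (ZMod d) ℤ, χ.IsQuadratic →
      χ (p : ZMod d) = χ (b : ZMod d) := fun d _ hd χ hq => real_eq hd χ hq hpN hbN hχ
  -- divisors of `N5`
  have hN5d : ∀ d : ℕ, d ∣ N → d.Coprime 5 → (b : ZMod d) = 5 := by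
    intro d hd hd5
    have h1 : d ∣ N5 := by
      rw [hN5] at hd
      exact hd5.dvd_of_dvd_mul_left hd
    have h2 : b ≡ 5 [MOD d] := hb1.of_dvd h1
    have h3 := (ZMod.natCast_eq_natCast_iff b 5 d).mpr h2
    simpa using h3
  have hb5 : (b : ZMod 5) = 1 := by
    have h3 := (ZMod.natCast_eq_natCast_iff b 1 5).mpr hb2
    simpa using h3
  have h4 : 4 ∣ N := dvd_trans (by norm_num) h8
  have hp2 : p ≠ 2 := by omega
  have hchi4 : ZMod.χ₄ (p : ZMod 4) = 1 := by
    rw [key 4 h4 ZMod.χ₄ ZMod.isQuadratic_χ₄, hN5d 4 h4 (by norm_num)]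
    decide
  have hchi8 : ZMod.χ₈ (p : ZMod 8) = -1 := by
    rw [key 8 h8 ZMod.χ₈ ZMod.isQuadratic_χ₈, hN5d 8 h8 (by norm_num)]
    decide
  have hodd : p % 2 = 1 := by
    rcases hpp.eq_two_or_odd with h | h
    · exact absurd h hp2
    · exact h
  have hp4 : p % 4 = 1 := by
    rcases (by omega : p % 4 = 1 ∨ p % 4 = 3) with h | h
    · exact h
    · rw [ZMod.χ₄_nat_three_mod_four h] at hchi4
      norm_num at hchi4
  have h5N : 5 ∣ N := ⟨N5, hN5⟩
  -- the values at primes
  have hprimes : ∀ q : ℕ, q.Prime → q ≤ y → q ≠ r →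
      quadraticChar (ZMod p) ((q : ℤ) : ZMod p) = f5 q := by
    intro q hq hle hne
    have : Fact q.Prime := ⟨hq⟩
    change legendreSym p (q : ℤ) = f5 q
    by_cases hq2 : q = 2
    · subst hq2
      have := legendreSym.at_two (p := p) hp2
      have e : ((2 : ℕ) : ℤ) = 2 := rfl
      rw [e, this, hchi8, f5_two]
    by_cases hq5 : q = 5
    · subst hq5
      have e : ((5 : ℕ) : ℤ) = 5 := rfl
      have h1 := legendreSym.quadratic_reciprocity_one_mod_four (p := p) (q := 5) hp4 (by norm_num)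
      rw [← h1]
      have h2 := key 5 h5N (quadraticChar (ZMod 5)) (quadraticChar_isQuadratic _)
      unfold legendreSym
      rw [e, f5_five]
      simp only [Int.cast_natCast]
      rw [h2, hb5]
      simp
    · have hqN := hdvd q hq hle hne
      have hqc5 : q.Coprime 5 := (Nat.coprime_primes hq (by norm_num)).mpr hq5
      have h1 := legendreSym.quadratic_reciprocity_one_mod_four (p := p) (q := q) hp4 hq2
      rw [← h1]
      have h2 := key q hqN (quadraticChar (ZMod q)) (quadraticChar_isQuadratic _)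
      have h3 := legendreSym.quadratic_reciprocity_one_mod_four (p := 5) (q := q) (by norm_num) hq2
      have h4' : ¬ (5 : ℤ) ∣ (q : ℤ) := by
        intro hd
        have : 5 ∣ q := by exact_mod_cast hd
        exact hq5 (((Nat.prime_dvd_prime_iff_eq (by norm_num) hq).mp this).symm)
      rw [f5_ne h4']
      change _ = legendreSym 5 (q : ℤ)
      rw [← h3]
      unfold legendreSym
      simp only [Int.cast_natCast]
      rw [h2, hN5d q hqN hqc5]
      simp
  have hneg : quadraticChar (ZMod p) ((-1 : ℤ) : ZMod p) = f5 (-1) := by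
    have := legendreSym.at_neg_one (p := p) hp2
    unfold legendreSym at this
    rw [this, hchi4, f5_neg_one]
  have hn : z.natAbs ≠ 0 := Int.natAbs_ne_zero.mpr hz0
  have hmain : quadraticChar (ZMod p) ((z.natAbs : ℤ) : ZMod p) = f5 (z.natAbs : ℤ) := by
    refine mul_cmp p z.natAbs hn ?_
    intro q hq hd
    refine hprimes q hq ((Nat.le_of_dvd (Nat.pos_of_ne_zero hn) hd).trans hzy) ?_
    intro hqr
    rcases hzr with h | h
    · rw [h] at hqr
      exact hq.ne_one hqr
    · apply h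
      rw [← hqr]
      exact Int.natCast_dvd.mpr hd
  rcases Int.natAbs_eq z with h | h
  · rw [← h] at hmain
    exact hmain
  · have e1 : z = -1 * (z.natAbs : ℤ) := by omega
    have h0 : ((z.natAbs : ℕ) : ℤ) ≠ 0 := by exact_mod_cast hn
    rw [e1, f5_mul (by norm_num) h0, Int.cast_mul, map_mul, hneg, hmain]

end Pool.Agent.LGP
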