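import Pool.Agent.LGP.Stmts
import Pool.Agent.LGP.Der

set_option autoImplicit false

/-!
# LGP_LAN: the lemma of Landau (helper3)
-/

namespace Pool.Agent.LGP

open Filter Topology

namespace LAN

/-- division by the factor at one point -/
theorem step {U : Set ℂ} {f : ℂ → ℂ} (hf : AnalyticOnNhd ℂ f U)
    (h0 : ∀ z ∈ U, ¬ ∀ᶠ w in 𝓝 z, f w = 0) {a : ℂ} (ha : a ∈ U) :
    ∃ (n : ℕ) (g : ℂ → ℂ), AnalyticOnNhd ℂ g U ∧ (∀ z ∈ U, ¬ ∀ᶠ w in 𝓝 z, g w = 0) ∧
      g a ≠ 0 ∧ ∀ z, f z = (z - a) ^ n * g z := by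
  classical
  obtain ⟨n, h, hh, hha, he⟩ := (hf a ha).exists_eventuallyEq_pow_smul_nonzero_iff.mpr (h0 a ha)
  let g : ℂ → ℂ := fun z => if z = a then h a else f z / (z - a) ^ n
  have hga : g a = h a := if_pos rfl
  have hgn : ∀ z, z ≠ a → g z = f z / (z - a) ^ n := fun z hz => if_neg hz
  have hfg : ∀ z, f z = (z - a) ^ n * g z := by
    intro z
    by_cases hz : z = a
    · have h1 := he.self_of_nhds
      rw [hz, hga]
      exact h1
    · rw [hgn z hz]
      have h2 : (z - a) ^ n ≠ 0 := pow_ne_zero _ (sub_ne_zero.mpr hz)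
      field_simp
  refine ⟨n, g, ?_, ?_, by rw [hga]; exact hha, hfg⟩
  · intro z hz
    by_cases hza : z = a
    · rw [hza]
      apply hh.congr
      filter_upwards [he] with w hw
      by_cases hwa : w = a
      · rw [hwa, hga]
      · rw [hgn w hwa, hw]
        have h2 : (w - a) ^ n ≠ 0 := pow_ne_zero _ (sub_ne_zero.mpr hwa)
        rw [smul_eq_mul]
        field_simp
    · have h1 : AnalyticAt ℂ (fun w => f w / (w - a) ^ n) z := by
        apply (hf z hz).div
        · fun_prop
        · exact pow_ne_zero _ (sub_ne_zero.mpr hza)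
      apply h1.congr
      filter_upwards [isOpen_ne.mem_nhds hza] with w hw
      exact (hgn w hw).symm
  · intro z hz hev
    apply h0 z hz
    filter_upwards [hev] with w hw
    rw [hfg, hw, mul_zero]

/-- division by the factors at finitely many points -/
theorem extract {U : Set ℂ} (Z : Finset ℂ) : ∀ {f : ℂ → ℂ}, AnalyticOnNhd ℂ f U →
    (∀ z ∈ U, ¬ ∀ᶠ w in 𝓝 z, f w = 0) → (∀ z ∈ Z, z ∈ U) →
    ∃ (n : ℂ → ℕ) (g : ℂ → ℂ), AnalyticOnNhd ℂ g U ∧ (∀ z ∈ Z, g z ≠ 0) ∧
      ∀ z, f z = (∏ a ∈ Z, (z - a) ^ n a) * g z := by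
  classical
  induction Z using Finset.induction_on with
  | empty =>
    intro f hf _ _
    exact ⟨fun _ => 0, f, hf, by simp, by simp⟩
  | insert a Z ha ih =>
    intro f hf h0 hZ
    obtain ⟨n, g, hg, hg0, hga, hfg⟩ := step hf h0 (hZ a (Finset.mem_insert_self _ _))
    obtain ⟨n', g', hg', hgZ', hfg'⟩ := ih hg hg0 fun z hz => hZ z (Finset.mem_insert_of_mem hz)
    refine ⟨Function.update n' a n, g', hg', ?_, ?_⟩
    · intro z hz
      rcases Finset.mem_insert.mp hz with rfl | hz
      · intro h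
        apply hga
        rw [hfg', h, mul_zero]
      · exact hgZ' z hz
    · intro z
      rw [Finset.prod_insert ha, Function.update_self, hfg z, hfg' z, mul_assoc]
      congr 2
      refine Finset.prod_congr rfl fun b hb => ?_
      have hba : b ≠ a := by
        rintro rfl
        exact ha hb
      rw [Function.update_of_ne hba]

/-- the zeros in a smaller disc are finite in number -/
theorem finite_zeros {U K : Set ℂ} {f : ℂ → ℂ} (hf : AnalyticOnNhd ℂ f U)
    (h0 : ∀ z ∈ U, ¬ ∀ᶠ w in 𝓝 z, f w = 0) (hK : IsCompact K) (hKU : K ⊆ U) :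
    {z | z ∈ K ∧ f z = 0}.Finite := by
  by_contra hinf
  obtain ⟨x, hx, hacc⟩ := Set.Infinite.exists_accPt_of_subset_isCompact hinf hK (fun z hz => hz.1)
  have h1 := accPt_iff_frequently.mp hacc
  have h2 : ∃ᶠ z in 𝓝[≠] x, f z = 0 := by
    rw [frequently_nhdsWithin_iff]
    exact h1.mono fun z hz => ⟨hz.2.2, hz.1⟩
  rcases (hf x (hKU hx)).eventually_eq_zero_or_eventually_ne_zero with h3 | h3
  · exact h0 x (hKU hx) h3
  · exact h2 h3

end LAN

open LAN in
theorem LAN_thm : S_LAN := by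
  classical
  intro f c R M hR hM hf hc hb hre
  have hcR : c ∈ Metric.closedBall c R := Metric.mem_closedBall_self hR.le
  have hcR2 : c ∈ Metric.closedBall c (R / 2) := Metric.mem_closedBall_self (by linarith)
  have hsub : Metric.closedBall c (R / 2) ⊆ Metric.closedBall c R :=
    Metric.closedBall_subset_closedBall (by linarith)
  have h0 : ∀ z ∈ Metric.closedBall c R, ¬ ∀ᶠ w in 𝓝 z, f w = 0 := by
    intro z hz hev
    exact hc (hf.eqOn_zero_of_preconnected_of_eventuallyEq_zero
      (convex_closedBall c R).isPreconnected hz hev hcR)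
  have hfin := finite_zeros hf h0 (isCompact_closedBall c (R / 2)) hsub
  set Z := hfin.toFinset with hZdef
  have hZ : ∀ z, z ∈ Z ↔ z ∈ Metric.closedBall c (R / 2) ∧ f z = 0 := by
    intro z
    rw [hZdef, Set.Finite.mem_toFinset]
    rfl
  obtain ⟨n, g, hg, hgZ, hfg⟩ := extract Z hf h0 fun z hz => hsub ((hZ z).mp hz).1
  -- `g` has no zero in the small disc
  have hg0 : ∀ z ∈ Metric.closedBall c (R / 2), g z ≠ 0 := by
    intro z hz
    by_cases h : z ∈ Z
    · exact hgZ z h
    · intro hgz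
      apply h
      rw [hZ]
      exact ⟨hz, by rw [hfg, hgz, mul_zero]⟩
  have hgc : g c ≠ 0 := hg0 c hcR2
  -- the bound for `g`
  have hcZ : ∀ a ∈ Z, ‖c - a‖ ≤ R / 2 := by
    intro a ha
    have h1 := ((hZ a).mp ha).1
    rwa [Metric.mem_closedBall, dist_comm, dist_eq_norm] at h1
  have hsph : ∀ z ∈ Metric.sphere c R, ‖g z‖ ≤ Real.exp M * ‖g c‖ := by
    intro z hz
    have hz1 : ‖z - c‖ = R := mem_sphere_iff_norm.1 hz
    have hza : ∀ a ∈ Z, R / 2 ≤ ‖z - a‖ := by
      intro a ha
      have h1 := hcZ a ha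
      have h2 : ‖z - c‖ ≤ ‖z - a‖ + ‖c - a‖ := by
        have h3 : z - c = (z - a) - (c - a) := by ring
        rw [h3]
        exact norm_sub_le _ _
      linarith
    have h1 := hb z (Metric.sphere_subset_closedBall hz)
    rw [hfg z, hfg c, norm_mul, norm_mul, norm_prod, norm_prod] at h1
    have h2 : ∏ a ∈ Z, ‖(c - a) ^ n a‖ ≤ ∏ a ∈ Z, ‖(z - a) ^ n a‖ := by
      refine Finset.prod_le_prod (fun a _ => norm_nonneg _) fun a ha => ?_
      rw [norm_pow, norm_pow]
      exact pow_le_pow_left₀ (norm_nonneg _) ((hcZ a ha).trans (hza a ha)) _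
    have h3 : 0 < ∏ a ∈ Z, ‖(z - a) ^ n a‖ := by
      refine Finset.prod_pos fun a ha => ?_
      rw [norm_pow]
      have := hza a ha
      exact pow_pos (by linarith) _
    have h4 : (∏ a ∈ Z, ‖(z - a) ^ n a‖) * ‖g z‖ ≤
        (∏ a ∈ Z, ‖(z - a) ^ n a‖) * (Real.exp M * ‖g c‖) := by
      calc (∏ a ∈ Z, ‖(z - a) ^ n a‖) * ‖g z‖ ≤
          Real.exp M * ((∏ a ∈ Z, ‖(c - a) ^ n a‖) * ‖g c‖) := h1
        _ ≤ Real.exp M * ((∏ a ∈ Z, ‖(z - a) ^ n a‖) * ‖g c‖) := by gcongr
        _ = _ := by ring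
    exact le_of_mul_le_mul_left h4 h3
  have hgb : ∀ z ∈ Metric.closedBall c R, ‖g z‖ ≤ Real.exp M * ‖g c‖ := by
    intro z hz
    refine Complex.norm_le_of_forall_mem_frontier_norm_le (U := Metric.ball c R)
      Metric.isBounded_ball ?_ ?_ ?_
    · apply DifferentiableOn.diffContOnCl
      rw [closure_ball c hR.ne']
      exact hg.differentiableOn
    · intro w hw
      rw [frontier_ball c hR.ne'] at hw
      exact hsph w hw
    · rw [closure_ball c hR.ne']
      exact hz
  -- the logarithmic derivative of `g`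
  have hgen := DER.gen (f := g) (c := c) (R := R / 2) (r := R / 4) (M := M) (by linarith)
    (by linarith) hM (hg.differentiableOn.mono (Metric.ball_subset_closedBall.trans hsub))
    (fun z hz => hg0 z (Metric.ball_subset_closedBall hz))
    (fun z hz => hgb z (hsub (Metric.ball_subset_closedBall hz))) 0
  have hgl : ‖deriv g c / g c‖ ≤ 8 * M / R := by
    have h1 : ((0 + 1).factorial : ℝ) * (2 * M * (R / 4) / (R / 2 - R / 4)) / (R / 4) ^ (0 + 1) =
        8 * M / R := by
      have hR4 : R / 2 - R / 4 = R / 4 := by ring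
      rw [hR4]
      norm_num
      field_simp
      ring
    rw [h1] at hgen
    simpa using hgen
  have hgre : -(8 * M / R) ≤ (deriv g c / g c).re := by
    have h1 := (Complex.abs_re_le_norm (deriv g c / g c)).trans hgl
    exact (abs_le.mp h1).1
  -- the logarithmic derivative of `f`
  have hca : ∀ a ∈ Z, c - a ≠ 0 := by
    intro a ha h
    have h1 := ((hZ a).mp ha).2
    rw [sub_eq_zero] at h
    rw [← h] at h1
    exact hc h1
  have hld : deriv f c / f c = (∑ a ∈ Z, (n a : ℂ) * (1 / (c - a))) + deriv g c / g c := by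
    have h1 : f = fun z => (∏ a ∈ Z, (z - a) ^ n a) * g z := funext hfg
    have h2 : logDeriv f c = logDeriv (fun z => ∏ a ∈ Z, (z - a) ^ n a) c + logDeriv g c := by
      conv_lhs => rw [h1]
      refine logDeriv_mul c ?_ hgc ?_ (hg c hcR).differentiableAt
      · exact Finset.prod_ne_zero_iff.mpr fun a ha => pow_ne_zero _ (hca a ha)
      · fun_prop
    have h3 : logDeriv (fun z => ∏ a ∈ Z, (z - a) ^ n a) c =
        ∑ a ∈ Z, (n a : ℂ) * (1 / (c - a)) := by
      rw [logDeriv_prod (f := fun a z => (z - a) ^ n a) (fun a ha => pow_ne_zero _ (hca a ha))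
        (fun a _ => by fun_prop)]
      refine Finset.sum_congr rfl fun a _ => ?_
      have h5 := logDeriv_fun_pow (f := fun z : ℂ => z - a) (x := c) (by fun_prop) (n a)
      have h4 : HasDerivAt (fun z : ℂ => z - a) 1 c := (hasDerivAt_id c).sub_const a
      rw [h5, logDeriv_apply, h4.deriv]
    rw [← logDeriv_apply, ← logDeriv_apply, h2, h3]
  have hterm : ∀ a ∈ Z, 0 ≤ (1 / (c - a)).re := by
    intro a ha
    have h1 := hre a ((hZ a).mp ha).1 ((hZ a).mp ha).2
    rw [one_div, Complex.inv_re]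
    apply div_nonneg _ (Complex.normSq_nonneg _)
    rw [Complex.sub_re]
    linarith
  have hnt : ∀ a : ℂ, ((n a : ℂ) * (1 / (c - a))).re = (n a : ℝ) * (1 / (c - a)).re := by
    intro a
    have h1 : ((n a : ℕ) : ℂ) = (((n a : ℕ) : ℝ) : ℂ) := by norm_cast
    rw [h1, Complex.re_ofReal_mul]
  rw [hld, Complex.add_re, Complex.re_sum]
  constructor
  · have h1 : 0 ≤ ∑ a ∈ Z, ((n a : ℂ) * (1 / (c - a))).re := by
      refine Finset.sum_nonneg fun a ha => ?_
      rw [hnt]
      exact mul_nonneg (Nat.cast_nonneg _) (hterm a ha)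
    linarith
  · intro w hw hfw
    have hwZ : w ∈ Z := (hZ w).mpr ⟨hw, hfw⟩
    have hnw : 1 ≤ n w := by
      by_contra hcon
      have hnw : n w = 0 := by omega
      rw [hfg w] at hfw
      rcases mul_eq_zero.mp hfw with h1 | h1
      · obtain ⟨a, ha, h2⟩ := Finset.prod_eq_zero_iff.mp h1
        by_cases hna : n a = 0
        · rw [hna, pow_zero] at h2
          exact one_ne_zero h2
        · have h4 : w - a = 0 := by
            exact pow_eq_zero_iff hna |>.mp h2
          rw [sub_eq_zero] at h4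
          rw [← h4] at hna
          exact hna hnw
      · exact hgZ w hwZ h1
    have h1 : (1 / (c - w)).re ≤ ∑ a ∈ Z, ((n a : ℂ) * (1 / (c - a))).re := by
      refine le_trans ?_ (Finset.single_le_sum (f := fun a => ((n a : ℂ) * (1 / (c - a))).re)
        (fun a ha => ?_) hwZ)
      · show (1 / (c - w)).re ≤ ((n w : ℂ) * (1 / (c - w))).re
        rw [hnt]
        have h2 := hterm w hwZ
        have h3 : (1 : ℝ) ≤ n w := by exact_mod_cast hnw
        nlinarith
      · show 0 ≤ ((n a : ℂ) * (1 / (c - a))).re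
        rw [hnt]
        exact mul_nonneg (Nat.cast_nonneg _) (hterm a ha)
    linarith

end Pool.Agent.LGP
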