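import Mathlib
import Pool.Agent.LGP.Stmts

set_option autoImplicit false

/-!
# LGP_LEV: a large level
-/

namespace Pool.Agent.LGP

open Finset Pool.Agent.Lib_helper96.Legendre Pool.Agent.Lib_helper71.LegLevel

namespace LEV

/-! ### The digits -/

/-- the integers below `5 ^ K` with all digits in `{0, 2, 4}` -/
def D : ℕ → Finset ℕ
  | 0 => {0}
  | K + 1 => (D K).biUnion (fun a => {5 * a, 5 * a + 2, 5 * a + 4})

lemma mem_D_succ {K j : ℕ} (h : j ∈ D (K + 1)) :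
    ∃ a ∈ D K, ∃ d, (d = 0 ∨ d = 2 ∨ d = 4) ∧ j = 5 * a + d := by
  rw [D, mem_biUnion] at h
  obtain ⟨a, ha, h⟩ := h
  rw [mem_insert, mem_insert, mem_singleton] at h
  rcases h with h | h | h
  · exact ⟨a, ha, 0, Or.inl rfl, h⟩
  · exact ⟨a, ha, 2, Or.inr (Or.inl rfl), h⟩
  · exact ⟨a, ha, 4, Or.inr (Or.inr rfl), h⟩

lemma D_lt {K j : ℕ} (h : j ∈ D K) : j < 5 ^ K := by
  induction K generalizing j with
  | zero =>
    rw [D, mem_singleton] at h
    rw [h]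
    exact one_pos
  | succ K ih =>
    obtain ⟨a, ha, d, hd, rfl⟩ := mem_D_succ h
    have h1 := ih ha
    rw [pow_succ]
    omega

lemma D_digit {K j : ℕ} (h : j ∈ D K) (i : ℕ) :
    (j / 5 ^ i) % 5 = 0 ∨ (j / 5 ^ i) % 5 = 2 ∨ (j / 5 ^ i) % 5 = 4 := by
  induction K generalizing j i with
  | zero =>
    rw [D, mem_singleton] at h
    rw [h]
    left
    simp
  | succ K ih =>
    obtain ⟨a, ha, d, hd, rfl⟩ := mem_D_succ h
    cases i with
    | zero =>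
      rw [pow_zero, Nat.div_one]
      omega
    | succ i =>
      have h1 : (5 * a + d) / 5 ^ (i + 1) = a / 5 ^ i := by
        rw [pow_succ, mul_comm (5 ^ i) 5, ← Nat.div_div_eq_div_mul]
        congr 1
        omega
      rw [h1]
      exact ih ha i

lemma D_card (K : ℕ) : (D K).card = 3 ^ K := by
  induction K with
  | zero => rfl
  | succ K ih =>
    rw [D, card_biUnion]
    · have h1 : ∀ a ∈ D K, ({5 * a, 5 * a + 2, 5 * a + 4} : Finset ℕ).card = 3 := by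
        intro a _
        rw [card_insert_of_notMem, card_insert_of_notMem, card_singleton]
        · rw [mem_singleton]; omega
        · rw [mem_insert, mem_singleton]; omega
      rw [sum_congr rfl h1, sum_const, ih, smul_eq_mul, pow_succ]
    · intro a _ b _ hab
      rw [Function.onFun, Finset.disjoint_left]
      intro x h1 h2
      rw [mem_insert, mem_insert, mem_singleton] at h1 h2
      omega

/-! ### The walk modulo 5 -/

lemma Psi5_mod (t : ℕ) : Psi 5 0 t = Psi 5 0 (t % 5) := by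
  have h1 : ∀ k r : ℕ, Psi 5 0 (r + 5 * k) = Psi 5 0 r := by
    intro k r
    induction k with
    | zero => rfl
    | succ k ih =>
      rw [show r + 5 * (k + 1) = (r + 5 * k) + 5 by ring,
        Psi_period 5 (by norm_num) 0 (r + 5 * k), ih]
  have h2 := h1 (t / 5) (t % 5)
  rw [Nat.mod_add_div] at h2
  exact h2

lemma Psi5_vals : Psi 5 0 0 = 0 ∧ Psi 5 0 1 = 1 ∧ Psi 5 0 2 = 0 ∧ Psi 5 0 3 = -1 ∧
    Psi 5 0 4 = 0 := by
  refine ⟨?_, ?_, ?_, ?_, ?_⟩ <;> decide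

lemma Psi5_zero {t : ℕ} (h : t % 5 = 0 ∨ t % 5 = 2 ∨ t % 5 = 4) : Psi 5 0 t = 0 := by
  obtain ⟨h0, h1, h2, h3, h4⟩ := Psi5_vals
  rw [Psi5_mod]
  rcases h with h | h | h <;> rw [h] <;> assumption

lemma Psi5_le (t : ℕ) : |Psi 5 0 t| ≤ 1 := by
  obtain ⟨h0, h1, h2, h3, h4⟩ := Psi5_vals
  rw [Psi5_mod]
  have h5 : t % 5 < 5 := Nat.mod_lt _ (by norm_num)
  generalize t % 5 = s at h5
  interval_cases s
  · rw [h0]; norm_num
  · rw [h1]; norm_num
  · rw [h2]; norm_num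
  · rw [h3]; norm_num
  · rw [h4]; norm_num

/-! ### The step walks -/

lemma tmono (p Q : ℕ) {i j : ℕ} (h : i ≤ j) : p * i / Q ≤ p * j / Q :=
  Nat.div_le_div_right (Nat.mul_le_mul_left _ h)

/-- the step walk between two jumps -/
lemma walk_val (p Q j m : ℕ) (hj : j < Q) (h1 : p * j / Q ≤ m)
    (h2 : j + 1 < Q → m < p * (j + 1) / Q) :
    walk Q (fun j => p * j / Q) (fun j => lg 5 j) m = ((Psi 5 0 j : ℤ) : ℂ) := by
  rw [walk, ← sum_lg_Psi 5 j, ← sum_filter]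
  refine sum_congr ?_ fun _ _ => rfl
  ext i
  rw [mem_filter, mem_range, mem_range]
  constructor
  · rintro ⟨h4, h3⟩
    by_contra h5
    have h6 := tmono p Q (show j + 1 ≤ i by omega)
    have h7 := h2 (by omega)
    omega
  · intro h3
    exact ⟨by omega, (tmono p Q (show i ≤ j by omega)).trans h1⟩

lemma W5_zero (p K k j m : ℕ) (hk : k < K) (hj : j ∈ D K) (h1 : p * j / 5 ^ K ≤ m)
    (h2 : m < p * (j + 1) / 5 ^ K) : W5 p k m = 0 := by
  obtain ⟨e, rfl⟩ : ∃ e, K = k + 1 + e := ⟨K - (k + 1), by omega⟩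
  have he : 0 < 5 ^ e := by positivity
  have hpow : 5 ^ (k + 1 + e) = 5 ^ (k + 1) * 5 ^ e := pow_add _ _ _
  have h3 : p * (j / 5 ^ e) / 5 ^ (k + 1) ≤ m := by
    refine le_trans ?_ h1
    rw [← Nat.mul_div_mul_right (p * (j / 5 ^ e)) (5 ^ (k + 1)) he, hpow]
    apply Nat.div_le_div_right
    rw [mul_assoc]
    exact Nat.mul_le_mul_left _ (Nat.div_mul_le_self j _)
  have h4 : m < p * (j / 5 ^ e + 1) / 5 ^ (k + 1) := by
    refine lt_of_lt_of_le h2 ?_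
    rw [← Nat.mul_div_mul_right (p * (j / 5 ^ e + 1)) (5 ^ (k + 1)) he, hpow]
    apply Nat.div_le_div_right
    rw [mul_assoc]
    apply Nat.mul_le_mul_left
    have h5 : j < 5 ^ e * (j / 5 ^ e + 1) := Nat.lt_mul_div_succ j he
    rw [mul_comm] at h5
    exact h5
  have h5 : j / 5 ^ e < 5 ^ (k + 1) := by
    rw [Nat.div_lt_iff_lt_mul he, ← hpow]
    exact D_lt hj
  rw [W5, walk_val p (5 ^ (k + 1)) (j / 5 ^ e) m h5 h3 (fun _ => h4), Psi5_zero (D_digit hj e)]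
  exact Int.cast_zero

lemma W5_le (p k m : ℕ) : ‖W5 p k m‖ ≤ 1 := by
  classical
  have hQ : 0 < 5 ^ (k + 1) := by positivity
  obtain ⟨j, hj, h1, h2⟩ : ∃ j, j < 5 ^ (k + 1) ∧ p * j / 5 ^ (k + 1) ≤ m ∧
      (j + 1 < 5 ^ (k + 1) → m < p * (j + 1) / 5 ^ (k + 1)) := by
    have hne : ((range (5 ^ (k + 1))).filter (fun j => p * j / 5 ^ (k + 1) ≤ m)).Nonempty := by
      refine ⟨0, ?_⟩
      rw [mem_filter, mem_range, mul_zero, Nat.zero_div]
      exact ⟨hQ, Nat.zero_le _⟩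
    obtain ⟨j, hj, hmax⟩ := exists_max_image _ id hne
    rw [mem_filter, mem_range] at hj
    refine ⟨j, hj.1, hj.2, fun h => ?_⟩
    by_contra h3
    have h4 := hmax (j + 1) (by rw [mem_filter, mem_range]; exact ⟨h, by omega⟩)
    rw [id, id] at h4
    omega
  rw [W5, walk_val p _ j m hj h1 h2, Complex.norm_intCast]
  exact_mod_cast Psi5_le j

lemma tau_div (p : ℕ) [Fact p.Prime] (hp : p ≠ 2) :
    ‖tau p / tau 5‖ * (5 / 4) ≤ Real.sqrt p := by
  have h1 : ‖tau p‖ = Real.sqrt p := by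
    rw [← norm_tau p hp, Real.sqrt_sq (norm_nonneg _)]
  have h2 : ‖tau 5‖ ^ 2 = ((5 : ℕ) : ℝ) := norm_tau 5 (by norm_num)
  have h3 : (2 : ℝ) ≤ ‖tau 5‖ := by
    by_contra h
    push Not at h
    have h4 : ‖tau 5‖ ^ 2 < 2 ^ 2 := pow_lt_pow_left₀ h (norm_nonneg _) two_ne_zero
    rw [h2] at h4
    norm_num at h4
  rw [norm_div, h1, div_mul_eq_mul_div, div_le_iff₀ (by linarith)]
  have h5 := Real.sqrt_nonneg (p : ℝ)
  nlinarith

lemma tail_le (K y : ℕ) : ∑ k ∈ Ico K y, (1 / 5 : ℝ) ^ k ≤ 5 / 4 * (1 / 5) ^ K := by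
  have h1 : ∀ n : ℕ, ∑ k ∈ Ico K (K + n), (1 / 5 : ℝ) ^ k ≤
      5 / 4 * (1 / 5) ^ K - 5 / 4 * (1 / 5) ^ (K + n) := by
    intro n
    induction n with
    | zero => simp
    | succ n ih =>
      rw [← add_assoc, sum_Ico_succ_top (by omega)]
      have h2 : (1 / 5 : ℝ) ^ (K + n + 1) = (1 / 5) ^ (K + n) * (1 / 5) := pow_succ _ _
      linarith
  rcases le_total K y with h | h
  · obtain ⟨n, rfl⟩ := Nat.exists_eq_add_of_le h
    have h2 : (0 : ℝ) ≤ (1 / 5) ^ (K + n) := by positivity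
    linarith [h1 n]
  · rw [Ico_eq_empty_of_le h, sum_empty]
    positivity

/-- on the good intervals the tower of step walks is small -/
lemma tower_le (p : ℕ) [Fact p.Prime] (hp : p ≠ 2) (y K j m : ℕ) (hK : K ≤ y) (hj : j ∈ D K)
    (h1 : p * j / 5 ^ K ≤ m) (h2 : m < p * (j + 1) / 5 ^ K) :
    ‖tau p / tau 5 * ∑ k ∈ range y, (1 / 5 : ℂ) ^ k * W5 p k m‖ ≤ Real.sqrt p * (1 / 5) ^ K := by
  have h3 : ∑ k ∈ range y, (1 / 5 : ℂ) ^ k * W5 p k m =
      ∑ k ∈ Ico K y, (1 / 5 : ℂ) ^ k * W5 p k m := by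
    rw [range_eq_Ico, ← sum_Ico_consecutive _ (Nat.zero_le K) hK]
    have h4 : ∑ k ∈ Ico 0 K, (1 / 5 : ℂ) ^ k * W5 p k m = 0 := by
      refine sum_eq_zero fun k hk => ?_
      rw [W5_zero p K k j m (mem_Ico.1 hk).2 hj h1 h2, mul_zero]
    rw [h4, zero_add]
  have h5 : ‖∑ k ∈ Ico K y, (1 / 5 : ℂ) ^ k * W5 p k m‖ ≤ 5 / 4 * (1 / 5) ^ K := by
    refine (norm_sum_le _ _).trans (le_trans (sum_le_sum fun k _ => ?_) (tail_le K y))
    rw [norm_mul, norm_pow]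
    have h6 : ‖(1 / 5 : ℂ)‖ = 1 / 5 := by norm_num
    rw [h6]
    have h7 := W5_le p k m
    have h8 : (0 : ℝ) ≤ (1 / 5) ^ k := by positivity
    nlinarith
  rw [h3, norm_mul]
  have h6 := tau_div p hp
  have h7 : (0 : ℝ) ≤ (1 / 5) ^ K := by positivity
  calc ‖tau p / tau 5‖ * ‖∑ k ∈ Ico K y, (1 / 5 : ℂ) ^ k * W5 p k m‖
      ≤ ‖tau p / tau 5‖ * (5 / 4 * (1 / 5) ^ K) :=
        mul_le_mul_of_nonneg_left h5 (norm_nonneg _)
    _ = ‖tau p / tau 5‖ * (5 / 4) * (1 / 5) ^ K := by ring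
    _ ≤ Real.sqrt p * (1 / 5) ^ K := mul_le_mul_of_nonneg_right h6 h7

lemma step_le (p Q j : ℕ) (hQ : 0 < Q) (hpQ : 2 * Q ≤ p) :
    p ≤ 2 * Q * (p * (j + 1) / Q - p * j / Q) := by
  have h1 : p * j / Q + p / Q ≤ p * (j + 1) / Q := by
    rw [mul_add, mul_one]
    exact Nat.div_add_div_le_add_div ..
  have h2 : p / Q ≤ p * (j + 1) / Q - p * j / Q := by omega
  have h3 : p < Q * (p / Q + 1) := Nat.lt_mul_div_succ p hQ
  have h4 : 2 ≤ p / Q := by
    rw [Nat.le_div_iff_mul_le hQ]; exact hpQ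
  calc p ≤ Q * (p / Q + 1) := h3.le
    _ ≤ Q * (2 * (p / Q)) := Nat.mul_le_mul_left _ (by omega)
    _ = 2 * Q * (p / Q) := by ring
    _ ≤ 2 * Q * (p * (j + 1) / Q - p * j / Q) := Nat.mul_le_mul_left _ h2

end LEV

theorem LEV_thm : S_LEV := by
  classical
  intro C p _ y K hC hy hyp hKy hex
  obtain ⟨μ, hμ⟩ := hex
  have hpp : 0 < p := (Fact.out : p.Prime).pos
  have hpr : (0 : ℝ) < p := by exact_mod_cast hpp
  have hy4 : 10 ^ 4 ≤ y ^ 4 := Nat.pow_le_pow_left hy 4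
  have hp2 : p ≠ 2 := by
    intro h
    rw [h] at hyp
    norm_num at hy4
    omega
  have hyr : (0 : ℝ) < y := by
    have : (10 : ℝ) ≤ y := by exact_mod_cast hy
    linarith
  have h5K : (5 : ℝ) ^ K ≤ y := by
    have h1 : (5 : ℝ) ^ K ≤ (125 / 3 : ℝ) ^ K := pow_le_pow_left₀ (by norm_num) (by norm_num) K
    have h2 : (0 : ℝ) ≤ (125 / 3 : ℝ) ^ K := by positivity
    nlinarith
  have h5Kn : 5 ^ K ≤ y := by exact_mod_cast h5K
  have hKy2 : K ≤ y := (Nat.lt_pow_self (by norm_num : 1 < 5)).le.trans h5Kn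
  have hyy : y * y ≤ p := by
    refine le_trans ?_ hyp
    calc y * y = y * y * 1 := (mul_one _).symm
      _ ≤ y * y * (y * y) := Nat.mul_le_mul_left _ (by nlinarith)
      _ = y ^ 4 := by ring
  have h2Q : 2 * 5 ^ K ≤ p := by
    refine le_trans ?_ hyy
    exact Nat.mul_le_mul (by omega) h5Kn
  have h25 : 5 ^ K * 5 ^ K ≤ p := (Nat.mul_le_mul h5Kn h5Kn).trans hyy
  have hQ : 0 < 5 ^ K := by positivity
  -- the set of times
  set T : Finset ℕ := (LEV.D K).biUnion (fun j => Ico (p * j / 5 ^ K) (p * (j + 1) / 5 ^ K))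
    with hT
  have hTsub : T ⊆ range p := by
    intro m hm
    rw [hT, mem_biUnion] at hm
    obtain ⟨j, hj, hm⟩ := hm
    rw [mem_Ico] at hm
    rw [mem_range]
    refine lt_of_lt_of_le hm.2 ?_
    have h1 : p * (j + 1) / 5 ^ K ≤ p * 5 ^ K / 5 ^ K := LEV.tmono p _ (LEV.D_lt hj)
    rw [Nat.mul_div_cancel _ hQ] at h1
    exact h1
  have hTcard : 3 ^ K * p ≤ 2 * 5 ^ K * T.card := by
    rw [hT, card_biUnion, ← LEV.D_card, mul_sum, card_eq_sum_ones, sum_mul]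
    · refine sum_le_sum fun j _ => ?_
      rw [one_mul, Nat.card_Ico]
      exact LEV.step_le p _ j hQ h2Q
    · intro i _ j _ hij
      rw [Function.onFun, Finset.disjoint_left]
      intro m h1 h2
      rw [mem_Ico] at h1 h2
      rcases lt_or_gt_of_ne hij with h | h
      · have := LEV.tmono p (5 ^ K) (show i + 1 ≤ j by omega)
        omega
      · have := LEV.tmono p (5 ^ K) (show j + 1 ≤ i by omega)
        omega
  -- the radius
  set ρ : ℝ := Real.sqrt p * (1 / 5) ^ K with hρ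
  have hρ2 : ρ ^ 2 * 25 ^ K = p := by
    rw [hρ, mul_pow, Real.sq_sqrt hpr.le, ← pow_mul, mul_comm K 2, pow_mul, mul_assoc, ← mul_pow]
    norm_num
  have hρ0 : 0 < ρ := by
    rw [hρ]
    have := Real.sqrt_pos.2 hpr
    positivity
  have hρ1 : 1 ≤ ρ := by
    have h1 : (25 : ℝ) ^ K ≤ p := by
      have h2 : (5 : ℝ) ^ K * 5 ^ K ≤ p := by exact_mod_cast h25
      rw [← mul_pow] at h2
      norm_num at h2
      exact h2
    have h3 : (0 : ℝ) < 25 ^ K := by positivity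
    by_contra h
    push Not at h
    have h4 : ρ ^ 2 < 1 := by nlinarith
    nlinarith
  have hval : ∀ m ∈ T, |(Psi p 0 m : ℝ) - μ.re| ≤ ‖H5 p y m - μ‖ + ρ := by
    intro m hm
    rw [hT, mem_biUnion] at hm
    obtain ⟨j, hj, hm⟩ := hm
    rw [mem_Ico] at hm
    have h1 := LEV.tower_le p hp2 y K j m hKy2 hj hm.1 hm.2
    have h2 : ((((Psi p 0 m : ℤ) : ℂ)) - μ) = (H5 p y m - μ) +
        tau p / tau 5 * ∑ k ∈ range y, (1 / 5 : ℂ) ^ k * W5 p k m := by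
      rw [H5]; ring
    have h3 : (Psi p 0 m : ℝ) - μ.re = ((((Psi p 0 m : ℤ) : ℂ)) - μ).re := by
      rw [Complex.sub_re, Complex.intCast_re]
    rw [h3]
    refine (Complex.abs_re_le_norm _).trans ?_
    rw [h2]
    exact (norm_add_le _ _).trans (by linarith)
  set B : Finset ℕ := T.filter (fun m => ρ < ‖H5 p y m - μ‖) with hB
  set G : Finset ℕ := T.filter (fun m => ¬ ρ < ‖H5 p y m - μ‖) with hG
  have hBG : B.card + G.card = T.card := by
    rw [hB, hG]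
    exact card_filter_add_card_filter_not _
  have hBc : (B.card : ℝ) * ρ ^ 2 ≤ C * (p : ℝ) ^ 2 / y := by
    refine le_trans ?_ hμ
    calc (B.card : ℝ) * ρ ^ 2 = ∑ m ∈ B, ρ ^ 2 := by rw [sum_const, nsmul_eq_mul]
      _ ≤ ∑ m ∈ B, ‖H5 p y m - μ‖ ^ 2 := by
          refine sum_le_sum fun m hm => ?_
          rw [hB, mem_filter] at hm
          exact pow_le_pow_left₀ hρ0.le hm.2.le 2
      _ ≤ ∑ m ∈ range p, ‖H5 p y m - μ‖ ^ 2 :=
          sum_le_sum_of_subset_of_nonneg ((filter_subset _ _).trans hTsub)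
            (fun _ _ _ => by positivity)
  have h25p : (0 : ℝ) < 25 ^ K := by positivity
  have h5p : (0 : ℝ) < 5 ^ K := by positivity
  have h3p : (0 : ℝ) < 3 ^ K := by positivity
  have hBc2 : 4 * (5 : ℝ) ^ K * B.card ≤ 3 ^ K * p := by
    rw [le_div_iff₀ hyr] at hBc
    have h1 : 4 * C * (125 : ℝ) ^ K ≤ y * 3 ^ K := by
      rw [div_pow] at hKy
      have h2 := mul_le_mul_of_nonneg_right hKy h3p.le
      rw [mul_assoc, div_mul_cancel₀ _ h3p.ne'] at h2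
      exact h2
    have h2 : (125 : ℝ) ^ K = 5 ^ K * 25 ^ K := by rw [← mul_pow]; norm_num
    -- B * ρ² * y ≤ C p²; multiply by 25^K: B p y ≤ C p² 25^K, so B y ≤ C p 25^K
    have h3 : (B.card : ℝ) * y ≤ C * p * 25 ^ K := by
      have h4 : (B.card : ℝ) * ρ ^ 2 * y * 25 ^ K ≤ C * (p : ℝ) ^ 2 * 25 ^ K :=
        mul_le_mul_of_nonneg_right hBc h25p.le
      have h5 : (B.card : ℝ) * ρ ^ 2 * y * 25 ^ K = (B.card : ℝ) * y * p := by
        rw [← hρ2]; ring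
      have h6 : C * (p : ℝ) ^ 2 * 25 ^ K = C * p * 25 ^ K * p := by ring
      rw [h5, h6] at h4
      exact le_of_mul_le_mul_right h4 hpr
    have h7 : 4 * (5 : ℝ) ^ K * B.card * y ≤ 3 ^ K * p * y := by
      calc 4 * (5 : ℝ) ^ K * B.card * y = 4 * 5 ^ K * (B.card * y) := by ring
        _ ≤ 4 * 5 ^ K * (C * p * 25 ^ K) := mul_le_mul_of_nonneg_left h3 (by positivity)
        _ = (4 * C * 125 ^ K) * p := by rw [h2]; ring
        _ ≤ (y * 3 ^ K) * p := mul_le_mul_of_nonneg_right h1 hpr.le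
        _ = 3 ^ K * p * y := by ring
    exact le_of_mul_le_mul_right h7 hyr
  have hGc : (3 : ℝ) ^ K * p ≤ 4 * 5 ^ K * G.card := by
    have h1 : (3 : ℝ) ^ K * p ≤ 2 * 5 ^ K * T.card := by exact_mod_cast hTcard
    have h2 : (B.card : ℝ) + G.card = T.card := by exact_mod_cast hBG
    rw [← h2] at h1
    nlinarith
  -- values on `G`
  have hmaps : ∀ m ∈ G, Psi p 0 m ∈ Icc ⌈μ.re - 2 * ρ⌉ ⌊μ.re + 2 * ρ⌋ := by
    intro m hm
    rw [hG, mem_filter, not_lt] at hm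
    have h1 := hval m hm.1
    have h2 : |(Psi p 0 m : ℝ) - μ.re| ≤ 2 * ρ := by linarith [hm.2]
    rw [abs_le] at h2
    rw [mem_Icc, Int.ceil_le, Int.le_floor]
    constructor <;> linarith [h2.1, h2.2]
  have hfib : ∀ v ∈ Icc ⌈μ.re - 2 * ρ⌉ ⌊μ.re + 2 * ρ⌋,
      (G.filter (fun m => Psi p 0 m = v)).card ≤ M p := by
    intro v _
    refine le_trans ?_ (level_le_M p v)
    rw [level]
    apply card_le_card
    exact filter_subset_filter _ ((filter_subset _ _).trans hTsub)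
  have hcount := card_le_mul_card_image_of_maps_to hmaps (M p) hfib
  have hIcc : ((Icc ⌈μ.re - 2 * ρ⌉ ⌊μ.re + 2 * ρ⌋).card : ℝ) ≤ 5 * ρ := by
    rw [Int.card_Icc]
    have h1 : (((⌊μ.re + 2 * ρ⌋ + 1 - ⌈μ.re - 2 * ρ⌉).toNat : ℤ) : ℝ) ≤ 5 * ρ := by
      rw [Int.toNat_eq_max]
      push_cast
      apply max_le
      · have := Int.floor_le (μ.re + 2 * ρ)
        have := Int.le_ceil (μ.re - 2 * ρ)
        linarith
      · linarith
    exact_mod_cast h1
  have hc2 : (G.card : ℝ) ≤ M p * (5 * ρ) := by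
    have h1 : (G.card : ℝ) ≤ (M p : ℝ) * ((Icc ⌈μ.re - 2 * ρ⌉ ⌊μ.re + 2 * ρ⌋).card : ℝ) := by
      exact_mod_cast hcount
    exact h1.trans (mul_le_mul_of_nonneg_left hIcc (Nat.cast_nonneg _))
  have hfin : (3 : ℝ) ^ K * p ≤ 20 * M p * Real.sqrt p := by
    have h1 : (5 : ℝ) ^ K * ρ = Real.sqrt p := by
      rw [hρ, mul_comm, mul_assoc, ← mul_pow]
      norm_num
    calc (3 : ℝ) ^ K * p ≤ 4 * 5 ^ K * G.card := hGc
      _ ≤ 4 * 5 ^ K * (M p * (5 * ρ)) := mul_le_mul_of_nonneg_left hc2 (by positivity)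
      _ = 20 * M p * (5 ^ K * ρ) := by ring
      _ = 20 * M p * Real.sqrt p := by rw [h1]
  have hs : Real.sqrt p * Real.sqrt p = p := Real.mul_self_sqrt hpr.le
  have hs0 : 0 < Real.sqrt p := Real.sqrt_pos.2 hpr
  have h9 : Real.sqrt p * 3 ^ K ≤ 20 * M p := by
    have h10 : Real.sqrt p * 3 ^ K * Real.sqrt p ≤ 20 * M p * Real.sqrt p := by
      calc Real.sqrt p * 3 ^ K * Real.sqrt p = 3 ^ K * (Real.sqrt p * Real.sqrt p) := by ring
        _ = 3 ^ K * p := by rw [hs]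
        _ ≤ 20 * M p * Real.sqrt p := hfin
    exact le_of_mul_le_mul_right h10 hs0
  linarith

end Pool.Agent.LGP
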