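import Pool.Agent.LGP.Stmts

set_option autoImplicit false

/-!
# LGP_LOW: the lower bound to the right of `1`
-/

namespace Pool.Agent.LGP

open Finset

namespace LOW

/-- the sum of `n^(-σ)` -/
theorem zeta_le {σ : ℝ} (h1 : 1 < σ) :
    HasSum (fun n : ℕ => if n = 0 then (0 : ℝ) else 1 / (n : ℝ) ^ σ)
      (∑' n : ℕ, 1 / ((n : ℝ) + 1) ^ σ) ∧
    ∑' n : ℕ, 1 / ((n : ℝ) + 1) ^ σ ≤ σ / (σ - 1) := by
  constructor
  · have hs : Summable (fun n : ℕ => 1 / ((n : ℝ) + 1) ^ σ) := by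
      have h2 := (summable_nat_add_iff 1).mpr (Real.summable_one_div_nat_rpow.mpr h1)
      refine h2.congr fun n => ?_
      push_cast
      rfl
    rw [← hasSum_nat_add_iff' 1]
    have h3 : (∑' n : ℕ, 1 / ((n : ℝ) + 1) ^ σ) -
        ∑ i ∈ range 1, (if i = 0 then (0 : ℝ) else 1 / (i : ℝ) ^ σ) =
        ∑' n : ℕ, 1 / ((n : ℝ) + 1) ^ σ := by simp
    rw [h3]
    have h4 : (fun n : ℕ => if n + 1 = 0 then (0 : ℝ) else 1 / ((n + 1 : ℕ) : ℝ) ^ σ) =
        fun n : ℕ => 1 / ((n : ℝ) + 1) ^ σ := by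
      funext n
      rw [if_neg (Nat.succ_ne_zero n)]
      push_cast
      rfl
    rw [h4]
    exact hs.hasSum
  · have h5 := ZetaAsymptotics.zeta_limit_aux1 h1
    have h6 : 0 ≤ ZetaAsymptotics.termTSum σ :=
      tsum_nonneg fun n => ZetaAsymptotics.term_nonneg _ _
    have h7 : 0 ≤ σ * ZetaAsymptotics.termTSum σ := mul_nonneg (by linarith) h6
    have h8 : σ / (σ - 1) = 1 + 1 / (σ - 1) := by
      have h9 : σ - 1 ≠ 0 := by linarith
      field_simp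
      ring
    rw [h8]
    linarith

theorem norm_chi_mu {N : ℕ} (χ : DirichletCharacter ℂ N) (n : ℕ) :
    ‖χ (n : ZMod N) * ((ArithmeticFunction.moebius n : ℤ) : ℂ)‖ ≤ 1 := by
  rw [norm_mul]
  have h1 := χ.norm_le_one (n : ZMod N)
  have h2 : ‖((ArithmeticFunction.moebius n : ℤ) : ℂ)‖ ≤ 1 := by
    rw [Complex.norm_intCast]
    exact_mod_cast ArithmeticFunction.abs_moebius_le_one
  calc ‖χ (n : ZMod N)‖ * ‖((ArithmeticFunction.moebius n : ℤ) : ℂ)‖ ≤ 1 * 1 :=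
        mul_le_mul h1 h2 (norm_nonneg _) zero_le_one
    _ = 1 := one_mul 1

end LOW

open LOW in
theorem LOW_thm : S_LOW := by
  intro N _ χ σ h1 h2
  have hs : 1 < ((σ : ℂ)).re := by simpa using h1
  have hL := DirichletCharacter.LFunction_eq_LSeries χ hs
  have h3 := DirichletCharacter.LSeries.mul_mu_eq_one χ hs
  rw [← hL] at h3
  obtain ⟨h4, h5⟩ := zeta_le h1
  have hpos : 0 < σ - 1 := by linarith
  have h6 : ∀ f : ℕ → ℂ, (∀ n, ‖f n‖ ≤ 1) → ‖LSeries f (σ : ℂ)‖ ≤ 2 / (σ - 1) := by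
    intro f hf
    have h7 : ‖LSeries f (σ : ℂ)‖ ≤ ∑' n : ℕ, 1 / ((n : ℝ) + 1) ^ σ := by
      refine tsum_of_norm_bounded h4 fun n => ?_
      rw [LSeries.norm_term_eq, Complex.ofReal_re]
      by_cases hn : n = 0
      · rw [if_pos hn, if_pos hn]
      · rw [if_neg hn, if_neg hn]
        exact div_le_div_of_nonneg_right (hf n) (Real.rpow_nonneg (Nat.cast_nonneg n) σ)
    refine h7.trans (h5.trans ?_)
    exact div_le_div_of_nonneg_right h2 hpos.le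
  have h8 := congrArg norm h3
  rw [norm_mul, norm_one] at h8
  have h9 := h6 _ (norm_chi_mu χ)
  have h10 : 1 ≤ ‖χ.LFunction (σ : ℂ)‖ * (2 / (σ - 1)) := by
    calc (1 : ℝ) = _ := h8.symm
      _ ≤ ‖χ.LFunction (σ : ℂ)‖ * (2 / (σ - 1)) :=
        mul_le_mul_of_nonneg_left h9 (norm_nonneg _)
  have h11 := mul_le_mul_of_nonneg_right h10 (by linarith : 0 ≤ (σ - 1) / 2)
  have h12 : ‖χ.LFunction (σ : ℂ)‖ * (2 / (σ - 1)) * ((σ - 1) / 2) = ‖χ.LFunction (σ : ℂ)‖ := by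
    field_simp
  rw [h12, one_mul] at h11
  exact h11

end Pool.Agent.LGP
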