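import Pool.Agent.LGP.Stmts

set_option autoImplicit false

/-!
# LGP_MAIN: the main term
-/

namespace Pool.Agent.LGP

open Finset

namespace MAIN

open DirichletCharacter Metric

/-- the regular part of the logarithmic derivative of zeta near `1` -/
theorem exists_G : ∃ (G : ℂ → ℂ) (r K : ℝ), 0 < r ∧ 0 ≤ K ∧
    (∀ s ∈ ball (1 : ℂ) r, DifferentiableAt ℂ G s) ∧ (∀ s ∈ ball (1 : ℂ) r, ‖G s‖ ≤ K) ∧
    ∀ s ∈ ball (1 : ℂ) r, s ≠ 1 →
      ld (1 : DirichletCharacter ℂ 1) s = G s - (1 * s - 1)⁻¹ := by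
  set F : ℂ → ℂ := LFunctionTrivChar₁ 1 with hF
  have hd : Differentiable ℂ F := differentiable_LFunctionTrivChar₁ 1
  have h1 : F 1 ≠ 0 := LFunctionTrivChar₁_apply_one_ne_zero 1
  have hc : Continuous (deriv F) := hd.contDiff.continuous_deriv le_rfl
  have hGc : ContinuousAt (fun s => deriv F s / F s) 1 :=
    hc.continuousAt.div hd.continuous.continuousAt h1
  have e1 : ∀ᶠ s in nhds (1 : ℂ), F s ≠ 0 := hd.continuous.continuousAt.eventually_ne h1
  have e2 : ∀ᶠ s in nhds (1 : ℂ), ‖deriv F s / F s‖ < ‖deriv F 1 / F 1‖ + 1 :=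
    hGc.norm.eventually_lt_const (lt_add_one _)
  obtain ⟨r, hr, hr'⟩ := Metric.eventually_nhds_iff_ball.1 (e1.and e2)
  refine ⟨fun s => deriv F s / F s, r, ‖deriv F 1 / F 1‖ + 1, hr, by positivity, ?_, ?_, ?_⟩
  · intro s hs
    have hdd : Differentiable ℂ (deriv F) := (hd.contDiff (n := 2)).differentiable_deriv_two
    exact (hdd s).div (hd s) (hr' s hs).1
  · intro s hs
    exact (hr' s hs).2.le
  · intro s hs hs1
    have h2 : F s = (s - 1) * LFunctionTrivChar 1 s := Function.update_of_ne hs1 ..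
    have h3 : deriv F s = (s - 1) * deriv (LFunctionTrivChar 1) s + LFunctionTrivChar 1 s :=
      deriv_LFunctionTrivChar₁_apply_of_ne_one 1 hs1
    have h4 : s - 1 ≠ 0 := sub_ne_zero.2 hs1
    have h5 : LFunctionTrivChar 1 s ≠ 0 := by
      intro h
      apply (hr' s hs).1
      rw [h2, h, mul_zero]
    have h6 : ld (1 : DirichletCharacter ℂ 1) s =
        deriv (LFunctionTrivChar 1) s / LFunctionTrivChar 1 s := rfl
    rw [h6]
    simp only
    rw [h3, h2, one_mul]
    field_simp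
    ring

theorem wt_nonneg (k : ℕ) (σ : ℝ) (n : ℕ) : 0 ≤ wt k σ n := by
  have h : 0 ≤ Real.log n := Real.log_natCast_nonneg n
  unfold wt
  have := ArithmeticFunction.vonMangoldt_nonneg (n := n)
  positivity

/-- the sum over all `n` -/
theorem sum_all (h : S_SER) : ∃ C : ℝ, 1 ≤ C ∧ ∀ T : ℝ, C ≤ T → ∀ k : ℕ,
    (k.factorial : ℝ) * T ^ (k + 1) * (3 / 4) ≤ ∑' n : ℕ, wt k (1 + 1 / T) n := by
  obtain ⟨G, r, K, hr, hK, hG1, hG2, hG3⟩ := exists_G
  have h0 : 0 < 4 / r := by positivity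
  refine ⟨4 * K + 4 / r + 1, by linarith, fun T hT k => ?_⟩
  have hT0 : 0 < T := by linarith
  have hTr : 1 / T ≤ r / 4 := by
    rw [div_le_div_iff₀ hT0 (by norm_num)]
    have h1 : 4 / r ≤ T := by linarith
    rw [div_le_iff₀ hr] at h1
    linarith
  set σ : ℝ := 1 + 1 / T with hσ
  have hσ1 : 1 < σ := by
    rw [hσ]
    have : 0 < 1 / T := by positivity
    linarith
  have hσc : ((σ : ℝ) : ℂ) - 1 = ((1 / T : ℝ) : ℂ) := by
    rw [hσ]
    push_cast
    ring
  have hball : closedBall ((σ : ℝ) : ℂ) (r / 2) ⊆ ball (1 : ℂ) r := by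
    intro z hz
    rw [mem_closedBall, dist_eq_norm] at hz
    rw [mem_ball, dist_eq_norm]
    have h1 : ‖((σ : ℝ) : ℂ) - 1‖ = 1 / T := by
      rw [hσc, Complex.norm_real, Real.norm_of_nonneg (by positivity)]
    calc ‖z - 1‖ = ‖(z - σ) + ((σ : ℂ) - 1)‖ := by ring_nf
      _ ≤ ‖z - σ‖ + ‖(σ : ℂ) - 1‖ := norm_add_le _ _
      _ ≤ r / 2 + r / 4 := by rw [h1]; linarith
      _ < r := by linarith
  have hσm : ((σ : ℝ) : ℂ) ∈ ball (1 : ℂ) r := hball (mem_closedBall_self (by positivity))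
  have hσne : ((σ : ℝ) : ℂ) ≠ 1 := by
    intro h1
    rw [h1, sub_self] at hσc
    have : (1 / T : ℝ) = 0 := by exact_mod_cast hσc.symm
    have h2 : 0 < 1 / T := by positivity
    linarith
  -- Cauchy for G
  have hC : ‖iteratedDeriv k G ((σ : ℝ) : ℂ)‖ ≤ k.factorial * K / (r / 2) ^ k := by
    refine Complex.norm_iteratedDeriv_le_of_forall_mem_sphere_norm_le k (by positivity) ?_ ?_
    · refine DifferentiableOn.diffContOnCl fun z hz => ?_
      rw [closure_ball _ (by positivity)] at hz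
      exact (hG1 z (hball hz)).differentiableWithinAt
    · intro z hz
      exact hG2 z (hball (sphere_subset_closedBall hz))
  -- the derivative of the pole
  have hP : ‖iteratedDeriv k (fun x : ℂ => (1 * x - 1)⁻¹) ((σ : ℝ) : ℂ)‖ =
      k.factorial * T ^ (k + 1) := by
    rw [iteratedDeriv_eq_iterate, iter_deriv_inv_linear_sub]
    beta_reduce
    rw [one_mul, hσc]
    rw [norm_mul, norm_mul, norm_mul, norm_pow, norm_neg, norm_one, one_pow, one_mul, one_pow,
      norm_one, mul_one, Complex.norm_natCast, norm_zpow, Complex.norm_real,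
      Real.norm_of_nonneg (by positivity), one_div, inv_zpow', neg_sub, sub_neg_eq_add,
      ← Nat.cast_succ, zpow_natCast]
  have hev : ld (1 : DirichletCharacter ℂ 1) =ᶠ[nhds ((σ : ℝ) : ℂ)]
      G - fun x : ℂ => (1 * x - 1)⁻¹ := by
    filter_upwards [isOpen_ball.mem_nhds hσm, isOpen_ne.mem_nhds hσne] with s hs1 hs2
    exact hG3 s hs1 hs2
  have hGa : ContDiffAt ℂ k G ((σ : ℝ) : ℂ) := by
    have : DifferentiableOn ℂ G (ball 1 r) := fun z hz => (hG1 z hz).differentiableWithinAt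
    exact (this.analyticAt (isOpen_ball.mem_nhds hσm)).contDiffAt
  have hPa : ContDiffAt ℂ k (fun x : ℂ => (1 * x - 1)⁻¹) ((σ : ℝ) : ℂ) := by
    refine ContDiffAt.inv (by fun_prop) ?_
    rw [one_mul]
    exact sub_ne_zero.2 hσne
  have hld : iteratedDeriv k (ld (1 : DirichletCharacter ℂ 1)) ((σ : ℝ) : ℂ) =
      iteratedDeriv k G ((σ : ℝ) : ℂ) -
        iteratedDeriv k (fun x : ℂ => (1 * x - 1)⁻¹) ((σ : ℝ) : ℂ) := by
    rw [hev.iteratedDeriv_eq, iteratedDeriv_sub hGa hPa]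
  obtain ⟨hs, hs'⟩ := h 1 1 k σ hσ1
  have hsum : ‖∑' n : ℕ, (1 : DirichletCharacter ℂ 1) (n : ZMod 1) * (wt k σ n : ℂ)‖ =
      ∑' n : ℕ, wt k σ n := by
    have h1 : ∀ n : ℕ, (1 : DirichletCharacter ℂ 1) (n : ZMod 1) * (wt k σ n : ℂ) =
        ((wt k σ n : ℝ) : ℂ) := by
      intro n
      rw [MulChar.one_apply (isUnit_of_subsingleton _), one_mul]
    rw [tsum_congr h1, ← Complex.ofReal_tsum, Complex.norm_real,
      Real.norm_of_nonneg (tsum_nonneg fun n => wt_nonneg k σ n)]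
  rw [hsum, hld] at hs'
  have h2 : (k.factorial : ℝ) * T ^ (k + 1) - k.factorial * K / (r / 2) ^ k ≤
      ∑' n : ℕ, wt k σ n := by
    rw [hs', ← hP]
    have h3 := norm_sub_norm_le (iteratedDeriv k (fun x : ℂ => (1 * x - 1)⁻¹) ((σ : ℝ) : ℂ))
      (iteratedDeriv k G ((σ : ℝ) : ℂ))
    rw [norm_sub_rev] at h3
    linarith
  refine le_trans ?_ h2
  have h4 : (k.factorial : ℝ) * K / (r / 2) ^ k ≤ k.factorial * T ^ (k + 1) / 4 := by
    have h5 : K ≤ T / 4 := by linarith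
    have h6 : (r / 2) ^ k * T ^ k ≥ 1 := by
      rw [← mul_pow]
      refine one_le_pow₀ ?_
      have h1 : 4 / r ≤ T := by linarith
      rw [div_le_iff₀ hr] at h1
      nlinarith
    rw [div_le_iff₀ (by positivity)]
    have h7 : (0 : ℝ) ≤ k.factorial := by positivity
    calc (k.factorial : ℝ) * K ≤ k.factorial * (T / 4) := mul_le_mul_of_nonneg_left h5 h7
      _ = k.factorial * (T / 4) * 1 := by ring
      _ ≤ k.factorial * (T / 4) * ((r / 2) ^ k * T ^ k) :=
          mul_le_mul_of_nonneg_left h6 (by positivity)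
      _ = k.factorial * T ^ (k + 1) / 4 * (r / 2) ^ k := by ring
  linarith

theorem wt_le (k j p : ℕ) (hp : p.Prime) (σ : ℝ) (hσ : 1 < σ) :
    wt k σ (p ^ (j + 1)) ≤ (k.factorial * 2 ^ k * Real.log p) * ((√p)⁻¹ ^ (j + 1)) := by
  have hp0 : (0 : ℝ) < p := by exact_mod_cast hp.pos
  set n : ℕ := p ^ (j + 1) with hn
  have hn1 : 1 ≤ n := Nat.one_le_pow _ _ hp.pos
  have hn1' : (1 : ℝ) ≤ n := by exact_mod_cast hn1
  have hn0 : (0 : ℝ) < n := by linarith
  have hL : ArithmeticFunction.vonMangoldt n = Real.log p := by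
    rw [hn, ArithmeticFunction.vonMangoldt_apply_pow (Nat.succ_ne_zero j),
      ArithmeticFunction.vonMangoldt_apply_prime hp]
  have hlog : 0 ≤ Real.log n := Real.log_natCast_nonneg n
  have hlogp : 0 ≤ Real.log p := Real.log_natCast_nonneg p
  have h1 : Real.log n ^ k ≤ k.factorial * 2 ^ k * √n := by
    have h2 := Real.pow_div_factorial_le_exp (Real.log n / 2) (by positivity) k
    rw [div_le_iff₀ (by positivity), div_pow, div_le_iff₀ (by positivity)] at h2
    have h3 : Real.exp (Real.log n / 2) = √n := by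
      rw [Real.exp_half, Real.exp_log hn0]
    rw [h3] at h2
    linarith
  have h2 : (n : ℝ) ^ (-σ) ≤ (n : ℝ)⁻¹ := by
    rw [← Real.rpow_neg_one]
    exact Real.rpow_le_rpow_of_exponent_le hn1' (by linarith)
  have h3 : √n = √p ^ (j + 1) := by
    rw [hn, Nat.cast_pow, Real.sqrt_eq_rpow, Real.sqrt_eq_rpow, ← Real.rpow_natCast,
      ← Real.rpow_mul hp0.le, ← Real.rpow_natCast, ← Real.rpow_mul hp0.le, mul_comm]
  have h4 : √n * (n : ℝ)⁻¹ = (√p)⁻¹ ^ (j + 1) := by
    rw [inv_pow, ← h3]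
    have h5 : √(n : ℝ) ≠ 0 := by positivity
    have h6 : √(n : ℝ) * √n = n := Real.mul_self_sqrt hn0.le
    have h7 : (n : ℝ) ≠ 0 := hn0.ne'
    field_simp
    linarith
  unfold wt
  rw [hL]
  calc Real.log p * Real.log n ^ k * (n : ℝ) ^ (-σ)
      ≤ Real.log p * (k.factorial * 2 ^ k * √n) * (n : ℝ)⁻¹ := by
        refine mul_le_mul (mul_le_mul_of_nonneg_left h1 hlogp) h2 (by positivity) ?_
        positivity
    _ = (k.factorial * 2 ^ k * Real.log p) * (√n * (n : ℝ)⁻¹) := by ring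
    _ = _ := by rw [h4]

theorem geo (p : ℕ) (hp : p.Prime) :
    HasSum (fun j : ℕ => (√(p : ℝ))⁻¹ ^ (j + 1)) ((√(p : ℝ))⁻¹ * (1 - (√(p : ℝ))⁻¹)⁻¹) ∧
      (√(p : ℝ))⁻¹ * (1 - (√(p : ℝ))⁻¹)⁻¹ ≤ 5 / 2 := by
  have hp2 : (2 : ℝ) ≤ p := by exact_mod_cast hp.two_le
  have h1 : (7 / 5 : ℝ) ≤ √p := by
    refine Real.le_sqrt_of_sq_le ?_
    norm_num
    linarith
  have h0 : 0 < √(p : ℝ) := by linarith
  have h2 : (√(p : ℝ))⁻¹ < 1 := by
    rw [inv_lt_one₀ h0]
    linarith
  have h3 : 0 ≤ (√(p : ℝ))⁻¹ := by positivity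
  constructor
  · have h4 := (hasSum_geometric_of_lt_one h3 h2).mul_left (√(p : ℝ))⁻¹
    refine h4.congr_fun ?_
    intro j
    rw [pow_succ]
    ring
  · have h5 : (√(p : ℝ))⁻¹ * (1 - (√(p : ℝ))⁻¹)⁻¹ = (√(p : ℝ) - 1)⁻¹ := by
      rw [← mul_inv]
      congr 1
      field_simp
    rw [h5]
    rw [inv_le_comm₀ (by linarith) (by norm_num)]
    norm_num
    linarith

open Classical in
theorem not_coprime (h : S_SER) (N : ℕ) (hN : 1 ≤ N) (k : ℕ) (σ : ℝ) (hσ : 1 < σ) :
    ∑' n : ℕ, Set.indicator {n : ℕ | ¬ n.Coprime N} (wt k σ) n ≤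
      k.factorial * 2 ^ k * (5 / 2) * Real.log N := by
  have hs := (h 1 1 k σ hσ).1
  set f : ℕ → ℝ := Set.indicator {n : ℕ | ¬ n.Coprime N} (wt k σ) with hf
  have hfs : Summable f := hs.indicator _
  have hf0 : ∀ n, 0 ≤ f n := fun n => Set.indicator_nonneg (fun n _ => wt_nonneg k σ n) n
  have hsup : Function.support f ⊆ {n | IsPrimePow n} := by
    intro n hn
    rw [Function.mem_support] at hn
    have h1 : wt k σ n ≠ 0 := by
      intro h2
      apply hn
      rw [hf]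
      exact Set.indicator_apply_eq_zero.2 fun _ => h2
    have h3 : ArithmeticFunction.vonMangoldt n ≠ 0 := by
      intro h2
      apply h1
      unfold wt
      rw [h2]
      ring
    exact ArithmeticFunction.vonMangoldt_ne_zero_iff.1 h3
  rw [tsum_eq_tsum_primes_of_support_subset_prime_powers hfs hsup]
  have hinj : ∀ p : Nat.Primes, Function.Injective fun j : ℕ => (p : ℕ) ^ (j + 1) := fun p =>
    (strictMono_nat_of_lt_succ fun j => Nat.pow_lt_pow_right p.2.one_lt (by omega)).injective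
  have hle : ∀ p : Nat.Primes, ∑' j : ℕ, f ((p : ℕ) ^ (j + 1)) ≤
      if (p : ℕ) ∣ N then k.factorial * 2 ^ k * (5 / 2) * Real.log (p : ℕ) else 0 := by
    intro p
    split_ifs with hpN
    · obtain ⟨g1, g2⟩ := geo p p.2
      have g3 := g1.mul_left (k.factorial * 2 ^ k * Real.log (p : ℕ))
      have h5 : ∑' j : ℕ, f ((p : ℕ) ^ (j + 1)) ≤ (k.factorial * 2 ^ k * Real.log (p : ℕ)) *
          ((√((p : ℕ) : ℝ))⁻¹ * (1 - (√((p : ℕ) : ℝ))⁻¹)⁻¹) := by
        rw [← g3.tsum_eq]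
        refine Summable.tsum_le_tsum (fun j => ?_) (hfs.comp_injective (hinj p)) g3.summable
        exact (Set.indicator_le_self' (fun n _ => wt_nonneg k σ n) _).trans
          (wt_le k j p p.2 σ hσ)
      refine h5.trans ?_
      have h6 : 0 ≤ Real.log (p : ℕ) := Real.log_natCast_nonneg _
      calc (k.factorial * 2 ^ k * Real.log (p : ℕ)) *
          ((√((p : ℕ) : ℝ))⁻¹ * (1 - (√((p : ℕ) : ℝ))⁻¹)⁻¹)
          ≤ (k.factorial * 2 ^ k * Real.log (p : ℕ)) * (5 / 2) :=
            mul_le_mul_of_nonneg_left g2 (by positivity)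
        _ = _ := by ring
    · refine le_of_eq ?_
      have h5 : ∀ j : ℕ, f ((p : ℕ) ^ (j + 1)) = 0 := by
        intro j
        rw [hf]
        refine Set.indicator_of_notMem ?_ _
        intro h6
        apply h6
        exact Nat.Coprime.pow_left _ ((Nat.Prime.coprime_iff_not_dvd p.2).2 hpN)
      rw [tsum_congr h5, tsum_zero]
  have hzero : ∀ p : Nat.Primes, p ∉ N.primeFactors.subtype Nat.Prime →
      (if (p : ℕ) ∣ N then k.factorial * 2 ^ k * (5 / 2) * Real.log (p : ℕ) else 0) = 0 := by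
    intro p hp
    refine if_neg fun h5 => hp ?_
    exact Finset.mem_subtype.2 (Nat.mem_primeFactors.2 ⟨p.2, h5, by omega⟩)
  have hbs : Summable fun p : Nat.Primes =>
      (if (p : ℕ) ∣ N then k.factorial * 2 ^ k * (5 / 2) * Real.log (p : ℕ) else 0) :=
    summable_of_ne_finset_zero hzero
  have h0' : ∀ p : Nat.Primes, 0 ≤ ∑' j : ℕ, f ((p : ℕ) ^ (j + 1)) := fun p =>
    tsum_nonneg fun j => hf0 _
  refine (Summable.tsum_le_tsum hle (Summable.of_nonneg_of_le h0' hle hbs) hbs).trans ?_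
  rw [tsum_eq_sum hzero]
  have h7 : ∑ p ∈ N.primeFactors.subtype Nat.Prime,
      (if (p : ℕ) ∣ N then k.factorial * 2 ^ k * (5 / 2) * Real.log (p : ℕ) else 0) ≤
      ∑ p ∈ N.primeFactors, (k.factorial : ℝ) * 2 ^ k * (5 / 2) * Real.log (p : ℕ) := by
    rw [← Finset.sum_subtype_of_mem (p := Nat.Prime)
      (f := fun p : ℕ => (k.factorial : ℝ) * 2 ^ k * (5 / 2) * Real.log p)
      (fun x hx => Nat.prime_of_mem_primeFactors hx)]
    refine Finset.sum_le_sum fun p _ => ?_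
    split_ifs
    · exact le_rfl
    · have : 0 ≤ Real.log (p : ℕ) := Real.log_natCast_nonneg _
      positivity
  refine h7.trans ?_
  rw [← Finset.mul_sum]
  refine mul_le_mul_of_nonneg_left ?_ (by positivity)
  have h8 : ∑ p ∈ N.primeFactors, Real.log (p : ℕ) =
      Real.log ((∏ p ∈ N.primeFactors, p : ℕ) : ℝ) := by
    rw [Nat.cast_prod, Real.log_prod]
    intro p hp
    exact_mod_cast (Nat.prime_of_mem_primeFactors hp).ne_zero
  rw [h8]
  have h9 : 0 < ∏ p ∈ N.primeFactors, p :=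
    Finset.prod_pos fun p hp => (Nat.prime_of_mem_primeFactors hp).pos
  refine Real.log_le_log (by exact_mod_cast h9) ?_
  exact_mod_cast Nat.le_of_dvd (by omega) (Nat.prod_primeFactors_dvd N)

end MAIN

open MAIN in
theorem MAIN_thm (h : S_SER) : S_MAIN := by
  obtain ⟨C, hC1, hC⟩ := sum_all h
  refine ⟨C + 16, by linarith, fun N hN T hT k => ?_⟩
  have hlog : 0 ≤ Real.log N := Real.log_natCast_nonneg N
  have hT1 : C + 16 ≤ T := by nlinarith
  have hT2 : 16 * Real.log N ≤ T := by nlinarith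
  have hT0 : 0 < T := by linarith
  have hσ : 1 < 1 + 1 / T := by
    have : 0 < 1 / T := by positivity
    linarith
  have h1 := hC T (by linarith) k
  have h2 := not_coprime h N hN k (1 + 1 / T) hσ
  have hs := (h 1 1 k (1 + 1 / T) hσ).1
  have h3 : ∑' n : ℕ, wt k (1 + 1 / T) n =
      ∑' n : ℕ, Set.indicator {n : ℕ | n.Coprime N} (wt k (1 + 1 / T)) n +
      ∑' n : ℕ, Set.indicator {n : ℕ | ¬ n.Coprime N} (wt k (1 + 1 / T)) n := by
    rw [← Summable.tsum_add (hs.indicator _) (hs.indicator _)]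
    refine tsum_congr fun n => ?_
    have h4 := congrFun (Set.indicator_self_add_compl {n : ℕ | n.Coprime N}
      (wt k (1 + 1 / T))) n
    exact h4.symm
  have h5 : (k.factorial : ℝ) * 2 ^ k * (5 / 2) * Real.log N ≤
      k.factorial * T ^ (k + 1) * (1 / 4) := by
    have h6 : (2 : ℝ) ^ k ≤ T ^ k := pow_le_pow_left₀ (by norm_num) (by linarith) k
    have h7 : 5 / 2 * Real.log N ≤ T / 4 := by linarith
    calc (k.factorial : ℝ) * 2 ^ k * (5 / 2) * Real.log N
        = k.factorial * (2 ^ k * (5 / 2 * Real.log N)) := by ring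
      _ ≤ k.factorial * (T ^ k * (T / 4)) := by
          refine mul_le_mul_of_nonneg_left ?_ (by positivity)
          exact mul_le_mul h6 h7 (by positivity) (by positivity)
      _ = k.factorial * T ^ (k + 1) * (1 / 4) := by ring
  linarith

end Pool.Agent.LGP
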