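import Pool.Agent.LGP.Stmts

set_option autoImplicit false

/-!
# LGP_MSQ: the Legendre walk is close to the `5`-adic tower in mean square
-/

namespace Pool.Agent.LGP

namespace MSQ

open Finset Pool.Agent.Lib_helper96.Legendre Pool.Agent.Lib_helper71.LegLevel

lemma sum_E (N : ℕ) (hN : N ≠ 0) (z : ℤ) :
    ∑ n ∈ range N, E N (n * z) = if (N : ℤ) ∣ z then (N : ℂ) else 0 := by
  have : NeZero N := ⟨hN⟩
  have h := sum_range_zmod N (fun x => ZMod.stdAddChar (N := N) (x * (z : ZMod N)))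
  have h2 : ∀ n ∈ range N, E N (n * z) =
      ZMod.stdAddChar (N := N) (((n : ZMod N)) * (z : ZMod N)) := by
    intro n _
    rw [E_eq]
    congr 1
    push_cast
    rfl
  rw [sum_congr rfl h2, h, AddChar.sum_mulShift _ (ZMod.isPrimitive_stdAddChar N), ZMod.card]
  by_cases hz : (N : ℤ) ∣ z
  · rw [if_pos hz, if_pos ((ZMod.intCast_zmod_eq_zero_iff_dvd z N).2 hz)]
  · rw [if_neg hz, if_neg (fun h => hz ((ZMod.intCast_zmod_eq_zero_iff_dvd z N).1 h))]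
    simp

lemma sum_range_five (n : ℕ) (g : ℕ → ℂ) :
    ∑ j ∈ range (5 * n), g j = ∑ a ∈ range n, ∑ b ∈ range 5, g (5 * a + b) := by
  induction n with
  | zero => simp
  | succ n ih =>
    rw [show 5 * (n + 1) = 5 * n + 5 by ring, sum_range_add, ih,
      sum_range_succ (fun a => ∑ b ∈ range 5, g (5 * a + b)) n]

lemma lg_shift (a b : ℕ) : lg 5 ((5 * a + b : ℕ) : ℤ) = lg 5 (b : ℤ) := by
  have h : (((5 * a + b : ℕ) : ℤ) : ZMod 5) = ((b : ℤ) : ZMod 5) := by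
    push_cast
    have : (5 : ZMod 5) = 0 := by decide
    rw [this, zero_mul, zero_add]
  rw [lg, lg, h]

lemma sum_lg_tower (k : ℕ) : ∑ j ∈ range (5 ^ (k + 1)), lg 5 j = 0 := by
  rw [pow_succ, mul_comm, sum_range_five]
  refine sum_eq_zero fun a _ => ?_
  have h1 : ∀ b ∈ range 5, lg 5 ((5 * a + b : ℕ) : ℤ) = lg 5 (b : ℤ) := fun b _ => lg_shift a b
  rw [sum_congr rfl h1]
  exact sum_lg 5 (by norm_num)

lemma full_sum (k : ℕ) (z : ℤ) :
    ∑ j ∈ range (5 ^ (k + 1)), lg 5 j * E (5 ^ (k + 1)) z ^ j =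
      if ((5 : ℤ) ^ k) ∣ z then (5 : ℂ) ^ k * (lg 5 (z / 5 ^ k) * tau 5) else 0 := by
  have h0 : ∑ j ∈ range (5 ^ (k + 1)), lg 5 j * E (5 ^ (k + 1)) z ^ j =
      ∑ a ∈ range (5 ^ k), ∑ b ∈ range 5, lg 5 ((5 * a + b : ℕ) : ℤ) *
        E (5 ^ (k + 1)) z ^ (5 * a + b) := by
    rw [← sum_range_five (5 ^ k) (fun j => lg 5 j * E (5 ^ (k + 1)) z ^ j)]
    rw [show (5 : ℕ) * 5 ^ k = 5 ^ (k + 1) by ring]
  rw [h0]
  have h5 : E (5 ^ (k + 1)) z ^ 5 = E (5 ^ k) z := by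
    rw [E_pow, E, E]
    congr 3
    push_cast
    have : (5 : ℝ) ^ k ≠ 0 := by positivity
    rw [pow_succ]
    field_simp
  have h1 : ∀ a ∈ range (5 ^ k), ∑ b ∈ range 5, lg 5 ((5 * a + b : ℕ) : ℤ) *
        E (5 ^ (k + 1)) z ^ (5 * a + b) =
      E (5 ^ k) (a * z) * ∑ b ∈ range 5, lg 5 (b : ℤ) * E (5 ^ (k + 1)) z ^ b := by
    intro a _
    rw [mul_sum]
    refine sum_congr rfl fun b _ => ?_
    rw [lg_shift, pow_add, pow_mul, h5, E_pow, mul_comm z (a : ℤ)]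
    ring
  rw [sum_congr rfl h1, ← sum_mul, sum_E (5 ^ k) (by positivity) z]
  have hc : (((5 ^ k : ℕ) : ℤ) ∣ z) ↔ ((5 : ℤ) ^ k ∣ z) := by push_cast; rfl
  by_cases hd : (5 : ℤ) ^ k ∣ z
  · rw [if_pos (hc.2 hd), if_pos hd]
    obtain ⟨t, rfl⟩ := hd
    have h2 : (5 : ℤ) ^ k * t / 5 ^ k = t := Int.mul_ediv_cancel_left _ (by positivity)
    have h3 : E (5 ^ (k + 1)) ((5 : ℤ) ^ k * t) = E 5 t := by
      rw [E, E]
      congr 3
      push_cast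
      have : (5 : ℝ) ^ k ≠ 0 := by positivity
      rw [pow_succ]
      field_simp
    rw [h2, h3, sum_lg_E 5 (by norm_num) t]
    push_cast
    ring
  · rw [if_neg (fun h => hd (hc.1 h)), if_neg hd, zero_mul]

/-- the truncation of `f5` -/
noncomputable def g5 (y : ℕ) (z : ℤ) : ℂ := if padicValInt 5 z < y then ((f5 z : ℤ) : ℂ) else 0

lemma tower_sum (y : ℕ) (z : ℤ) (hz : z ≠ 0) :
    ∑ k ∈ range y, (1 / 5 : ℂ) ^ k *
      (if ((5 : ℤ) ^ k) ∣ z then (5 : ℂ) ^ k * (lg 5 (z / 5 ^ k) * tau 5) else 0) =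
      g5 y z * tau 5 := by
  have h1 : ∀ k ∈ range y, (1 / 5 : ℂ) ^ k *
      (if ((5 : ℤ) ^ k) ∣ z then (5 : ℂ) ^ k * (lg 5 (z / 5 ^ k) * tau 5) else 0) =
      if k = padicValInt 5 z then ((f5 z : ℤ) : ℂ) * tau 5 else 0 := by
    intro k _
    have hiff : (5 : ℤ) ^ k ∣ z ↔ k ≤ padicValInt 5 z := by
      have := padicValInt_dvd_iff (p := 5) k z
      push_cast at this
      rw [this]
      simp [hz]
    have h15 : (1 / 5 : ℂ) ^ k * 5 ^ k = 1 := by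
      rw [← mul_pow]; norm_num
    by_cases hk : k = padicValInt 5 z
    · rw [if_pos hk, if_pos (hiff.2 hk.le), ← mul_assoc, h15, one_mul]
      congr 1
      rw [lg, f5, hk]
    · rw [if_neg hk]
      by_cases hd : (5 : ℤ) ^ k ∣ z
      · rw [if_pos hd]
        have hlt : k < padicValInt 5 z := lt_of_le_of_ne (hiff.1 hd) hk
        have hd2 : (5 : ℤ) ^ (k + 1) ∣ z := by
          have := padicValInt_dvd_iff (p := 5) (k + 1) z
          push_cast at this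
          rw [this]
          exact Or.inr hlt
        obtain ⟨t, ht⟩ := hd2
        have h2 : z / 5 ^ k = 5 * t := by
          rw [ht, pow_succ, mul_assoc]
          exact Int.mul_ediv_cancel_left _ (by positivity)
        have h3 : lg 5 (z / 5 ^ k) = 0 := by
          rw [h2, lg]
          have : ((5 * t : ℤ) : ZMod 5) = 0 := by
            push_cast
            have : (5 : ZMod 5) = 0 := by decide
            rw [this, zero_mul]
          rw [this]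
          simp
        rw [h3]; ring
      · rw [if_neg hd, mul_zero]
  rw [sum_congr rfl h1, sum_ite_eq' (range y) (padicValInt 5 z)]
  rw [g5]
  by_cases h : padicValInt 5 z < y
  · rw [if_pos (mem_range.2 h), if_pos h]
  · rw [if_neg (fun h' => h (mem_range.1 h')), if_neg h, zero_mul]

section approx

variable (p : ℕ) [Fact p.Prime]

/-- `H5` as a function -/
noncomputable def G5 (y m : ℕ) : ℂ := H5 p y m

omit [Fact p.Prime] in
lemma time_le (Q j : ℕ) (hQ : 0 < Q) (hj : j ≤ Q) : p * j / Q ≤ p := by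
  calc p * j / Q ≤ p * Q / Q := Nat.div_le_div_right (Nat.mul_le_mul_left _ hj)
    _ = p := Nat.mul_div_cancel _ hQ

lemma time_err_aux (Q j : ℕ) (hQ : 0 < Q) :
    |((p * j / Q : ℕ) : ℝ) / p - (j : ℝ) / Q| ≤ 1 / p := by
  have hq : (0 : ℝ) < Q := by exact_mod_cast hQ
  have hp : (0 : ℝ) < p := by exact_mod_cast (Fact.out : p.Prime).pos
  have h2 : ((p * j / Q : ℕ) : ℝ) ≤ (p : ℝ) * j / Q := by
    have := Nat.cast_div_le (α := ℝ) (m := p * j) (n := Q)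
    push_cast at this
    exact this
  have h3 : (p : ℝ) * j / Q - 1 ≤ ((p * j / Q : ℕ) : ℝ) := by
    have h4 : p * j < Q * (p * j / Q + 1) := Nat.lt_mul_div_succ (p * j) hQ
    have h5 : (p : ℝ) * j < Q * (((p * j / Q : ℕ) : ℝ) + 1) := by exact_mod_cast h4
    rw [sub_le_iff_le_add, div_le_iff₀ hq]
    nlinarith
  have h6 : (j : ℝ) / Q = ((p : ℝ) * j / Q) / p := by field_simp
  rw [h6, div_sub_div_same, abs_div, abs_of_pos hp]
  refine div_le_div_of_nonneg_right ?_ hp.le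
  rw [abs_le]
  constructor <;> linarith

lemma time_err (Q j : ℕ) (hQ : 0 < Q) (z : ℤ) :
    |((z * (p * j / Q : ℕ) : ℤ) : ℝ) / p - ((z * j : ℤ) : ℝ) / Q| ≤ |(z : ℝ)| / p := by
  have h1 : ((z * (p * j / Q : ℕ) : ℤ) : ℝ) / p - ((z * j : ℤ) : ℝ) / Q =
      (z : ℝ) * (((p * j / Q : ℕ) : ℝ) / p - (j : ℝ) / Q) := by
    rw [Int.cast_mul, Int.cast_mul, Int.cast_natCast, Int.cast_natCast]
    ring
  rw [h1, abs_mul]
  calc |(z : ℝ)| * |((p * j / Q : ℕ) : ℝ) / p - (j : ℝ) / Q| ≤ |(z : ℝ)| * (1 / p) :=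
        mul_le_mul_of_nonneg_left (time_err_aux p Q j hQ) (abs_nonneg _)
    _ = |(z : ℝ)| / p := by ring

lemma hat_H5_eq (y : ℕ) (z : ℤ) :
    hat p (G5 p y) z = hat p (walk p id (fun j => lg p j)) z -
      tau p / tau 5 * ∑ k ∈ range y, (1 / 5 : ℂ) ^ k * hat p (W5 p k) z := by
  have h1 : hat p (G5 p y) z = ∑ m ∈ range p, (walk p id (fun j => lg p j) m -
      tau p / tau 5 * ∑ k ∈ range y, (1 / 5 : ℂ) ^ k * W5 p k m) * E p z ^ m := by
    rw [hat]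
    refine sum_congr rfl fun m hm => ?_
    rw [G5, H5, walk_id p m (mem_range.1 hm)]
  rw [h1]
  simp only [sub_mul, sum_sub_distrib]
  congr 1
  simp only [hat, mul_sum, sum_mul]
  rw [sum_comm]
  refine sum_congr rfl fun k _ => sum_congr rfl fun m _ => ?_
  ring

lemma hat_H5 (hp : p ≠ 2) (y : ℕ) (z : ℤ) (hz : z ≠ 0) :
    ‖(1 - E p z) * hat p (G5 p y) z‖ ≤ Real.sqrt p * ‖lg p z - g5 y z‖ +
      Real.sqrt p / Real.sqrt 5 * (5 * y * (2 * Real.pi * (|(z : ℝ)| / p))) := by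
  have hp0 : p ≠ 0 := (Fact.out : p.Prime).ne_zero
  have htp : ‖tau p‖ = Real.sqrt p := by
    rw [← norm_tau p hp, Real.sqrt_sq (norm_nonneg _)]
  have htq : ‖tau 5‖ = Real.sqrt 5 := by
    have := norm_tau 5 (by norm_num)
    have h5 : ((5 : ℕ) : ℝ) = 5 := by norm_num
    rw [h5] at this
    rw [← this, Real.sqrt_sq (norm_nonneg _)]
  have htq0 : tau 5 ≠ 0 := by
    intro h
    rw [h, norm_zero] at htq
    have : (0 : ℝ) < Real.sqrt 5 := Real.sqrt_pos.2 (by norm_num)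
    linarith
  have h1 := hat_walk p p hp0 id (fun j => lg p j) (fun j hj => hj.le) (sum_lg p hp) z
  have h2 : ∀ k, (1 - E p z) * hat p (W5 p k) z =
      ∑ j ∈ range (5 ^ (k + 1)), lg 5 j * E p z ^ (p * j / 5 ^ (k + 1)) := by
    intro k
    exact hat_walk p (5 ^ (k + 1)) hp0 (fun j => p * j / 5 ^ (k + 1)) (fun j => lg 5 j)
      (fun j hj => time_le p _ j (by positivity) hj.le) (sum_lg_tower k) z
  have h3 : (1 - E p z) * hat p (G5 p y) z =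
      tau p * (lg p z - g5 y z) - tau p / tau 5 *
        ∑ k ∈ range y, (1 / 5 : ℂ) ^ k * ∑ j ∈ range (5 ^ (k + 1)),
          lg 5 j * (E p z ^ (p * j / 5 ^ (k + 1)) - E (5 ^ (k + 1)) z ^ j) := by
    have h5 : (1 - E p z) * ∑ k ∈ range y, (1 / 5 : ℂ) ^ k * hat p (W5 p k) z =
        ∑ k ∈ range y, (1 / 5 : ℂ) ^ k *
          ∑ j ∈ range (5 ^ (k + 1)), lg 5 j * E p z ^ (p * j / 5 ^ (k + 1)) := by
      rw [mul_sum]
      refine sum_congr rfl fun k _ => ?_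
      rw [← h2 k]
      ring
    have h6 : ∑ k ∈ range y, (1 / 5 : ℂ) ^ k * ∑ j ∈ range (5 ^ (k + 1)),
          lg 5 j * (E p z ^ (p * j / 5 ^ (k + 1)) - E (5 ^ (k + 1)) z ^ j) =
        (∑ k ∈ range y, (1 / 5 : ℂ) ^ k *
          ∑ j ∈ range (5 ^ (k + 1)), lg 5 j * E p z ^ (p * j / 5 ^ (k + 1))) -
          g5 y z * tau 5 := by
      rw [← tower_sum y z hz, ← sum_sub_distrib]
      refine sum_congr rfl fun k _ => ?_
      rw [← full_sum k z]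
      simp only [mul_sub, sum_sub_distrib]
    rw [h6, hat_H5_eq, mul_sub, h1, mul_left_comm, h5]
    simp only [id]
    rw [sum_lg_E p hp z]
    field_simp
    ring
  rw [h3]
  refine (norm_sub_le _ _).trans ?_
  rw [norm_mul, norm_mul, norm_div, htp, htq]
  refine add_le_add le_rfl (mul_le_mul_of_nonneg_left ?_ (by positivity))
  refine (norm_sum_le _ _).trans ?_
  have h7 : ∀ k ∈ range y, ‖(1 / 5 : ℂ) ^ k * ∑ j ∈ range (5 ^ (k + 1)),
      lg 5 j * (E p z ^ (p * j / 5 ^ (k + 1)) - E (5 ^ (k + 1)) z ^ j)‖ ≤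
      5 * (2 * Real.pi * (|(z : ℝ)| / p)) := by
    intro k _
    rw [norm_mul]
    have h8 : ‖∑ j ∈ range (5 ^ (k + 1)),
        lg 5 j * (E p z ^ (p * j / 5 ^ (k + 1)) - E (5 ^ (k + 1)) z ^ j)‖ ≤
        (5 : ℝ) ^ (k + 1) * (2 * Real.pi * (|(z : ℝ)| / p)) := by
      refine (norm_sum_le _ _).trans ?_
      have h9 : ∀ j ∈ range (5 ^ (k + 1)),
          ‖lg 5 j * (E p z ^ (p * j / 5 ^ (k + 1)) - E (5 ^ (k + 1)) z ^ j)‖ ≤
          2 * Real.pi * (|(z : ℝ)| / p) := by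
        intro j _
        rw [norm_mul]
        have h6 : ‖E p z ^ (p * j / 5 ^ (k + 1)) - E (5 ^ (k + 1)) z ^ j‖ ≤
            2 * Real.pi * (|(z : ℝ)| / p) := by
          rw [E_pow, E_pow]
          refine (E_sub_E _ _ _ _).trans ?_
          exact mul_le_mul_of_nonneg_left (time_err p (5 ^ (k + 1)) j (by positivity) z)
            (by positivity)
        calc ‖lg 5 j‖ * ‖E p z ^ (p * j / 5 ^ (k + 1)) - E (5 ^ (k + 1)) z ^ j‖
            ≤ 1 * ‖E p z ^ (p * j / 5 ^ (k + 1)) - E (5 ^ (k + 1)) z ^ j‖ :=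
              mul_le_mul_of_nonneg_right (lg_norm_le 5 _) (norm_nonneg _)
          _ ≤ _ := by rw [one_mul]; exact h6
      refine (sum_le_sum h9).trans ?_
      rw [sum_const, card_range, nsmul_eq_mul]
      push_cast
      exact le_rfl
    have h10 : ‖(1 / 5 : ℂ) ^ k‖ = (1 / 5 : ℝ) ^ k := by
      rw [norm_pow]; norm_num
    rw [h10]
    calc (1 / 5 : ℝ) ^ k * ‖∑ j ∈ range (5 ^ (k + 1)),
        lg 5 j * (E p z ^ (p * j / 5 ^ (k + 1)) - E (5 ^ (k + 1)) z ^ j)‖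
        ≤ (1 / 5 : ℝ) ^ k * ((5 : ℝ) ^ (k + 1) * (2 * Real.pi * (|(z : ℝ)| / p))) :=
          mul_le_mul_of_nonneg_left h8 (by positivity)
      _ = ((1 / 5 : ℝ) ^ k * 5 ^ k) * 5 * (2 * Real.pi * (|(z : ℝ)| / p)) := by ring
      _ = 5 * (2 * Real.pi * (|(z : ℝ)| / p)) := by
          rw [← mul_pow]; norm_num
  refine (sum_le_sum h7).trans ?_
  rw [sum_const, card_range, nsmul_eq_mul]
  exact le_of_eq (by ring)

/-- the discrepancy weight -/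
noncomputable def Dr (r y k : ℕ) : ℝ :=
  (if r ≠ 1 ∧ r ∣ k then 4 else 0) + (if y < k then 4 else 0)

lemma f5_norm_le (z : ℤ) : ‖((f5 z : ℤ) : ℂ)‖ ≤ 1 := by
  rw [f5]
  rcases quadraticChar_isQuadratic (ZMod 5)
    ((z / 5 ^ padicValInt 5 z : ℤ) : ZMod 5) with h | h | h <;> rw [h] <;> simp

lemma g5_norm_le (y : ℕ) (z : ℤ) : ‖g5 y z‖ ≤ 1 := by
  rw [g5]
  split_ifs
  · exact f5_norm_le z
  · simp

lemma val_lt (y : ℕ) (z : ℤ) (hz : z ≠ 0) (hy : z.natAbs ≤ y) : padicValInt 5 z < y := by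
  have h1 : (5 : ℤ) ^ padicValInt 5 z ∣ z := by
    have := padicValInt_dvd (p := 5) z
    push_cast at this
    exact this
  have h2 : 5 ^ padicValInt 5 z ∣ z.natAbs := by
    have := Int.natAbs_dvd_natAbs.2 h1
    rw [Int.natAbs_pow] at this
    exact this
  have h3 : 5 ^ padicValInt 5 z ≤ z.natAbs := Nat.le_of_dvd (Int.natAbs_pos.2 hz) h2
  have h4 : padicValInt 5 z < 5 ^ padicValInt 5 z := Nat.lt_pow_self (by norm_num)
  omega

lemma hat_H5_sq (hp : p ≠ 2) (y r : ℕ)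
    (him : ∀ z : ℤ, z ≠ 0 → z.natAbs ≤ y → (r = 1 ∨ ¬ (r : ℤ) ∣ z) →
      quadraticChar (ZMod p) (z : ZMod p) = f5 z)
    (z : ℤ) (hz0 : z ≠ 0) (hz : 2 * z.natAbs ≤ p) :
    ‖hat p (G5 p y) z‖ ^ 2 ≤ (p : ℝ) ^ 3 / 8 * (Dr r y z.natAbs * ((z.natAbs : ℝ) ^ 2)⁻¹) +
      25 * p * (y : ℝ) ^ 2 := by
  have hpp : (0 : ℝ) < p := by exact_mod_cast (Fact.out : p.Prime).pos
  set k : ℝ := (z.natAbs : ℝ) with hk
  have hk0 : 0 < k := by
    rw [hk]; exact_mod_cast Int.natAbs_pos.2 hz0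
  have habs : |(z : ℝ)| = k := by
    rw [hk, Nat.cast_natAbs]; push_cast; rfl
  have h1 := hat_H5 p hp y z hz0
  rw [norm_mul, habs] at h1
  have h2 := one_sub_E p (Fact.out : p.Prime).pos z hz
  rw [← hk] at h2
  set d : ℝ := ‖lg p z - g5 y z‖ with hd
  have hd0 : 0 ≤ d := norm_nonneg _
  have hd2 : d ≤ 2 := by
    rw [hd]
    refine (norm_sub_le _ _).trans ?_
    have := lg_norm_le p z
    have := g5_norm_le y z
    linarith
  -- the discrepancy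
  have hdd : d ^ 2 ≤ Dr r y z.natAbs := by
    rw [Dr]
    by_cases hy : y < z.natAbs
    · rw [if_pos hy]
      have : (0 : ℝ) ≤ if r ≠ 1 ∧ r ∣ z.natAbs then 4 else 0 := by split_ifs <;> norm_num
      nlinarith
    · rw [if_neg hy, add_zero]
      by_cases hqz : r ≠ 1 ∧ r ∣ z.natAbs
      · rw [if_pos hqz]
        nlinarith
      · rw [if_neg hqz]
        have hr : r = 1 ∨ ¬ (r : ℤ) ∣ z := by
          by_cases h : r = 1
          · exact Or.inl h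
          · exact Or.inr (fun h' => hqz ⟨h, Int.natCast_dvd.1 h'⟩)
        have h3 := him z hz0 (by omega) hr
        have h4 : d = 0 := by
          rw [hd, lg, g5, if_pos (val_lt y z hz0 (by omega)), h3, sub_self, norm_zero]
        rw [h4]; norm_num
  have h5 : 4 * k / p * ‖hat p (G5 p y) z‖ ≤ Real.sqrt p * d +
      Real.sqrt p / Real.sqrt 5 * (5 * y * (2 * Real.pi * (k / p))) :=
    (mul_le_mul_of_nonneg_right h2 (norm_nonneg _)).trans h1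
  have hsp : Real.sqrt p ^ 2 = p := Real.sq_sqrt hpp.le
  have hsq : Real.sqrt 5 ^ 2 = 5 := Real.sq_sqrt (by norm_num)
  have hsp0 : 0 < Real.sqrt p := Real.sqrt_pos.2 hpp
  have hsq0 : 0 < Real.sqrt 5 := Real.sqrt_pos.2 (by norm_num)
  have h6 : Real.sqrt p / Real.sqrt 5 * (5 * y * (2 * Real.pi * (k / p))) =
      4 * k / p * (Real.pi / 2 * (Real.sqrt p * Real.sqrt 5 * y)) := by
    have : (5 : ℝ) / Real.sqrt 5 = Real.sqrt 5 := by
      rw [div_eq_iff hsq0.ne', ← sq, hsq]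
    calc Real.sqrt p / Real.sqrt 5 * (5 * y * (2 * Real.pi * (k / p))) =
        Real.sqrt p * (5 / Real.sqrt 5) * y * (2 * Real.pi * (k / p)) := by ring
      _ = Real.sqrt p * Real.sqrt 5 * y * (2 * Real.pi * (k / p)) := by rw [this]
      _ = 4 * k / p * (Real.pi / 2 * (Real.sqrt p * Real.sqrt 5 * y)) := by ring
  have h7 : ‖hat p (G5 p y) z‖ ≤ Real.sqrt p * d * (p / (4 * k)) +
      Real.pi / 2 * (Real.sqrt p * Real.sqrt 5 * y) := by
    rw [h6] at h5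
    have hc : 0 < 4 * k / p := by positivity
    have h8 : Real.sqrt p * d = 4 * k / p * (Real.sqrt p * d * (p / (4 * k))) := by
      field_simp
    rw [h8, ← mul_add] at h5
    exact le_of_mul_le_mul_left h5 hc
  have h9 : ‖hat p (G5 p y) z‖ ^ 2 ≤ 2 * (Real.sqrt p * d * (p / (4 * k))) ^ 2 +
      2 * (Real.pi / 2 * (Real.sqrt p * Real.sqrt 5 * y)) ^ 2 := by
    have h10 : ‖hat p (G5 p y) z‖ ^ 2 ≤ (Real.sqrt p * d * (p / (4 * k)) +
      Real.pi / 2 * (Real.sqrt p * Real.sqrt 5 * y)) ^ 2 :=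
      pow_le_pow_left₀ (norm_nonneg _) h7 2
    nlinarith [sq_nonneg (Real.sqrt p * d * (p / (4 * k)) -
      Real.pi / 2 * (Real.sqrt p * Real.sqrt 5 * y))]
  have h11 : (Real.sqrt p * d * (p / (4 * k))) ^ 2 = (p : ℝ) ^ 3 / 16 * (d ^ 2 * (k ^ 2)⁻¹) := by
    have : (Real.sqrt p * d * (p / (4 * k))) ^ 2 =
        Real.sqrt p ^ 2 * d ^ 2 * (p / (4 * k)) ^ 2 := by ring
    rw [this, hsp]
    field_simp
    ring
  have h12 : (Real.pi / 2 * (Real.sqrt p * Real.sqrt 5 * y)) ^ 2 =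
      Real.pi ^ 2 / 4 * (5 * p * (y : ℝ) ^ 2) := by
    have : (Real.pi / 2 * (Real.sqrt p * Real.sqrt 5 * y)) ^ 2 =
      Real.pi ^ 2 / 4 * (Real.sqrt 5 ^ 2 * Real.sqrt p ^ 2 * (y : ℝ) ^ 2) := by ring
    rw [this, hsp, hsq]
  have hpi : Real.pi ^ 2 ≤ 10 := by
    have := Real.pi_lt_d2
    nlinarith [Real.pi_pos]
  rw [h11, h12] at h9
  have h13 : d ^ 2 * (k ^ 2)⁻¹ ≤ Dr r y z.natAbs * (k ^ 2)⁻¹ :=
    mul_le_mul_of_nonneg_right hdd (by positivity)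
  have h14 : (p : ℝ) ^ 3 / 16 * (d ^ 2 * (k ^ 2)⁻¹) ≤
      (p : ℝ) ^ 3 / 16 * (Dr r y z.natAbs * (k ^ 2)⁻¹) :=
    mul_le_mul_of_nonneg_left h13 (by positivity)
  have h15 : Real.pi ^ 2 / 4 * (5 * (p : ℝ) * (y : ℝ) ^ 2) ≤ 10 / 4 * (5 * p * (y : ℝ) ^ 2) := by
    apply mul_le_mul_of_nonneg_right _ (by positivity)
    linarith
  linarith

lemma sum_sq_dvd_four (h r : ℕ) (hr : 0 < r) :
    ∑ k ∈ Ico 1 (h + 1), (if r ≠ 1 ∧ r ∣ k then (4 : ℝ) else 0) * (((k : ℝ)) ^ 2)⁻¹ ≤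
      8 / (r : ℝ) ^ 2 := by
  have hqr : (0 : ℝ) < r := by exact_mod_cast hr
  have h0 : ∀ k ∈ Ico 1 (h + 1), (if r ≠ 1 ∧ r ∣ k then (4 : ℝ) else 0) * (((k : ℝ)) ^ 2)⁻¹ ≤
      if r ∣ k then 4 * (((k : ℝ)) ^ 2)⁻¹ else 0 := by
    intro k _
    by_cases h1 : r ∣ k
    · rw [if_pos h1]
      apply mul_le_mul_of_nonneg_right _ (by positivity)
      split_ifs <;> norm_num
    · rw [if_neg h1, if_neg (fun h' => h1 h'.2), zero_mul]
  refine (sum_le_sum h0).trans ?_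
  rw [← sum_filter]
  have h2 : (Ico 1 (h + 1)).filter (fun k => r ∣ k) ⊆ (Ioo 0 (h + 1)).image (fun m => r * m) := by
    intro k hk
    rw [mem_filter, mem_Ico] at hk
    obtain ⟨⟨hk1, hk2⟩, m, rfl⟩ := hk
    rw [mem_image]
    refine ⟨m, ?_, rfl⟩
    rw [mem_Ioo]
    refine ⟨?_, ?_⟩
    · rcases Nat.eq_zero_or_pos m with h | h
      · rw [h] at hk1; omega
      · exact h
    · calc m = 1 * m := (one_mul m).symm
        _ ≤ r * m := Nat.mul_le_mul_right m hr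
        _ < h + 1 := hk2
  refine (sum_le_sum_of_subset_of_nonneg h2 (fun k _ _ => by positivity)).trans ?_
  rw [sum_image (by intro a _ b _ hab; exact Nat.eq_of_mul_eq_mul_left hr hab)]
  have h3 : ∀ m ∈ Ioo 0 (h + 1), 4 * ((((r * m : ℕ)) : ℝ) ^ 2)⁻¹ =
      (4 * ((r : ℝ) ^ 2)⁻¹) * ((m : ℝ) ^ 2)⁻¹ := by
    intro m _
    push_cast
    rw [mul_pow, mul_inv]
    ring
  rw [sum_congr rfl h3, ← mul_sum]
  have h4 := sum_Ioo_inv_sq_le (α := ℝ) 0 (h + 1)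
  have h5 : (2 : ℝ) / (((0 : ℕ) : ℝ) + 1) = 2 := by norm_num
  rw [h5] at h4
  calc (4 * ((r : ℝ) ^ 2)⁻¹) * ∑ i ∈ Ioo 0 (h + 1), ((i : ℝ) ^ 2)⁻¹ ≤
      (4 * ((r : ℝ) ^ 2)⁻¹) * 2 :=
        mul_le_mul_of_nonneg_left h4 (by positivity)
    _ = 8 / (r : ℝ) ^ 2 := by ring

lemma sum_Dr (h y r : ℕ) (hy : 10 ≤ y) (hr : r = 1 ∨ y < 2 * r) :
    ∑ k ∈ Ico 1 (h + 1), Dr r y k * ((k : ℝ) ^ 2)⁻¹ ≤ 12 / (y : ℝ) := by
  have hyr : (10 : ℝ) ≤ y := by exact_mod_cast hy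
  have h1 : ∀ k ∈ Ico 1 (h + 1), Dr r y k * ((k : ℝ) ^ 2)⁻¹ =
      (if r ≠ 1 ∧ r ∣ k then (4 : ℝ) else 0) * (((k : ℝ)) ^ 2)⁻¹ +
      (if y < k then (4 : ℝ) else 0) * (((k : ℝ)) ^ 2)⁻¹ := by
    intro k _
    rw [Dr]; ring
  rw [sum_congr rfl h1, sum_add_distrib]
  have h2 := sum_sq_tail h y
  have h3 : (8 : ℝ) / ((y : ℝ) + 1) ≤ 8 / y :=
    div_le_div_of_nonneg_left (by norm_num) (by linarith) (by linarith)
  have h4 : ∑ k ∈ Ico 1 (h + 1), (if r ≠ 1 ∧ r ∣ k then (4 : ℝ) else 0) * (((k : ℝ)) ^ 2)⁻¹ ≤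
      4 / (y : ℝ) := by
    by_cases hr1 : r = 1
    · have : ∀ k ∈ Ico 1 (h + 1),
          (if r ≠ 1 ∧ r ∣ k then (4 : ℝ) else 0) * (((k : ℝ)) ^ 2)⁻¹ = 0 := by
        intro k _
        rw [if_neg (fun h' => h'.1 hr1), zero_mul]
      rw [sum_eq_zero this]
      positivity
    · have hr2 : y < 2 * r := hr.resolve_left hr1
      have hr3 : (y : ℝ) < 2 * r := by exact_mod_cast hr2
      have h5 := sum_sq_dvd_four h r (by omega)
      refine h5.trans ?_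
      rw [div_le_div_iff₀ (by nlinarith) (by linarith)]
      nlinarith
  have h6 : (12 : ℝ) / y = 4 / y + 8 / y := by ring
  rw [h6]
  linarith

theorem main (y r : ℕ) (hy : 10 ≤ y) (hyp : y ^ 4 ≤ p) (hr : r = 1 ∨ y < 2 * r)
    (him : ∀ z : ℤ, z ≠ 0 → z.natAbs ≤ y → (r = 1 ∨ ¬ (r : ℤ) ∣ z) →
      quadraticChar (ZMod p) (z : ZMod p) = f5 z) :
    ∃ μ : ℂ, ∑ m ∈ range p, ‖G5 p y m - μ‖ ^ 2 ≤ 30 * (p : ℝ) ^ 2 / y := by
  have hp : p ≠ 2 := by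
    have : 10 ^ 4 ≤ y ^ 4 := Nat.pow_le_pow_left hy 4
    omega
  have hpp : (0 : ℝ) < p := by exact_mod_cast (Fact.out : p.Prime).pos
  have hyr : (10 : ℝ) ≤ y := by exact_mod_cast hy
  refine ⟨(∑ i ∈ range p, G5 p y i) / p, ?_⟩
  have hmf := meanfree p (G5 p y)
  obtain ⟨h, hh⟩ := (Fact.out : p.Prime).odd_of_ne_two hp
  have hsplit : ∑ n ∈ Ico 1 p, ‖hat p (G5 p y) n‖ ^ 2 =
      ∑ k ∈ Ico 1 (h + 1), (‖hat p (G5 p y) (k : ℤ)‖ ^ 2 + ‖hat p (G5 p y) (-(k : ℤ))‖ ^ 2) := by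
    rw [← Finset.sum_Ico_consecutive _ (show 1 ≤ h + 1 by omega) (show h + 1 ≤ p by omega),
      sum_add_distrib]
    congr 1
    have hr := Finset.sum_Ico_reflect (fun n : ℕ => ‖hat p (G5 p y) (n : ℤ)‖ ^ 2) 1
      (m := h + 1) (n := p) (by omega)
    have e1 : p + 1 - (h + 1) = h + 1 := by omega
    have e2 : p + 1 - 1 = p := by omega
    rw [e1, e2] at hr
    rw [← hr]
    refine sum_congr rfl fun k hk => ?_
    have hk' := mem_Ico.1 hk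
    have : ((p - k : ℕ) : ℤ) = -(k : ℤ) + p * 1 := by
      rw [Nat.cast_sub (by omega)]; ring
    rw [this, hat_periodic p (by omega)]
  have hb : ∀ k ∈ Ico 1 (h + 1),
      (‖hat p (G5 p y) (k : ℤ)‖ ^ 2 + ‖hat p (G5 p y) (-(k : ℤ))‖ ^ 2) ≤
      (p : ℝ) ^ 3 / 4 * (Dr r y k * ((k : ℝ) ^ 2)⁻¹) + 50 * p * (y : ℝ) ^ 2 := by
    intro k hk
    have hk' := mem_Ico.1 hk
    have h1 := hat_H5_sq p hp y r him (k : ℤ) (by omega) (by simp; omega)
    have h2 := hat_H5_sq p hp y r him (-(k : ℤ)) (by omega) (by simp; omega)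
    simp only [Int.natAbs_natCast, Int.natAbs_neg] at h1 h2
    linarith
  have hsum := sum_le_sum hb
  rw [← hsplit, ← hmf] at hsum
  have hD : ∑ k ∈ Ico 1 (h + 1), ((p : ℝ) ^ 3 / 4 * (Dr r y k * ((k : ℝ) ^ 2)⁻¹) +
      50 * p * (y : ℝ) ^ 2) ≤ (p : ℝ) ^ 3 / 4 * (12 / (y : ℝ)) + 25 * (p : ℝ) ^ 2 * (y : ℝ) ^ 2 := by
    rw [sum_add_distrib, ← mul_sum, sum_const, nsmul_eq_mul, Nat.card_Ico]
    have h2 : ((h + 1 - 1 : ℕ) : ℝ) * (50 * p * (y : ℝ) ^ 2) ≤ 25 * (p : ℝ) ^ 2 * (y : ℝ) ^ 2 := by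
      have e : ((h + 1 - 1 : ℕ) : ℝ) = h := by simp
      have e2 : (p : ℝ) = 2 * h + 1 := by exact_mod_cast hh
      rw [e]
      have : (h : ℝ) ≤ p / 2 := by linarith
      calc (h : ℝ) * (50 * p * (y : ℝ) ^ 2) ≤ p / 2 * (50 * p * (y : ℝ) ^ 2) :=
            mul_le_mul_of_nonneg_right this (by positivity)
        _ = 25 * (p : ℝ) ^ 2 * (y : ℝ) ^ 2 := by ring
    exact add_le_add (mul_le_mul_of_nonneg_left (sum_Dr h y r hy hr) (by positivity)) h2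
  have hall := hsum.trans hD
  have hyp' : (y : ℝ) ^ 4 ≤ p := by exact_mod_cast hyp
  have h9 : 25 * (p : ℝ) ^ 2 * (y : ℝ) ^ 2 ≤ 25 * (p : ℝ) ^ 3 / y := by
    rw [le_div_iff₀ (by linarith)]
    have h10 : (y : ℝ) ^ 3 ≤ y ^ 4 := by
      have : (y : ℝ) ^ 4 = y ^ 3 * y := by ring
      rw [this]
      have h11 : (0 : ℝ) ≤ (y : ℝ) ^ 3 := by positivity
      nlinarith
    calc 25 * (p : ℝ) ^ 2 * (y : ℝ) ^ 2 * y = 25 * (p : ℝ) ^ 2 * (y : ℝ) ^ 3 := by ring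
      _ ≤ 25 * (p : ℝ) ^ 2 * p :=
          mul_le_mul_of_nonneg_left (h10.trans hyp') (by positivity)
      _ = 25 * (p : ℝ) ^ 3 := by ring
  have h11 : (p : ℝ) ^ 3 / 4 * (12 / (y : ℝ)) + 25 * (p : ℝ) ^ 3 / y ≤
      p * (30 * (p : ℝ) ^ 2 / y) := by
    have h12 : (p : ℝ) ^ 3 / 4 * (12 / (y : ℝ)) + 25 * (p : ℝ) ^ 3 / y = 28 * ((p : ℝ) ^ 3 / y) := by
      ring
    have h13 : p * (30 * (p : ℝ) ^ 2 / y) = 30 * ((p : ℝ) ^ 3 / y) := by ring
    rw [h12, h13]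
    have : 0 ≤ (p : ℝ) ^ 3 / y := by positivity
    linarith
  have h12 : (p : ℝ) * ∑ m ∈ range p, ‖G5 p y m - (∑ i ∈ range p, G5 p y i) / p‖ ^ 2 ≤
      p * (30 * (p : ℝ) ^ 2 / y) := by linarith
  exact le_of_mul_le_mul_left h12 hpp

end approx

end MSQ

/-- the Legendre walk is close to the tower in mean square -/
theorem MSQ_thm : S_MSQ := by
  refine ⟨30, by norm_num, ?_⟩
  intro p _ y r hy hyp hr him
  exact MSQ.main p y r hy hyp hr him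

end Pool.Agent.LGP
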