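import Pool.Agent.LGP.Stmts
import Pool.Agent.Mld.Lbd

set_option autoImplicit false

/-!
# LGP_PAIR: two real characters do not both have a zero near `1` (helper15)
-/

namespace Pool.Agent.LGP

open Finset

namespace PAIR

/-- values of a real character -/
theorem real_values {N : ℕ} (χ : DirichletCharacter ℂ N) (h : χ ^ 2 = 1) (a : ZMod N) :
    ∃ r : ℝ, -1 ≤ r ∧ χ a = (r : ℂ) := by
  by_cases ha : IsUnit a
  · have h1 : (χ a) ^ 2 = 1 := by
      have h2 : (χ ^ 2) a = 1 := by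
        rw [h, MulChar.one_apply ha]
      rwa [MulChar.pow_apply' χ two_ne_zero] at h2
    rcases sq_eq_one_iff.1 h1 with h3 | h3
    · exact ⟨1, by norm_num, by rw [h3]; simp⟩
    · exact ⟨-1, le_refl _, by rw [h3]; simp⟩
  · exact ⟨0, by norm_num, by rw [χ.map_nonunit ha]; simp⟩

/-- the twisted logarithmic derivative as a series -/
theorem ld_eq {N : ℕ} [NeZero N] (χ : DirichletCharacter ℂ N) {s : ℂ} (hs : 1 < s.re) :
    LSeries ((fun n : ℕ => χ n) * fun n : ℕ => (ArithmeticFunction.vonMangoldt n : ℂ)) s =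
      -ld χ s := by
  unfold ld
  rw [DirichletCharacter.LSeries_twist_vonMangoldt_eq χ hs,
    DirichletCharacter.deriv_LFunction_eq_deriv_LSeries χ hs,
    DirichletCharacter.LFunction_eq_LSeries χ hs, neg_div]

/-- positivity -/
theorem pos {N : ℕ} [NeZero N] (χ₁ χ₂ : DirichletCharacter ℂ N) (h₁ : χ₁ ^ 2 = 1)
    (h₂ : χ₂ ^ 2 = 1) (σ : ℝ) (hσ : 1 < σ) :
    0 ≤ (-(deriv riemannZeta (σ : ℂ) / riemannZeta (σ : ℂ)) - ld χ₁ σ - ld χ₂ σ -
      ld (χ₁ * χ₂) σ).re := by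
  have hs : 1 < ((σ : ℝ) : ℂ).re := by simpa using hσ
  set V : ℕ → ℂ := fun n => (ArithmeticFunction.vonMangoldt n : ℂ) with hV
  have s0 : LSeriesSummable V σ := ArithmeticFunction.LSeriesSummable_vonMangoldt hs
  have s1 : LSeriesSummable ((fun n : ℕ => χ₁ n) * V) σ :=
    DirichletCharacter.LSeriesSummable_twist_vonMangoldt χ₁ hs
  have s2 : LSeriesSummable ((fun n : ℕ => χ₂ n) * V) σ :=
    DirichletCharacter.LSeriesSummable_twist_vonMangoldt χ₂ hs
  have s3 : LSeriesSummable ((fun n : ℕ => (χ₁ * χ₂) n) * V) σ :=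
    DirichletCharacter.LSeriesSummable_twist_vonMangoldt (χ₁ * χ₂) hs
  have e0 : LSeries V σ = -(deriv riemannZeta (σ : ℂ) / riemannZeta (σ : ℂ)) := by
    rw [← neg_div]
    exact ArithmeticFunction.LSeries_vonMangoldt_eq_deriv_riemannZeta_div hs
  have e1 := ld_eq χ₁ hs
  have e2 := ld_eq χ₂ hs
  have e3 := ld_eq (χ₁ * χ₂) hs
  have s4 := ((s0.add s1).add s2).add s3
  have e4 : -(deriv riemannZeta (σ : ℂ) / riemannZeta (σ : ℂ)) - ld χ₁ σ - ld χ₂ σ -
      ld (χ₁ * χ₂) σ = LSeries (V + (fun n : ℕ => χ₁ n) * V + (fun n : ℕ => χ₂ n) * V +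
        (fun n : ℕ => (χ₁ * χ₂) n) * V) σ := by
    rw [LSeries_add ((s0.add s1).add s2) s3, LSeries_add (s0.add s1) s2, LSeries_add s0 s1,
      e0, e1, e2, e3]
    ring
  rw [e4, LSeries, Complex.re_tsum s4]
  refine tsum_nonneg fun n => ?_
  rcases eq_or_ne n 0 with rfl | hn
  · simp
  · rw [LSeries.term_of_ne_zero hn]
    obtain ⟨r₁, hr₁, hc₁⟩ := real_values χ₁ h₁ (n : ZMod N)
    obtain ⟨r₂, hr₂, hc₂⟩ := real_values χ₂ h₂ (n : ZMod N)
    have e5 : (n : ℂ) ^ ((σ : ℝ) : ℂ) = (((n : ℝ) ^ σ : ℝ) : ℂ) := by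
      rw [Complex.ofReal_cpow (Nat.cast_nonneg n)]
      simp
    have e6 : (V + (fun n : ℕ => χ₁ n) * V + (fun n : ℕ => χ₂ n) * V +
        (fun n : ℕ => (χ₁ * χ₂) n) * V) n / (n : ℂ) ^ ((σ : ℝ) : ℂ) =
        (((1 + r₁) * (1 + r₂) * ArithmeticFunction.vonMangoldt n / (n : ℝ) ^ σ : ℝ) : ℂ) := by
      rw [e5]
      simp only [Pi.add_apply, Pi.mul_apply, MulChar.mul_apply, hc₁, hc₂, hV]
      push_cast
      ring
    rw [e6, Complex.ofReal_re]
    have := ArithmeticFunction.vonMangoldt_nonneg (n := n)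
    have h3 : 0 ≤ (n : ℝ) ^ σ := Real.rpow_nonneg (Nat.cast_nonneg n) σ
    have h4 : 0 ≤ 1 + r₁ := by linarith
    have h5 : 0 ≤ 1 + r₂ := by linarith
    positivity

/-- the lemma of Landau for `L(s, χ)` at `1 + 1 / T` -/
theorem landau (h1 : S_LAN) (h2 : S_LOW) : ∃ C : ℝ, 1 ≤ C ∧
    ∀ (N : ℕ) [NeZero N] (T : ℝ), 8 ≤ T → ∀ χ : DirichletCharacter ℂ N, χ ≠ 1 →
      -(16 * Real.log (2 * C * N * T)) ≤ (ld χ ((1 + 1 / T : ℝ) : ℂ)).re ∧
      (Bad T χ → 25 / 36 * T - 16 * Real.log (2 * C * N * T) ≤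
        (ld χ ((1 + 1 / T : ℝ) : ℂ)).re) := by
  obtain ⟨C₀, hC₀, hb⟩ := Pool.Agent.Mld.lbd
  refine ⟨max C₀ 1, le_max_right _ _, fun N _ T hT χ hχ => ?_⟩
  set C := max C₀ 1 with hC
  have hC1 : 1 ≤ C := le_max_right _ _
  have hC2 : C₀ ≤ C := le_max_left _ _
  have hT0 : 0 < T := by linarith
  have hN : (1 : ℝ) ≤ N := by exact_mod_cast NeZero.pos N
  set σ : ℝ := 1 + 1 / T with hσ
  have hi : 0 < 1 / T := by positivity
  have hi2 : 1 / T ≤ 1 / 8 := one_div_le_one_div_of_le (by norm_num) hT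
  have hσ1 : 1 < σ := by linarith
  have hσ2 : σ ≤ 2 := by linarith
  have hlow := h2 N χ σ hσ1 hσ2
  have hlow' : 1 / (2 * T) ≤ ‖χ.LFunction (σ : ℂ)‖ := by
    have : (σ - 1) / 2 = 1 / (2 * T) := by
      rw [hσ]
      field_simp
      ring
    rw [← this]
    exact hlow
  have hne : χ.LFunction (σ : ℂ) ≠ 0 := by
    have : 0 < 1 / (2 * T) := by positivity
    exact norm_pos_iff.1 (lt_of_lt_of_le this hlow')
  have hX : 1 < 2 * C * N * T := by
    have h3 : (1 : ℝ) ≤ C * N := by nlinarith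
    nlinarith
  have hM : 0 < Real.log (2 * C * N * T) := Real.log_pos hX
  have hexp : Real.exp (Real.log (2 * C * N * T)) = 2 * C * N * T :=
    Real.exp_log (by linarith)
  have hnz : ∀ w : ℂ, χ.LFunction w = 0 → w.re < 1 := by
    intro w hw
    by_contra hcon
    exact DirichletCharacter.LFunction_ne_zero_of_one_le_re χ (.inl hχ) (not_lt.1 hcon) hw
  have key := h1 χ.LFunction (σ : ℂ) (1 / 2) (Real.log (2 * C * N * T)) (by norm_num) hM
    (fun z _ => (DirichletCharacter.differentiable_LFunction hχ).analyticAt z) hne ?_ ?_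
  · have e : 8 * Real.log (2 * C * N * T) / (1 / 2) = 16 * Real.log (2 * C * N * T) := by ring
    rw [e] at key
    refine ⟨key.1, ?_⟩
    rintro ⟨w, hw, hw0⟩
    have hT65 : 6 / 5 / T ≤ 1 / 4 := by
      have : 6 / 5 / T = 6 / 5 * (1 / T) := by ring
      rw [this]
      linarith
    have h3 := key.2 w (by
      rw [Metric.mem_closedBall, dist_eq_norm]
      refine hw.trans (hT65.trans ?_)
      norm_num) hw0
    refine le_trans ?_ h3
    have hwre := hnz w hw0
    set z : ℂ := (σ : ℂ) - w with hz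
    have hzre : 1 / T ≤ z.re := by
      rw [hz, Complex.sub_re, Complex.ofReal_re]
      linarith
    have hzn : ‖z‖ ≤ 6 / 5 / T := by
      rw [hz, norm_sub_rev]
      exact hw
    have hz0 : 0 < Complex.normSq z := by
      rw [Complex.normSq_pos]
      intro h0
      rw [h0, Complex.zero_re] at hzre
      linarith
    have hz1 : Complex.normSq z ≤ (6 / 5 / T) ^ 2 := by
      rw [Complex.normSq_eq_norm_sq]
      exact pow_le_pow_left₀ (norm_nonneg _) hzn 2
    have hz2 : 25 / 36 * T ≤ (1 / z).re := by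
      rw [one_div, Complex.inv_re, le_div_iff₀ hz0]
      calc 25 / 36 * T * Complex.normSq z ≤ 25 / 36 * T * (6 / 5 / T) ^ 2 := by
            gcongr
        _ = 1 / T := by
            field_simp
            norm_num
        _ ≤ z.re := hzre
    linarith
  · intro z hz
    rw [Metric.mem_closedBall, dist_eq_norm] at hz
    have h3 : ‖z - 2‖ ≤ 3 / 2 := by
      have h4 : z - 2 = (z - (σ : ℂ)) + ((σ - 2 : ℝ) : ℂ) := by
        push_cast
        ring
      rw [h4]
      refine (norm_add_le _ _).trans ?_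
      rw [Complex.norm_real, Real.norm_eq_abs, abs_of_nonpos (by linarith)]
      linarith
    refine (hb N χ hχ z h3).trans ?_
    rw [hexp]
    calc C₀ * N ≤ C * N := by gcongr
      _ = 2 * C * N * T * (1 / (2 * T)) := by
          field_simp
      _ ≤ 2 * C * N * T * ‖χ.LFunction (σ : ℂ)‖ := by
          have : 0 ≤ 2 * C * N * T := by linarith
          exact mul_le_mul_of_nonneg_left hlow' this
  · intro z _ hz
    rw [Complex.ofReal_re]
    have := hnz z hz
    linarith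

end PAIR

/-- **LGP_PAIR.** -/
theorem PAIR_thm (h1 : S_LAN) (h2 : S_LOW) (h3 : S_ZET) : S_PAIR := by
  obtain ⟨C, hC, hl⟩ := PAIR.landau h1 h2
  obtain ⟨C₀, hC₀, hz⟩ := h3
  have hlC : 0 ≤ Real.log (2 * C) := Real.log_nonneg (by linarith)
  have hl1 : 0 ≤ Real.log 1000 := Real.log_nonneg (by norm_num)
  refine ⟨1000 * (C₀ + 48 * Real.log (2 * C) + 48 * Real.log 1000 + 48), by nlinarith,
    fun N _ T hT χ₁ χ₂ q₁ q₂ n₁ n₂ n₃ b₁ b₂ => ?_⟩
  have hN : (1 : ℝ) ≤ N := by exact_mod_cast NeZero.pos N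
  have hlN : 0 ≤ Real.log N := Real.log_nonneg hN
  have hT1 : 1000 * (C₀ + 48 * Real.log (2 * C) + 48 * Real.log 1000 + 48) ≤ T := by
    refine le_trans ?_ hT
    have : 0 ≤ 1000 * (C₀ + 48 * Real.log (2 * C) + 48 * Real.log 1000 + 48) := by positivity
    nlinarith
  have hT2 : 1000 * (48 * Real.log N) ≤ T := by
    refine le_trans ?_ hT
    have h4 : 0 ≤ C₀ + 48 * Real.log (2 * C) + 48 * Real.log 1000 := by positivity
    nlinarith [mul_nonneg h4 hlN]
  have hT8 : 8 ≤ T := by linarith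
  have hT0 : 0 < T := by linarith
  have n₄ : χ₁ * χ₂ ≠ 1 := by
    intro h4
    apply n₃
    have h5 : χ₂ * χ₂ = 1 := by
      rw [← pow_two]
      exact q₂
    calc χ₁ = χ₁ * (χ₂ * χ₂) := by rw [h5, mul_one]
      _ = χ₂ := by rw [← mul_assoc, h4, one_mul]
  have k1 := (hl N T hT8 χ₁ n₁).2 b₁
  have k2 := (hl N T hT8 χ₂ n₂).2 b₂
  have k3 := (hl N T hT8 (χ₁ * χ₂) n₄).1
  have hi : 0 < 1 / T := by positivity
  have hi2 : 1 / T ≤ 1 / 8 := one_div_le_one_div_of_le (by norm_num) hT8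
  have k4 := PAIR.pos χ₁ χ₂ q₁ q₂ (1 + 1 / T) (by linarith)
  have k5 := hz (1 + 1 / T) (by linarith) (by linarith)
  have k6 : -(C₀ : ℝ) ≤ (deriv riemannZeta ((1 + 1 / T : ℝ) : ℂ) /
      riemannZeta ((1 + 1 / T : ℝ) : ℂ)).re + T := by
    have h4 := (abs_le.1 (Complex.abs_re_le_norm (deriv riemannZeta ((1 + 1 / T : ℝ) : ℂ) /
      riemannZeta ((1 + 1 / T : ℝ) : ℂ) + 1 / (((1 + 1 / T : ℝ) : ℂ) - 1)))).1
    have h5 : (1 / (((1 + 1 / T : ℝ) : ℂ) - 1)) = ((T : ℝ) : ℂ) := by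
      have : (((1 + 1 / T : ℝ) : ℂ) - 1) = ((1 / T : ℝ) : ℂ) := by
        push_cast
        ring
      rw [this]
      push_cast
      simp
    rw [h5] at h4 k5
    rw [Complex.add_re, Complex.ofReal_re] at h4
    linarith
  simp only [Complex.sub_re, Complex.neg_re] at k4
  have hlog : Real.log (2 * C * N * T) ≤ Real.log (2 * C) + Real.log N + T / 1000 +
      Real.log 1000 := by
    rw [Real.log_mul (by positivity) (by positivity), Real.log_mul (by positivity) (by positivity)]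
    have h4 : Real.log T = Real.log (T / 1000) + Real.log 1000 := by
      rw [← Real.log_mul (by positivity) (by norm_num)]
      congr 1
      ring
    have h5 := Real.log_le_sub_one_of_pos (show 0 < T / 1000 by positivity)
    linarith
  linarith

end Pool.Agent.LGP
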