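import Pool.Agent.LGP.Stmts

set_option autoImplicit false

/-!
# LGP_SER: weighted sums over the von Mangoldt function are derivatives of `L'/L`
-/

namespace Pool.Agent.LGP

open Complex LSeries

namespace SER

lemma logMul_iter (f : ℕ → ℂ) (m n : ℕ) :
    (LSeries.logMul^[m] f) n = (Complex.log n) ^ m * f n := by
  induction m with
  | zero => simp
  | succ m ih =>
    rw [Function.iterate_succ', Function.comp_apply, LSeries.logMul, ih]
    ring

lemma absc_le (f : ℕ → ℂ) (hf : ∀ s : ℂ, 1 < s.re → LSeriesSummable f s) :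
    abscissaOfAbsConv f ≤ ((1 : ℝ) : EReal) :=
  LSeries.abscissaOfAbsConv_le_of_forall_lt_LSeriesSummable
    (fun y hy => hf (y : ℂ) (by simpa using hy))

/-- the twisted von Mangoldt function -/
noncomputable def F {N : ℕ} (χ : DirichletCharacter ℂ N) : ℕ → ℂ :=
  (fun n : ℕ => χ (n : ZMod N)) * (fun n : ℕ => ((ArithmeticFunction.vonMangoldt n : ℝ) : ℂ))

lemma F_summable {N : ℕ} (χ : DirichletCharacter ℂ N) (s : ℂ) (hs : 1 < s.re) :
    LSeriesSummable (F χ) s :=
  DirichletCharacter.LSeriesSummable_twist_vonMangoldt χ hs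

lemma absc_F_lt {N : ℕ} (χ : DirichletCharacter ℂ N) (s : ℂ) (hs : 1 < s.re) :
    abscissaOfAbsConv (F χ) < s.re :=
  lt_of_le_of_lt (absc_le _ (F_summable χ)) (by exact_mod_cast hs)

lemma term_eq {N : ℕ} (χ : DirichletCharacter ℂ N) (k : ℕ) (σ : ℝ) (n : ℕ) :
    LSeries.term (LSeries.logMul^[k] (F χ)) (σ : ℂ) n = χ (n : ZMod N) * (wt k σ n : ℂ) := by
  rcases Nat.eq_zero_or_pos n with rfl | hn
  · simp [wt]
  · rw [LSeries.term_of_ne_zero hn.ne', logMul_iter, F, wt]
    have h1 : ((n : ℝ) : ℂ) = (n : ℂ) := by simp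
    have h2 : Complex.log (n : ℂ) = ((Real.log n : ℝ) : ℂ) := by
      rw [← h1, Complex.ofReal_log (by positivity)]
    have h3 : (((n : ℝ) ^ (-σ) : ℝ) : ℂ) = ((n : ℂ) ^ (σ : ℂ))⁻¹ := by
      rw [Complex.ofReal_cpow (by positivity), h1, Complex.ofReal_neg, Complex.cpow_neg]
    push_cast
    rw [h2, h3]
    simp only [Pi.mul_apply]
    field_simp

lemma tsum_eq {N : ℕ} (χ : DirichletCharacter ℂ N) (k : ℕ) (σ : ℝ) :
    ∑' n : ℕ, χ (n : ZMod N) * (wt k σ n : ℂ) = LSeries (LSeries.logMul^[k] (F χ)) (σ : ℂ) := by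
  rw [LSeries]
  exact tsum_congr (fun n => (term_eq χ k σ n).symm)

lemma iter_summable {N : ℕ} (χ : DirichletCharacter ℂ N) (k : ℕ) (s : ℂ) (hs : 1 < s.re) :
    LSeriesSummable (LSeries.logMul^[k] (F χ)) s := by
  apply LSeriesSummable_of_abscissaOfAbsConv_lt_re
  rw [LSeries.absicssaOfAbsConv_logPowMul]
  exact absc_F_lt χ s hs

lemma wt_summable (k : ℕ) (σ : ℝ) (hσ : 1 < σ) : Summable (wt k σ) := by
  have h := iter_summable (1 : DirichletCharacter ℂ 1) k (σ : ℂ) (by simpa using hσ)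
  have h2 : Summable (fun n : ℕ => ((wt k σ n : ℝ) : ℂ)) := by
    refine (summable_congr (fun n => ?_)).mp h
    rw [term_eq]
    have : (1 : DirichletCharacter ℂ 1) (n : ZMod 1) = 1 :=
      MulChar.one_apply (by
        have : (n : ZMod 1) = 1 := Subsingleton.elim _ _
        rw [this]; exact isUnit_one)
    rw [this, one_mul]
  exact Complex.summable_ofReal.mp h2

lemma ld_eq {N : ℕ} [NeZero N] (χ : DirichletCharacter ℂ N) (s : ℂ) (hs : 1 < s.re) :
    ld χ s = - LSeries (F χ) s := by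
  rw [ld, F, DirichletCharacter.LSeries_twist_vonMangoldt_eq χ hs,
    DirichletCharacter.deriv_LFunction_eq_deriv_LSeries χ hs,
    DirichletCharacter.LFunction_eq_LSeries χ hs, neg_div, neg_neg]

end SER

open SER in
theorem SER_thm : S_SER := by
  intro N _ χ k σ hσ
  refine ⟨wt_summable k σ hσ, ?_⟩
  have hs : 1 < ((σ : ℂ)).re := by simpa using hσ
  have hev : ld χ =ᶠ[nhds (σ : ℂ)] fun s => - LSeries (F χ) s := by
    have h : {z : ℂ | 1 < z.re} ∈ nhds (σ : ℂ) :=
      (isOpen_lt continuous_const Complex.continuous_re).mem_nhds hs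
    filter_upwards [h] with z hz
    exact ld_eq χ z hz
  rw [hev.iteratedDeriv_eq, iteratedDeriv_fun_neg, LSeries_iteratedDeriv k (absc_F_lt χ _ hs),
    tsum_eq, norm_neg, norm_mul, norm_pow, norm_neg, norm_one, one_pow, one_mul]

end Pool.Agent.LGP
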