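import Pool.Agent.LGP.Stmts

set_option autoImplicit false

/-!
# LGP_TOW: infinitely many good moduli (tower argument for the exceptional character)
-/

namespace Pool.Agent.LGP

open Finset

namespace TOW

/-- the moduli -/
def Nj (j : ℕ) : ℕ := 4 * primorial (2 ^ j)

theorem Nj_pos (j : ℕ) : 0 < Nj j := Nat.mul_pos (by norm_num) (primorial_pos _)

instance (j : ℕ) : NeZero (Nj j) := ⟨(Nj_pos j).ne'⟩

theorem Nj_dvd {i j : ℕ} (h : i ≤ j) : Nj i ∣ Nj j :=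
  Nat.mul_dvd_mul_left 4 (primorial_dvd_primorial (Nat.pow_le_pow_right (by norm_num) h))

theorem Nj_succ (j : ℕ) :
    Nj (j + 1) = Nj j * ∏ p ∈ Ico (2 ^ j + 1) (2 ^ j + 2 ^ j + 1) with p.Prime, p := by
  unfold Nj
  rw [pow_succ, mul_two, primorial_add, mul_assoc]

/-- the radii -/
noncomputable def Tj (A : ℝ) (j : ℕ) : ℝ := A * (1 + Real.log ((4 * primorial (2 ^ j) : ℕ) : ℝ))

theorem Tj_eq (A : ℝ) (j : ℕ) : Tj A j = A * (1 + Real.log (Nj j : ℝ)) := rfl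

theorem log_mono {i j : ℕ} (h : i ≤ j) : Real.log (Nj i : ℝ) ≤ Real.log (Nj j : ℝ) := by
  apply Real.log_le_log
  · exact_mod_cast Nj_pos i
  · exact_mod_cast Nat.le_of_dvd (Nj_pos j) (Nj_dvd h)

theorem log_nonneg (j : ℕ) : 0 ≤ Real.log (Nj j : ℝ) := by
  apply Real.log_nonneg
  exact_mod_cast Nj_pos j

theorem Tj_mono {A : ℝ} (hA : 1 ≤ A) {i j : ℕ} (h : i ≤ j) : Tj A i ≤ Tj A j := by
  rw [Tj_eq, Tj_eq]
  have := log_mono h
  nlinarith

theorem one_le_Tj {A : ℝ} (hA : 1 ≤ A) (j : ℕ) : 1 ≤ Tj A j := by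
  rw [Tj_eq]
  have := log_nonneg j
  nlinarith

theorem disc_mono {T T' : ℝ} (hT : 1 ≤ T) (h : T ≤ T') {w : ℂ}
    (hw : ‖w - ((1 + 1 / T' : ℝ) : ℂ)‖ ≤ 6 / 5 / T') :
    ‖w - ((1 + 1 / T : ℝ) : ℂ)‖ ≤ 6 / 5 / T := by
  have h0 : 0 < T := by linarith
  have h0' : 0 < T' := by linarith
  have hinv : 1 / T' ≤ 1 / T := one_div_le_one_div_of_le h0 h
  have e : w - ((1 + 1 / T : ℝ) : ℂ) = (w - ((1 + 1 / T' : ℝ) : ℂ)) +
      ((1 / T' - 1 / T : ℝ) : ℂ) := by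
    push_cast
    ring
  rw [e]
  refine (norm_add_le _ _).trans ?_
  rw [Complex.norm_real, Real.norm_eq_abs, abs_of_nonpos (by linarith)]
  have e1 : 6 / 5 / T' = 6 / 5 * (1 / T') := by ring
  have e2 : 6 / 5 / T = 6 / 5 * (1 / T) := by ring
  rw [e1] at hw
  rw [e2]
  linarith

theorem re_pos {T : ℝ} (hT : 1 ≤ T) {w : ℂ}
    (hw : ‖w - ((1 + 1 / T : ℝ) : ℂ)‖ ≤ 6 / 5 / T) : 0 < w.re := by
  have h0 : 0 < T := by linarith
  have h1 := (Complex.abs_re_le_norm (w - ((1 + 1 / T : ℝ) : ℂ))).trans hw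
  rw [Complex.sub_re, Complex.ofReal_re, abs_le] at h1
  have h2 : 1 / T ≤ 1 := by
    rw [div_le_one h0]
    exact hT
  have e2 : 6 / 5 / T = 6 / 5 * (1 / T) := by ring
  rw [e2] at h1
  have h3 : 0 < 1 / T := by positivity
  linarith [h1.1]

/-- The zeros of the `L`-function of a lift in the half plane `Re w > 0`. -/
theorem zero_of_lift {M N : ℕ} [NeZero M] [NeZero N] (hMN : M ∣ N)
    (χ : DirichletCharacter ℂ M) (hχ : χ ≠ 1) {w : ℂ} (hw : 0 < w.re)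
    (h : (DirichletCharacter.changeLevel hMN χ).LFunction w = 0) : χ.LFunction w = 0 := by
  rw [DirichletCharacter.LFunction_changeLevel hMN χ (Or.inl hχ)] at h
  rcases mul_eq_zero.1 h with h | h
  · exact h
  · exfalso
    obtain ⟨p, hp, hp0⟩ := Finset.prod_eq_zero_iff.1 h
    have hpp : p.Prime := Nat.prime_of_mem_primeFactors hp
    have h1 : χ p * (p : ℂ) ^ (-w) = 1 := (sub_eq_zero.1 hp0).symm
    have h2 : ‖χ p * (p : ℂ) ^ (-w)‖ < 1 := by
      rw [norm_mul, Complex.norm_natCast_cpow_of_pos hpp.pos]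
      have h3 : ‖χ (p : ZMod M)‖ ≤ 1 := DirichletCharacter.norm_le_one χ _
      have h4 : (p : ℝ) ^ (-w).re < 1 := by
        apply Real.rpow_lt_one_of_one_lt_of_neg
        · exact_mod_cast hpp.one_lt
        · rw [Complex.neg_re]
          linarith
      have h5 : 0 ≤ (p : ℝ) ^ (-w).re := by positivity
      calc ‖χ (p : ZMod M)‖ * (p : ℝ) ^ (-w).re ≤ 1 * (p : ℝ) ^ (-w).re :=
            mul_le_mul_of_nonneg_right h3 h5
        _ < 1 := by linarith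
    rw [h1, norm_one] at h2
    exact lt_irrefl _ h2

theorem lift_zero {M N : ℕ} [NeZero M] [NeZero N] (hMN : M ∣ N)
    (χ : DirichletCharacter ℂ M) (hχ : χ ≠ 1) {w : ℂ} (h : χ.LFunction w = 0) :
    (DirichletCharacter.changeLevel hMN χ).LFunction w = 0 := by
  rw [DirichletCharacter.LFunction_changeLevel hMN χ (Or.inl hχ), h, zero_mul]

/-- a prime in the last dyadic block divides the modulus exactly once -/
theorem not_dvd_quot {j r N : ℕ} (hr : r.Prime) (h1 : 2 ^ (j + 1) < 2 * r)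
    (hj : 1 ≤ j) (hN : N * r = Nj (j + 1)) : ¬ r ∣ N := by
  rintro ⟨k, rfl⟩
  have hodd : r ≠ 2 := by
    rintro rfl
    have : 2 ^ 2 ≤ 2 ^ (j + 1) := Nat.pow_le_pow_right (by norm_num) (by omega)
    omega
  have h2 : r * r ∣ 4 * primorial (2 ^ (j + 1)) := ⟨k, by
    have : r * k * r = 4 * primorial (2 ^ (j + 1)) := hN
    rw [← this]
    ring⟩
  have hc4 : Nat.Coprime (r * r) 4 := by
    have : Nat.Coprime r 2 := (Nat.coprime_primes hr Nat.prime_two).2 hodd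
    have h22 : Nat.Coprime r (2 ^ 2) := this.pow_right 2
    exact Nat.Coprime.mul_left h22 h22
  have h3 : r * r ∣ primorial (2 ^ (j + 1)) := hc4.dvd_of_dvd_mul_left h2
  have hsq : Squarefree (primorial (2 ^ (j + 1))) := by
    unfold primorial
    refine Finset.squarefree_prod_of_pairwise_isCoprime ?_ ?_
    · intro a ha b hb hab
      simp only [coe_filter, Set.mem_ofPred_eq] at ha hb
      exact Nat.coprime_iff_isRelPrime.1 ((Nat.coprime_primes ha.2 hb.2).2 hab)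
    · intro a ha
      rw [mem_filter] at ha
      exact ha.2.squarefree
  have := hsq r h3
  exact hr.one_lt.ne' (Nat.isUnit_iff.1 this)

end TOW

open TOW in
/-- LGP_TOW -/
theorem TOW_thm (h : S_PAIR) : S_TOW := by
  obtain ⟨A₀, hA₀, hP⟩ := h
  refine ⟨A₀, hA₀, fun A hA j₀ => ?_⟩
  have hA1 : 1 ≤ A := hA₀.trans hA
  by_contra hcon
  push Not at hcon
  -- the failure at every level `j ≥ J`
  let J := max j₀ 1
  have hfail : ∀ j, J ≤ j → ∀ (N : ℕ) (_ : NeZero N) (r : ℕ), N * r = Nj j →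
      (r = 1 ∨ (r.Prime ∧ 2 ^ j < 2 * r ∧ r ≤ 2 ^ j)) →
      ∃ χ : DirichletCharacter ℂ N, χ ^ 2 = 1 ∧ χ ≠ 1 ∧ Bad (Tj A j) χ := by
    intro j hj N hN r hr hr2
    obtain ⟨χ, h1, h2, h3⟩ := hcon j ((le_max_left _ _).trans hj) N hN r hr hr2
    exact ⟨χ, h1, h2, h3⟩
  have huniq : ∀ j, ∀ χ₁ χ₂ : DirichletCharacter ℂ (Nj j), χ₁ ^ 2 = 1 → χ₂ ^ 2 = 1 → χ₁ ≠ 1 →
      χ₂ ≠ 1 → Bad (Tj A j) χ₁ → Bad (Tj A j) χ₂ → χ₁ = χ₂ := by
    intro j χ₁ χ₂ h1 h2 h3 h4 h5 h6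
    by_contra hne
    refine hP (Nj j) (Tj A j) ?_ χ₁ χ₂ h1 h2 h3 h4 hne h5 h6
    rw [Tj_eq]
    have := log_nonneg j
    exact mul_le_mul_of_nonneg_right hA (by linarith)
  -- one step down the tower
  have hstep : ∀ j, J ≤ j → ∀ (χ : DirichletCharacter ℂ (Nj (j + 1))) (w : ℂ), χ ^ 2 = 1 → χ ≠ 1 →
      χ.LFunction w = 0 → ‖w - ((1 + 1 / Tj A (j + 1) : ℝ) : ℂ)‖ ≤ 6 / 5 / Tj A (j + 1) →
      ∃ χ' : DirichletCharacter ℂ (Nj j), χ' ^ 2 = 1 ∧ χ' ≠ 1 ∧ χ'.LFunction w = 0 := by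
    intro j hj χ w hχ2 hχ1 hw0 hw
    have hj1 : 1 ≤ j := (le_max_right _ _).trans hj
    have hcond : ∀ r ∈ (Ico (2 ^ j + 1) (2 ^ j + 2 ^ j + 1)).filter Nat.Prime,
        Nat.Coprime χ.conductor r := by
      intro r hr
      rw [mem_filter, mem_Ico] at hr
      obtain ⟨⟨hr1, hr2⟩, hrp⟩ := hr
      have hpow : 2 ^ (j + 1) = 2 ^ j + 2 ^ j := by rw [pow_succ, mul_two]
      have hrd : r ∣ Nj (j + 1) := by
        rw [Nj_succ]
        exact (Finset.dvd_prod_of_mem (fun p => p) (mem_filter.2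
          ⟨mem_Ico.2 ⟨hr1, hr2⟩, hrp⟩)).mul_left _
      obtain ⟨N, hN⟩ := hrd
      have hN' : N * r = Nj (j + 1) := by rw [hN, mul_comm]
      have hN0 : N ≠ 0 := by
        rintro rfl
        rw [zero_mul] at hN'
        exact (Nj_pos (j + 1)).ne hN'
      have : NeZero N := ⟨hN0⟩
      obtain ⟨ψ, hψ2, hψ1, v, hv, hv0⟩ := hfail (j + 1) (by omega) N ⟨hN0⟩ r hN'
        (Or.inr ⟨hrp, by omega, by omega⟩)
      have hd : N ∣ Nj (j + 1) := ⟨r, hN'.symm⟩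
      have heq : DirichletCharacter.changeLevel hd ψ = χ := by
        refine huniq (j + 1) _ _ ?_ hχ2 ?_ hχ1 ⟨v, hv, lift_zero hd ψ hψ1 hv0⟩ ⟨w, hw, hw0⟩
        · rw [← map_pow, hψ2, map_one]
        · rwa [Ne, DirichletCharacter.changeLevel_eq_one_iff]
      have hft : χ.FactorsThrough N := ⟨hd, ψ, heq.symm⟩
      have hcd : χ.conductor ∣ N :=
        (DirichletCharacter.mem_conductorSet_iff_conductor_dvd χ hd).1 hft
      have hnr : ¬ r ∣ N := not_dvd_quot hrp (by omega) hj1 hN'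
      have hco : Nat.Coprime r N := (Nat.Prime.coprime_iff_not_dvd hrp).2 hnr
      exact (hco.coprime_dvd_right hcd).symm
    have hcop : Nat.Coprime χ.conductor
        (∏ p ∈ Ico (2 ^ j + 1) (2 ^ j + 2 ^ j + 1) with p.Prime, p) :=
      Nat.Coprime.prod_right hcond
    have hdvd : χ.conductor ∣ Nj j := by
      have h1 : χ.conductor ∣ Nj (j + 1) := DirichletCharacter.conductor_dvd_level χ
      have h2 : χ.conductor ∣
          Nj j * ∏ p ∈ Ico (2 ^ j + 1) (2 ^ j + 2 ^ j + 1) with p.Prime, p :=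
        h1.trans (Nj_succ j).dvd
      exact hcop.dvd_of_dvd_mul_right h2
    have hle : Nj j ∣ Nj (j + 1) := Nj_dvd (Nat.le_succ j)
    obtain ⟨hd, χ', hχ'⟩ :=
      (DirichletCharacter.mem_conductorSet_iff_conductor_dvd χ hle).2 hdvd
    have hχ'1 : χ' ≠ 1 := by
      rintro rfl
      rw [map_one] at hχ'
      exact hχ1 hχ'
    refine ⟨χ', ?_, hχ'1, ?_⟩
    · apply DirichletCharacter.changeLevel_injective hd
      rw [map_pow, map_one, ← hχ', hχ2]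
    · refine zero_of_lift hd χ' hχ'1 (re_pos (one_le_Tj hA1 (j + 1)) hw) ?_
      rw [← hχ', hw0]
  -- all the way down
  have hdown : ∀ n : ℕ, ∀ (χ : DirichletCharacter ℂ (Nj (J + n))) (w : ℂ), χ ^ 2 = 1 → χ ≠ 1 →
      χ.LFunction w = 0 → ‖w - ((1 + 1 / Tj A (J + n) : ℝ) : ℂ)‖ ≤ 6 / 5 / Tj A (J + n) →
      ∃ χ' : DirichletCharacter ℂ (Nj J), χ' ^ 2 = 1 ∧ χ' ≠ 1 ∧ χ'.LFunction w = 0 := by
    intro n
    induction n with
    | zero =>
      intro χ w h1 h2 h3 _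
      exact ⟨χ, h1, h2, h3⟩
    | succ n ih =>
      intro χ w h1 h2 h3 h4
      obtain ⟨χ', g1, g2, g3⟩ := hstep (J + n) (by omega) χ w h1 h2 h3 h4
      exact ih χ' w g1 g2 g3
        (disc_mono (one_le_Tj hA1 _) (Tj_mono hA1 (Nat.le_succ (J + n))) h4)
  obtain ⟨ψ, hψ2, hψ1, hψb⟩ := hfail J le_rfl (Nj J) inferInstance 1 (mul_one _) (Or.inl rfl)
  have hzeros : ∀ n : ℕ, ∃ w : ℂ, ψ.LFunction w = 0 ∧
      ‖w - ((1 + 1 / Tj A (J + n) : ℝ) : ℂ)‖ ≤ 6 / 5 / Tj A (J + n) := by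
    intro n
    obtain ⟨χ, h1, h2, w, hw, hw0⟩ := hfail (J + n) (by omega) (Nj (J + n)) inferInstance 1
      (mul_one _) (Or.inl rfl)
    obtain ⟨χ', g1, g2, g3⟩ := hdown n χ w h1 h2 hw0 hw
    have hw' := disc_mono (one_le_Tj hA1 J) (Tj_mono hA1 (Nat.le_add_right J n)) hw
    have : χ' = ψ := huniq J χ' ψ g1 hψ2 g2 hψ1 ⟨w, hw', g3⟩ hψb
    exact ⟨w, this ▸ g3, hw⟩
  -- the zeros tend to `1`
  have hne := DirichletCharacter.LFunction_apply_one_ne_zero hψ1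
  have hcont : ContinuousAt ψ.LFunction 1 :=
    (DirichletCharacter.differentiable_LFunction hψ1).continuous.continuousAt
  obtain ⟨ε, hε, hε'⟩ := Metric.eventually_nhds_iff.1 (hcont.eventually_ne hne)
  -- a large level
  obtain ⟨p, hp1, hpp⟩ := Nat.exists_infinite_primes (Nat.ceil (Real.exp (3 / ε)) + 1)
  obtain ⟨n, hn⟩ : ∃ n, p ≤ 2 ^ (J + n) := ⟨p, (Nat.lt_two_pow_self).le.trans
    (Nat.pow_le_pow_right (by norm_num) (by omega))⟩
  obtain ⟨w, hw0, hw⟩ := hzeros n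
  refine hε' (y := w) ?_ hw0
  have hpd : p ∣ primorial (2 ^ (J + n)) :=
    Finset.dvd_prod_of_mem (fun p => p) (mem_filter.2 ⟨mem_range.2 (by omega), hpp⟩)
  have hpN : p ≤ Nj (J + n) := by
    have h1 := Nat.le_of_dvd (primorial_pos _) hpd
    unfold Nj
    omega
  have hlog : 3 / ε ≤ Real.log (Nj (J + n) : ℝ) := by
    rw [Real.le_log_iff_exp_le (by exact_mod_cast Nj_pos _)]
    have h1 : Real.exp (3 / ε) ≤ (Nat.ceil (Real.exp (3 / ε)) : ℝ) := Nat.le_ceil _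
    have h2 : (Nat.ceil (Real.exp (3 / ε)) : ℝ) ≤ (Nj (J + n) : ℝ) := by
      exact_mod_cast (by omega : Nat.ceil (Real.exp (3 / ε)) ≤ Nj (J + n))
    linarith
  have hT : 3 / ε < Tj A (J + n) := by
    rw [Tj_eq]
    have h3 : 0 < 3 / ε := by positivity
    nlinarith
  have hT0 : 0 < Tj A (J + n) := lt_of_lt_of_le one_pos (one_le_Tj hA1 _)
  rw [dist_eq_norm]
  have e : w - 1 = (w - ((1 + 1 / Tj A (J + n) : ℝ) : ℂ)) +
      ((1 / Tj A (J + n) : ℝ) : ℂ) := by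
    push_cast
    ring
  rw [e]
  refine (norm_add_le _ _).trans_lt ?_
  rw [Complex.norm_real, Real.norm_eq_abs, abs_of_pos (by positivity)]
  have h5 : 3 / Tj A (J + n) < ε := by
    rw [div_lt_iff₀ hT0]
    rw [div_lt_iff₀ hε] at hT
    linarith
  have e1 : 3 / Tj A (J + n) = 3 * (1 / Tj A (J + n)) := by ring
  have e2 : 6 / 5 / Tj A (J + n) = 6 / 5 * (1 / Tj A (J + n)) := by ring
  rw [e1] at h5
  rw [e2] at hw
  have h6 : 0 < 1 / Tj A (J + n) := by positivity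
  linarith

end Pool.Agent.LGP
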