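import Pool.Agent.LGP.Stmts

set_option autoImplicit false

/-!
# LGP_ZET: the logarithmic derivative of zeta near `1`
-/

namespace Pool.Agent.LGP

namespace ZET

theorem zeta_one_ne {s : ℂ} (hs : 1 ≤ s.re) : riemannZeta₁ s ≠ 0 := by
  rcases eq_or_ne s 1 with rfl | h
  · simp
  · have h1 := riemannZeta_ne_zero_of_one_le_re hs
    intro h0
    apply h1
    rw [riemannZeta_eq_inv_sub_mul h, h0, mul_zero]

theorem log_deriv_eq {s : ℂ} (hs : 1 ≤ s.re) (h : s ≠ 1) :
    deriv riemannZeta s / riemannZeta s + 1 / (s - 1) =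
      deriv riemannZeta₁ s / riemannZeta₁ s := by
  have h0 := zeta_one_ne hs
  have h1 : s - 1 ≠ 0 := sub_ne_zero_of_ne h
  rw [deriv_riemannZeta_eq_neg_inv_sub_sq_mul_add h, riemannZeta_eq_inv_sub_mul h]
  field_simp
  ring

theorem cont : ContinuousOn
    (fun σ : ℝ => deriv riemannZeta₁ (σ : ℂ) / riemannZeta₁ (σ : ℂ)) (Set.Icc 1 2) := by
  have hd : Continuous (deriv riemannZeta₁) := differentiable_riemannZeta₁.deriv.continuous
  refine ContinuousOn.div ?_ ?_ ?_
  · exact (hd.comp Complex.continuous_ofReal).continuousOn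
  · exact (differentiable_riemannZeta₁.continuous.comp Complex.continuous_ofReal).continuousOn
  · intro σ hσ
    exact zeta_one_ne (by rw [Complex.ofReal_re]; exact hσ.1)

end ZET

theorem ZET_thm : S_ZET := by
  obtain ⟨C, hC⟩ := isCompact_Icc.exists_bound_of_continuousOn ZET.cont
  refine ⟨max 1 C, le_max_left _ _, ?_⟩
  intro σ h1 h2
  have hne : (σ : ℂ) ≠ 1 := by
    intro h
    have := congrArg Complex.re h
    rw [Complex.ofReal_re, Complex.one_re] at this
    linarith
  rw [ZET.log_deriv_eq (by rw [Complex.ofReal_re]; exact h1.le) hne]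
  exact (hC σ ⟨h1.le, h2⟩).trans (le_max_right _ _)

end Pool.Agent.LGP
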